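import Pool.Agent.K7.H73.NM.I

/-!
# Elements of `ℚ(ζ₉)[∛2]` with the Selmer condition are squares
-/

set_option autoImplicit false
set_option linter.unusedSectionVars false

namespace Pool.Agent.K7.H73.NM

open IsDedekindDomain NumberField WithZero Pool.Agent.Y696 Module

section F
variable {F : Type} [Field F] [NumberField F] [IsCyclotomicExtension {3} ℚ F]

lemma alg_F {δ : Cb F} (hP : PA δ) : IsSquare δ := by
  by_contra hsq
  obtain ⟨δ₁, hs1, hP1, hr⟩ := desc_FQ hsq hP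
  exact hs1 (alg_rat hr hP1)

end F

section M
variable (M : Type) [Field M] [NumberField M] [IsCyclotomicExtension {9} ℚ M]

lemma unr9 {p : ℕ} (hp : p.Prime) (h3 : p ≠ 3) (v : HeightOneSpectrum (𝓞 M))
    (hv : (p : 𝓞 M) ∈ v.asIdeal) : v.valuation M (p : M) = exp (-1 : ℤ) := by
  have : Fact p.Prime := ⟨hp⟩
  have hlo : v.asIdeal.LiesOver (spZ hp).asIdeal := lies_spZ hp hv
  have : v.asIdeal.LiesOver (Ideal.span {(p : ℤ)}) := hlo
  have h1 := HeightOneSpectrum.valuation_liesOver (K := ℚ) M (spZ hp) v (p : ℚ)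
  have hram : (spZ hp).asIdeal.ramificationIdx' v.asIdeal = 1 := by
    rw [Ideal.ramificationIdx'_eq_ramificationIdx _ _ (spZ hp).ne_bot]
    refine IsCyclotomicExtension.Rat.ramificationIdx_eq_of_not_dvd (m := 9) p M v.asIdeal ?_
    intro h
    have h9 : p ∣ 3 ^ 2 := h
    exact h3 ((Nat.prime_dvd_prime_iff_eq hp Nat.prime_three).1 (hp.dvd_of_dvd_pow h9))
  rw [hram, pow_one, spZ_val] at h1
  rw [h1]
  simp

lemma fr_M : finrank ℚ M = 6 := by
  rw [IsCyclotomicExtension.finrank (n := 9) M (Polynomial.cyclotomic.irreducible_rat (by norm_num))]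
  decide

/-- the structure of `M` over the third cyclotomic field -/
lemma exists_str : ∃ (z : M) (σ : M ≃+* M) (E : IntermediateField ℚ M) (w : E),
    IsCyclotomicExtension {3} ℚ E ∧ w ^ 2 + w + 1 = 0 ∧ z ^ 3 = (w : M) ∧ z ≠ 0 ∧
    σ z = w * z ∧ (∀ x : E, σ x = x) ∧ (∀ x, σ (σ (σ x)) = x) ∧ (∀ x, σ x = x → x ∈ E) := by
  have hirr : Irreducible (Polynomial.cyclotomic 9 ℚ) :=
    Polynomial.cyclotomic.irreducible_rat (by norm_num)
  set z : M := IsCyclotomicExtension.zeta 9 ℚ M with hz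
  have hzp : IsPrimitiveRoot z 9 := IsCyclotomicExtension.zeta_spec 9 ℚ M
  have hz4 : IsPrimitiveRoot (z ^ 4) 9 := hzp.pow_of_coprime 4 (by decide)
  set σ : M ≃ₐ[ℚ] M := IsCyclotomicExtension.fromZetaAut hz4 hirr with hσ
  have hσz : σ z = z ^ 4 := IsCyclotomicExtension.fromZetaAut_spec hz4 hirr
  have h9 : z ^ 9 = 1 := hzp.pow_eq_one
  have hw3 : IsPrimitiveRoot (z ^ 3) 3 := hzp.pow (by norm_num) (by norm_num)
  have hws : (z ^ 3) ^ 2 + z ^ 3 + 1 = 0 := by
    have h4 : z ^ 3 ≠ 1 := hw3.ne_one (by norm_num)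
    have h5 : (z ^ 3 - 1) * ((z ^ 3) ^ 2 + z ^ 3 + 1) = 0 := by linear_combination h9
    exact (mul_eq_zero.1 h5).resolve_left (sub_ne_zero.2 h4)
  have hσw : σ (z ^ 3) = z ^ 3 := by
    rw [map_pow, hσz]
    linear_combination z ^ 3 * h9
  have hext : ∀ f g : M →ₐ[ℚ] M, f z = g z → f = g := by
    intro f g h
    refine (hzp.powerBasis ℚ).algHom_ext ?_
    rw [IsPrimitiveRoot.powerBasis_gen]
    exact h
  have hσ3 : ∀ x, σ (σ (σ x)) = x := by
    have h5 := hext ((σ : M →ₐ[ℚ] M).comp ((σ : M →ₐ[ℚ] M).comp (σ : M →ₐ[ℚ] M)))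
      (AlgHom.id ℚ M) (by
        change σ (σ (σ z)) = z
        rw [hσz, map_pow, map_pow, hσz, map_pow, hσz]
        have : z ^ 63 = 1 := by rw [show (63 : ℕ) = 9 * 7 by norm_num, pow_mul, h9, one_pow]
        linear_combination z * this)
    intro x
    exact DFunLike.congr_fun h5 x
  have hE3 : IsCyclotomicExtension {3} ℚ (IntermediateField.adjoin ℚ {z ^ 3}) :=
    IsPrimitiveRoot.intermediateField_adjoin_isCyclotomicExtension ℚ hw3
  have hgal : IsGalois ℚ M := IsCyclotomicExtension.isGalois {9} ℚ M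
  have hord : orderOf σ = 3 := by
    have : Fact (Nat.Prime 3) := ⟨Nat.prime_three⟩
    refine orderOf_eq_prime ?_ ?_
    · ext x
      exact hσ3 x
    · intro h
      have h6 : z ^ 4 = z := by
        rw [← hσz, h]
        rfl
      have hz0 : z ≠ 0 := hzp.ne_zero (by norm_num)
      have h7 : z ^ 3 = 1 := mul_left_cancel₀ hz0 (by linear_combination h6)
      exact hw3.ne_one (by norm_num) h7
  have hle : IntermediateField.adjoin ℚ {z ^ 3} ≤
      IntermediateField.fixedField (Subgroup.zpowers σ) := by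
    rw [IntermediateField.adjoin_le_iff]
    rintro x hx
    rw [Set.mem_singleton_iff] at hx
    subst hx
    rw [SetLike.mem_coe, IntermediateField.mem_fixedField_iff]
    intro f hf
    obtain ⟨k, rfl⟩ := Subgroup.mem_zpowers_iff.1 hf
    have h8 : σ ∈ MulAction.stabilizer (M ≃ₐ[ℚ] M) (z ^ 3) := hσw
    exact (Subgroup.zpow_mem _ h8 k)
  have hfr1 : finrank ℚ (IntermediateField.adjoin ℚ {z ^ 3}) = 2 :=
    fr_F (F := IntermediateField.adjoin ℚ {z ^ 3})
  have hfr2 : finrank ℚ (IntermediateField.fixedField (Subgroup.zpowers σ)) = 2 := by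
    have h8 := Module.finrank_mul_finrank ℚ (IntermediateField.fixedField (Subgroup.zpowers σ)) M
    rw [IntermediateField.finrank_fixedField_eq_card, Nat.card_zpowers, hord, fr_M M] at h8
    omega
  have heq := IntermediateField.eq_of_le_of_finrank_eq hle (by rw [hfr1, hfr2])
  refine ⟨z, (σ : M ≃+* M), IntermediateField.adjoin ℚ {z ^ 3},
    ⟨z ^ 3, IntermediateField.mem_adjoin_simple_self ℚ _⟩, hE3, ?_, rfl, hzp.ne_zero (by norm_num),
    ?_, ?_, hσ3, ?_⟩
  · apply Subtype.ext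
    simpa using hws
  · change σ z = z ^ 3 * z
    rw [hσz]
    ring
  · rintro ⟨x, hx⟩
    have h8 := hle hx
    rw [IntermediateField.mem_fixedField_iff] at h8
    exact h8 σ (Subgroup.mem_zpowers σ)
  · intro x hx
    rw [heq, IntermediateField.mem_fixedField_iff]
    intro f hf
    obtain ⟨k, rfl⟩ := Subgroup.mem_zpowers_iff.1 hf
    have h8 : σ ∈ MulAction.stabilizer (M ≃ₐ[ℚ] M) x := hx
    exact (Subgroup.zpow_mem _ h8 k)

variable {M}

/-- the component over the third cyclotomic field -/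
lemma comp_zero {E : Type} [Field E] [NumberField E] [IsCyclotomicExtension {3} ℚ E] [Algebra E M]
    (hM : ∀ p : ℕ, p.Prime → p ≠ 3 → ∀ Q : HeightOneSpectrum (𝓞 M), (p : 𝓞 M) ∈ Q.asIdeal →
      Q.valuation M (p : M) = exp (-1 : ℤ))
    {x : Cb E} (hP : PA (Cb.map (algebraMap E M) x)) {r : E} (hr : x.N = r ^ 2) : IsSquare x := by
  have h0N : x.N ≠ 0 := by
    intro h
    apply hP.1
    rw [Cb.N_map, h, map_zero]
  have he : ∀ (v₀ : HeightOneSpectrum (𝓞 E)) (v : HeightOneSpectrum (𝓞 M)),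
      v.asIdeal.LiesOver v₀.asIdeal → ((3 : ℕ) : 𝓞 E) ∉ v₀.asIdeal →
      ∀ y, v.valuation M (algebraMap E M y) = v₀.valuation E y := by
    intro v₀ v hlo h3
    obtain ⟨p, hp, hpQ⟩ := exists_prime_mem v
    have hpv : (p : 𝓞 E) ∈ v₀.asIdeal := (mem_above hlo p).2 hpQ
    have hp3 : p ≠ 3 := by
      rintro rfl
      exact h3 hpv
    refine val_of_unr hlo ?_
    have e1 := HeightOneSpectrum.valuation_liesOver M v₀ v (p : E)
    have e3 : algebraMap E M (p : E) = (p : M) := map_natCast _ _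
    rw [e3, hM p hp hp3 v hpQ, val_prime_F hp hp3 _ hpv, ← exp_nsmul] at e1
    have e2 := exp_injective e1
    simp only [nsmul_eq_mul] at e2
    omega
  refine alg_F ⟨h0N, ⟨r, hr⟩, fun v₀ hv₀ => ?_, fun v₀ hv₀ => ?_⟩
  · obtain ⟨v, hlo⟩ := exists_above (K := M) v₀
    have h3 : ((3 : ℕ) : 𝓞 E) ∉ v₀.asIdeal := by
      intro h
      apply hv₀
      have : ((6 : ℕ) : 𝓞 E) = ((2 : ℕ) : 𝓞 E) * ((3 : ℕ) : 𝓞 E) := by norm_num
      rw [this]
      exact Ideal.mul_mem_left _ _ h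
    refine EvV.desc (algebraMap E M) (he v₀ v hlo h3) (hP.2.2.1 v ?_)
    rw [← mem_above hlo]
    exact hv₀
  · obtain ⟨v, hlo⟩ := exists_above (K := M) v₀
    have h3 : ((3 : ℕ) : 𝓞 E) ∉ v₀.asIdeal := by
      intro h
      apply v₀.isPrime.ne_top
      rw [Ideal.eq_top_iff_one]
      have : (1 : 𝓞 E) = ((3 : ℕ) : 𝓞 E) - ((2 : ℕ) : 𝓞 E) := by norm_num
      rw [this]
      exact sub_mem h hv₀
    have hv2 : ((2 : ℕ) : 𝓞 M) ∈ v.asIdeal := (mem_above hlo 2).1 hv₀
    have hvv : v.valuation M 2 = exp (-1 : ℤ) := by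
      have := hM 2 Nat.prime_two (by norm_num) v hv2
      exact_mod_cast this
    exact LvV.desc hvv (algebraMap E M) (he v₀ v hlo h3) (Cb.ne_of_N h0N) (hP.2.2.2 v hv2)

end M

/-- **elements of `ℚ(ζ₉)[∛2]` with the Selmer condition are squares** -/
theorem sq9 (M : Type) [Field M] [NumberField M] [IsCyclotomicExtension {9} ℚ M] {δ : Cb M}
    (h : PA δ) : IsSquare δ := by
  obtain ⟨z, σ, E, w, hE3, hw, hz, hz0, hσz, hσE, hσ3, hfix⟩ := exists_str M
  have hM := fun p hp h3 => unr9 M (p := p) hp h3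
  set W : M := (w : M) with hWdef
  have hW : W ^ 2 + W + 1 = 0 := by
    have := congrArg (algebraMap E M) hw
    simpa using this
  have hW3 : W ^ 3 = 1 := w3 hW
  have hW0 : W ≠ 0 := by
    intro h
    rw [h] at hW3
    norm_num at hW3
  have hσW : σ W = W := hσE w
  obtain ⟨r, hr⟩ := h.2.1
  -- the norm of a component
  have hRfix : σ (r * σ r * σ (σ r)) = r * σ r * σ (σ r) := by
    rw [map_mul, map_mul, hσ3]
    ring
  have hR : ∃ R : E, algebraMap E M R = r * σ r * σ (σ r) := ⟨⟨_, hfix _ hRfix⟩, rfl⟩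
  obtain ⟨R, hR⟩ := hR
  have hdiv : ∀ y : M, σ y = y → ∃ f : E, algebraMap E M f = y := fun y hy => ⟨⟨y, hfix y hy⟩, rfl⟩
  refine sq_of_cmp σ hW hσW h ?_ ?_ ?_
  · have h1 := rh_cmp σ hσ3 (one_pow 3) (map_one σ) δ
    have h2 := PA_cmp σ (one_pow 3) h
    have h3 := N_cmp σ (one_pow 3) hr
    set y := cmp σ 1 (one_pow 3) δ
    obtain ⟨f0, e0⟩ := hdiv y.a (congrArg Cb.a h1)
    obtain ⟨f1, e1⟩ := hdiv y.b (by
      have := congrArg Cb.b h1
      rwa [rh_b, one_mul] at this)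
    obtain ⟨f2, e2⟩ := hdiv y.c (by
      have := congrArg Cb.c h1
      rwa [rh_c, one_pow, one_mul] at this)
    have hy : y = Cb.map (algebraMap E M) ⟨f0, f1, f2⟩ := by
      ext
      · exact e0.symm
      · exact e1.symm
      · exact e2.symm
    rw [hy] at h2 h3 ⊢
    rw [Cb.N_map, ← hR, ← map_pow] at h3
    obtain ⟨s, hs⟩ := comp_zero hM h2 ((algebraMap E M).injective h3)
    exact ⟨Cb.map (algebraMap E M) s, by rw [hs, map_mul]⟩
  · -- `u = W`: coefficients in `z ^ 2`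
    have h1 := rh_cmp σ hσ3 hW3 hσW δ
    have h2 := PA_cmp σ hW3 h
    have h3 := N_cmp σ hW3 hr
    set y := cmp σ W hW3 δ
    have hb := congrArg Cb.b h1
    have hc := congrArg Cb.c h1
    rw [rh_b] at hb
    rw [rh_c] at hc
    obtain ⟨f0, e0⟩ := hdiv y.a (congrArg Cb.a h1)
    obtain ⟨f1, e1⟩ := hdiv (y.b / z ^ 2) (by
      rw [map_div₀, map_pow, hσz, div_eq_div_iff (pow_ne_zero _ (mul_ne_zero hW0 hz0))
        (pow_ne_zero _ hz0)]
      conv_rhs => rw [← hb]
      linear_combination (-(σ y.b) * z ^ 2) * hW3)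
    obtain ⟨f2, e2⟩ := hdiv (y.c / (z ^ 2) ^ 2) (by
      rw [map_div₀, map_pow, map_pow, hσz, div_eq_div_iff (pow_ne_zero _ (pow_ne_zero _
        (mul_ne_zero hW0 hz0))) (pow_ne_zero _ (pow_ne_zero _ hz0))]
      conv_rhs => rw [← hc]
      linear_combination (-(σ y.c) * z ^ 4 * (W ^ 3 + 1)) * hW3)
    have hy : y = ⟨algebraMap E M f0, algebraMap E M f1 * z ^ 2, algebraMap E M f2 * (z ^ 2) ^ 2⟩ := by
      ext
      · exact e0.symm
      · change y.b = _ * _
        rw [e1]; field_simp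
      · change y.c = _ * _
        rw [e2]; field_simp
    rw [hy] at h2 h3 ⊢
    rw [← hR] at h3
    refine twist_sq (w := w ^ 2) ?_ ?_ hM f0 f1 f2 R h2 h3
    · linear_combination (w ^ 2 - w + 1) * hw
    · rw [map_pow, ← pow_mul, mul_comm 2 3, pow_mul, hz]
      rfl
  · -- `u = W ^ 2`: coefficients in `z`
    have hσW2 : σ (W ^ 2) = W ^ 2 := by rw [map_pow, hσW]
    have h1 := rh_cmp σ hσ3 (w23 hW) hσW2 δ
    have h2 := PA_cmp σ (w23 hW) h
    have h3 := N_cmp σ (w23 hW) hr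
    set y := cmp σ (W ^ 2) (w23 hW) δ
    have hb := congrArg Cb.b h1
    have hc := congrArg Cb.c h1
    rw [rh_b] at hb
    rw [rh_c] at hc
    obtain ⟨f0, e0⟩ := hdiv y.a (congrArg Cb.a h1)
    obtain ⟨f1, e1⟩ := hdiv (y.b / z) (by
      rw [map_div₀, hσz, div_eq_div_iff (mul_ne_zero hW0 hz0) hz0]
      conv_rhs => rw [← hb]
      linear_combination (-(σ y.b) * z) * hW3)
    obtain ⟨f2, e2⟩ := hdiv (y.c / z ^ 2) (by
      rw [map_div₀, map_pow, hσz, div_eq_div_iff (pow_ne_zero _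
        (mul_ne_zero hW0 hz0)) (pow_ne_zero _ hz0)]
      conv_rhs => rw [← hc]
      linear_combination (-(σ y.c) * z ^ 2 * (W ^ 3 + 1)) * hW3)
    have hy : y = ⟨algebraMap E M f0, algebraMap E M f1 * z, algebraMap E M f2 * z ^ 2⟩ := by
      ext
      · exact e0.symm
      · change y.b = _ * _
        rw [e1]; field_simp
      · change y.c = _ * _
        rw [e2]; field_simp
    rw [hy] at h2 h3 ⊢
    rw [← hR] at h3
    exact twist_sq hw hz hM f0 f1 f2 R h2 h3

end Pool.Agent.K7.H73.NM
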