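import Pool.Agent.K7.H73.NM.M
import Pool.Agent.K7.H73.NM.J
import Pool.Agent.K7.H70.SM.D
import Pool.Agent.K7.H56.Core

/-!
# The value at one over the ninth cyclotomic field
-/

set_option autoImplicit false
set_option linter.unusedSectionVars false
set_option linter.style.haveILetI false

open Complex Filter Topology NumberField IsDedekindDomain
open scoped PeriodPair nonZeroDivisors Pointwise

namespace Pool.Agent.K7.H73.NM

open H667R3 Pool.Agent.Y696 Pool.Agent.W192.HK Pool.Agent.TH936.CM Pool.Agent.TH936.PU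
open Pool.Agent.R430
open Pool.Agent.K7.H56 (VV core3_true)
open Pool.Agent.K7.H70.AS (base0 Base gal1)
open Pool.Agent.K7.H70.SM (L_prod9 X9 X9_pos X9_neg rh_prim rh_mod abs_mod3)

section
variable {N : Type} [Field N] [NumberField N]

lemma cop_of_mod {I : Ideal (𝓞 N)} (h : Ideal.absNorm I % 3 = 1) :
    IsCoprime I (Ideal.span {((3 : ℕ) : 𝓞 N)}) := by
  rw [Ideal.isCoprime_iff_sup_eq, Ideal.eq_top_iff_one]
  have h1 : ((Ideal.absNorm I : ℕ) : 𝓞 N) ∈ I := Ideal.absNorm_mem I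
  have h2 : ((Ideal.absNorm I : ℕ) : 𝓞 N) = ((3 : ℕ) : 𝓞 N) * ((Ideal.absNorm I / 3 : ℕ) : 𝓞 N) + 1 := by
    rw [← Nat.cast_mul, ← Nat.cast_add_one]
    congr 1
    omega
  have h3 : (1 : 𝓞 N) = ((Ideal.absNorm I : ℕ) : 𝓞 N) -
      ((3 : ℕ) : 𝓞 N) * ((Ideal.absNorm I / 3 : ℕ) : 𝓞 N) := by
    rw [h2]
    ring
  rw [h3]
  exact Ideal.sub_mem _ (Ideal.mem_sup_left h1)
    (Ideal.mem_sup_right (Ideal.mul_mem_right _ _ (Ideal.mem_span_singleton_self _)))

lemma xk_eq {ω : 𝓞 N} (hω : ω ^ 2 + ω + 1 = 0) (i : ℕ) :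
    xk (N := N) (Pool.Agent.K7.H70.SM.rh ^ i) = X9 (N := N) i := by
  funext I
  by_cases h : IsCoprime I (Ideal.span {((3 : ℕ) : 𝓞 N)})
  · have h1 := abs_mod3 hω I h
    rw [X9_pos h]
    unfold xk ck
    rw [if_pos h1, ← pow_mul]
    congr 2
    omega
  · rw [X9_neg h]
    unfold xk
    rw [if_neg fun h1 => h (cop_of_mod h1)]

end

section
variable {E M : Type} [Field E] [NumberField E] [IsCyclotomicExtension {3} ℚ E]
  [Field M] [NumberField M] [IsCyclotomicExtension {9} ℚ M] [Algebra E M] [IsGalois E M]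

omit [IsGalois E M] in
lemma fr_EM : Module.finrank E M = 3 := by
  have h := Module.finrank_mul_finrank ℚ E M
  rw [fr_F, fr_M M] at h
  omega

omit [IsCyclotomicExtension {3} ℚ E] in
/-- a primitive ninth root of unity -/
lemma exists_z : ∃ z : 𝓞 M, IsPrimitiveRoot z 9 ∧ ∀ g : Gal(M/E), g • z = z → g = 1 := by
  have hzp : IsPrimitiveRoot (IsCyclotomicExtension.zeta 9 ℚ M) 9 :=
    IsCyclotomicExtension.zeta_spec 9 ℚ M
  refine ⟨hzp.toInteger, hzp.toInteger_isPrimitiveRoot, ?_⟩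
  intro g hg
  have h1 : g (IsCyclotomicExtension.zeta 9 ℚ M) = IsCyclotomicExtension.zeta 9 ℚ M :=
    congrArg (fun x : 𝓞 M => (x : M)) hg
  have : IsScalarTower ℚ E M := inferInstance
  have h2 : ((g : M →ₐ[E] M).restrictScalars ℚ) = AlgHom.id ℚ M := by
    refine (hzp.powerBasis ℚ).algHom_ext ?_
    rw [IsPrimitiveRoot.powerBasis_gen]
    exact h1
  ext x
  exact DFunLike.congr_fun h2 x

/-- the value at one, with the embedding through the third cyclotomic field -/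
theorem base9' (ι : Pool.Agent.Y688.RR →+* 𝓞 E) :
    Base ((algebraMap (𝓞 E) (𝓞 M)).comp ι) 3 := by
  intro F hF L Ω hC Γ _ v hv
  have h1 : Module.finrank E E = 1 := Module.finrank_self E
  have hU : Unr E E := by
    intro v₀ v hL _
    have h2 : v₀.asIdeal = v.asIdeal := hL.over
    have h3 : v.asIdeal = Ideal.map (algebraMap (𝓞 E) (𝓞 E)) v.asIdeal := (Ideal.map_id _).symm
    have h4 := Ideal.ramificationIdx'_map_self_eq_one (S := 𝓞 E) (p := v.asIdeal)
      (by rw [← h3]; exact v.isPrime.ne_top) (by rw [← h3]; exact v.ne_bot)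
    rw [← h3] at h4
    rw [h2]
    exact h4
  have hG : Gn E := Gn.of (F := E) (n := 0) (by rw [h1, pow_zero]) hU
  obtain ⟨f, f0, hf, -, -⟩ := core3_true E ι 1 (by rw [fr_F]) (by norm_num) hG.two 1 (X0 1) (X0_ic 1)
    odd_one
  have hvf := base0 core3_true h1 hU ι f hf L Ω hC Γ v hv
  have hne1 : Pool.Agent.K7.H70.SM.rh ^ 1 ≠ 1 := by
    rw [pow_one]
    exact rh_prim.ne_one (by norm_num)
  have hne2 : Pool.Agent.K7.H70.SM.rh ^ 2 ≠ 1 := rh_prim.pow_ne_one_of_pos_of_lt (by norm_num) (by norm_num)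
  obtain ⟨g1, hg1, hv1⟩ := exists_g (ζ := Pool.Agent.K7.H70.SM.rh ^ 1) (by rw [← pow_mul, mul_comm, pow_mul, Pool.Agent.K7.H70.SM.rh_cube, one_pow])
    hne1 ι
  obtain ⟨g2, hg2, hv2⟩ := exists_g (ζ := Pool.Agent.K7.H70.SM.rh ^ 2) (by rw [← pow_mul, mul_comm, pow_mul, Pool.Agent.K7.H70.SM.rh_cube, one_pow])
    hne2 ι
  obtain ⟨ω, hω⟩ := Pool.Agent.K7.H70.SM.exists_om ι
  rw [xk_eq hω] at hg1 hg2
  obtain ⟨z, hz, hgen⟩ := exists_z (E := E) (M := M)
  rw [pow_one] at hvf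
  rw [L_prod9 fr_EM hz hgen hF hf hg1 hg2, map_mul, map_mul, hvf, hv1 L Ω hC Γ v hv,
    hv2 L Ω hC Γ v hv, ← pow_two, ← pow_succ]

end

/-- the image of the Eisenstein integers -/
lemma iota_mem {M : Type} [Field M] [NumberField M] (ι : Pool.Agent.Y688.RR →+* 𝓞 M)
    {E : IntermediateField ℚ M} {w : E} (hw : w ^ 2 + w + 1 = 0) (x : Pool.Agent.Y688.RR) :
    ((ι x : 𝓞 M) : M) ∈ E := by
  have hwm : (⟨Pool.Agent.Y688.w, 0, 1, by simp⟩ : Pool.Agent.Y688.RR) ^ 2 +
      ⟨Pool.Agent.Y688.w, 0, 1, by simp⟩ + 1 = 0 := by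
    apply Subtype.ext
    have := Pool.Agent.Y688.w_sq
    push_cast
    linear_combination this
  set y : Pool.Agent.Y688.RR := ⟨Pool.Agent.Y688.w, 0, 1, by simp⟩ with hy
  have h1 : ((ι y : 𝓞 M) : M) ^ 2 + ((ι y : 𝓞 M) : M) + 1 = 0 := by
    have := congrArg (fun t : Pool.Agent.Y688.RR => ((ι t : 𝓞 M) : M)) hwm
    simpa using this
  have hw' : (w : M) ^ 2 + (w : M) + 1 = 0 := by
    have := congrArg (fun t : E => (t : M)) hw
    simpa using this
  have h2 : (((ι y : 𝓞 M) : M) - w) * (((ι y : 𝓞 M) : M) + 1 + w) = 0 := by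
    linear_combination h1 - hw'
  have hmem : ((ι y : 𝓞 M) : M) ∈ E := by
    rcases mul_eq_zero.1 h2 with h | h
    · have : ((ι y : 𝓞 M) : M) = w := sub_eq_zero.1 h
      rw [this]
      exact w.2
    · have : ((ι y : 𝓞 M) : M) = -(1 + (w : M)) := by linear_combination h
      rw [this]
      exact neg_mem (add_mem (one_mem _) w.2)
  obtain ⟨a, b, h⟩ := x.2
  have hx : x = (a : Pool.Agent.Y688.RR) + (b : Pool.Agent.Y688.RR) * y := by
    apply Subtype.ext
    push_cast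
    exact h
  rw [hx, map_add, map_mul, map_intCast, map_intCast]
  have : (((a : 𝓞 M) + (b : 𝓞 M) * ι y : 𝓞 M) : M) = (a : M) + (b : M) * ((ι y : 𝓞 M) : M) := by
    push_cast
    rfl
  rw [this]
  exact add_mem (intCast_mem _ _) (mul_mem (intCast_mem _ _) hmem)

/-- **the value at one over the ninth cyclotomic field** -/
theorem base9 (M : Type) [Field M] [NumberField M] [IsCyclotomicExtension {9} ℚ M]
    (ι : Pool.Agent.Y688.RR →+* 𝓞 M) : Base ι 3 := by
  obtain ⟨z0, σ, E, w, hE3, hw, -, -, -, -, -, -⟩ := exists_str M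
  have hgal : IsGalois ℚ M := IsCyclotomicExtension.isGalois {9} ℚ M
  let g : Pool.Agent.Y688.RR →+* E := ((algebraMap (𝓞 M) M).comp ι).codRestrict E
    (fun x => iota_mem ι hw x)
  have hint : ∀ x, g x ∈ integralClosure ℤ E := by
    intro x
    rw [mem_integralClosure_iff, ← isIntegral_algebraMap_iff (B := M)
      (FaithfulSMul.algebraMap_injective E M)]
    exact (ι x).isIntegral_coe
  let ι' : Pool.Agent.Y688.RR →+* 𝓞 E := g.codRestrict (integralClosure ℤ E) hint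
  have h1 : (algebraMap (𝓞 E) (𝓞 M)).comp ι' = ι := by
    ext x
    rfl
  rw [← h1]
  exact base9' ι'

end Pool.Agent.K7.H73.NM
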