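import Pool.Agent.K7.H73.NM.D

/-!
# Elements of `ℚ(w, ∛(2 w))` with even valuations
-/

set_option autoImplicit false
set_option linter.unusedSectionVars false

namespace Pool.Agent.K7.H73.NM

open IsDedekindDomain NumberField Module

section A
variable {F A : Type} [Field F] [NumberField F] [Field A] [NumberField A] [Algebra F A]
  {w : F} {θ : A}

/-- `η = (1 + θ) / (1 + w θ)` -/
def et1 (W θ : A) : A := -1 - 2 * W + W ^ 2 * θ - θ ^ 2

/-- `(1 + w θ) / (1 + w ^ 2 θ)` -/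
def et2 (W θ : A) : A := -1 - 2 * W + θ - W ^ 2 * θ ^ 2

theorem even_cls (h2 : finrank ℚ F = 2) (h3 : finrank F A = 3) (hw : w ^ 2 + w + 1 = 0)
    (hθ : θ ^ 3 = algebraMap F A (2 * w)) {δ : A} (hδ : δ ≠ 0)
    (hN : ∃ r : F, Algebra.norm F δ = r ^ 2)
    (hv : ∀ P : HeightOneSpectrum (𝓞 A), ∃ n : ℤ, P.valuation A δ = WithZero.exp (2 * n)) :
    ∃ (j k : Fin 2) (s : A), δ = et1 (algebraMap F A w) θ ^ (j : ℕ) *
      et2 (algebraMap F A w) θ ^ (k : ℕ) * s ^ 2 := by
  obtain ⟨W, T, hD, eW, eT⟩ := exists_DD h2 h3 hw hθ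
  have := hD.pid
  obtain ⟨x, y, hy, rfl⟩ := IsFractionRing.div_surjective (A := 𝓞 A) δ
  have hy0 : y ≠ 0 := nonZeroDivisors.ne_zero hy
  have hyX : (algebraMap (𝓞 A) A y) ≠ 0 := by simpa using hy0
  have hx0 : x ≠ 0 := by
    rintro rfl
    simp at hδ
  have hba : (algebraMap (𝓞 A) A (x * y)) = (algebraMap (𝓞 A) A x / algebraMap (𝓞 A) A y) *
      (algebraMap (𝓞 A) A y) ^ 2 := by
    rw [map_mul]
    field_simp
  obtain ⟨u, j, hw'⟩ := Pool.Agent.Y180.Cbrt.decomp (x * y) (mul_ne_zero hx0 hy0) (by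
    intro v
    rw [← HeightOneSpectrum.valuation_of_algebraMap (K := A)]
    change IsSquare (v.valuation A (algebraMap (𝓞 A) A (x * y)))
    rw [hba, map_mul, map_pow]
    obtain ⟨n, hn⟩ := hv v
    rw [hn]
    refine IsSquare.mul ⟨WithZero.exp n, ?_⟩ (IsSquare.sq _)
    rw [← WithZero.exp_add]
    congr 1
    ring)
  obtain ⟨a, b, c, s, hs⟩ := hD.units u
  have e1 : algebraMap (𝓞 A) A ((eta1 hD : (𝓞 A)ˣ) : 𝓞 A) = et1 (algebraMap F A w) θ := by
    show algebraMap (𝓞 A) A (-1 - 2 * W + W ^ 2 * T - T ^ 2) = _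
    unfold et1
    simp only [map_sub, map_add, map_neg, map_one, map_mul, map_pow, eW, eT, map_ofNat]
  have e2 : algebraMap (𝓞 A) A ((eta2 hD : (𝓞 A)ˣ) : 𝓞 A) = et2 (algebraMap F A w) θ := by
    show algebraMap (𝓞 A) A (-1 - 2 * W + T - W ^ 2 * T ^ 2) = _
    unfold et2
    simp only [map_sub, map_add, map_neg, map_one, map_mul, map_pow, eW, eT, map_ofNat]
  have eu : algebraMap (𝓞 A) A (u : 𝓞 A) = (-1) ^ (a : ℕ) * et1 (algebraMap F A w) θ ^ (b : ℕ) *
      et2 (algebraMap F A w) θ ^ (c : ℕ) * (algebraMap (𝓞 A) A (s : 𝓞 A)) ^ 2 := by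
    rw [hs]
    unfold pr
    simp only [Units.val_mul, Units.val_pow_eq_pow_val, map_mul, map_pow, e1, e2, Units.val_neg,
      Units.val_one, map_neg, map_one]
  set q : A := algebraMap (𝓞 A) A s * algebraMap (𝓞 A) A j / algebraMap (𝓞 A) A y with hq
  have hδq : algebraMap (𝓞 A) A x / algebraMap (𝓞 A) A y = (-1) ^ (a : ℕ) *
      (et1 (algebraMap F A w) θ ^ (b : ℕ) * et2 (algebraMap F A w) θ ^ (c : ℕ) * q ^ 2) := by
    have h5 : algebraMap (𝓞 A) A x * algebraMap (𝓞 A) A y =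
        algebraMap (𝓞 A) A u * (algebraMap (𝓞 A) A j) ^ 2 := by
      rw [← map_mul, hw', map_mul, map_pow]
    rw [hq, div_eq_iff hyX, div_pow, mul_pow]
    rw [eu] at h5
    field_simp
    linear_combination h5
  have hq0 : q ≠ 0 := by
    intro h0
    apply hδ
    rw [hδq, h0]
    ring
  refine ⟨b, c, q, ?_⟩
  have hw3 : w ^ 3 = 1 := by linear_combination (w - 1) * hw
  have n1 : Algebra.norm F (et1 (algebraMap F A w) θ) = 1 := by
    have e : et1 (algebraMap F A w) θ = algebraMap F A (-1 - 2 * w) + algebraMap F A (w ^ 2) * θ +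
        algebraMap F A (-1) * θ ^ 2 := by
      unfold et1
      simp only [map_sub, map_neg, map_one, map_mul, map_pow, map_ofNat]
      ring
    rw [e, normA h2 h3 hw hθ]
    linear_combination (-2 - 4 * w - 10 * w ^ 2 - 2 * w ^ 4 + 2 * w ^ 5) * hw
  have n2 : Algebra.norm F (et2 (algebraMap F A w) θ) = 1 := by
    have e : et2 (algebraMap F A w) θ = algebraMap F A (-1 - 2 * w) + algebraMap F A 1 * θ +
        algebraMap F A (-w ^ 2) * θ ^ 2 := by
      unfold et2
      simp only [map_sub, map_neg, map_one, map_mul, map_pow, map_ofNat]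
      ring
    rw [e, normA h2 h3 hw hθ]
    linear_combination (-2 - 2 * w - 8 * w ^ 2 - 4 * w ^ 3 + 4 * w ^ 5 - 4 * w ^ 6) * hw
  have n3 : Algebra.norm F (-1 : A) = -1 := by
    have := Algebra.norm_algebraMap (S := A) (-1 : F)
    rw [h3] at this
    have e : ((-1 : F)) ^ 3 = -1 := by norm_num
    rw [e] at this
    simpa using this
  have ha : a = 0 := by
    by_contra hne
    have ha1 : a = 1 := by omega
    obtain ⟨r, hr⟩ := hN
    rw [hδq, ha1, map_mul, map_mul, map_mul, map_pow, map_pow, map_pow, map_pow, n1, n2, n3] at hr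
    have hq1 : Algebra.norm F q ≠ 0 := Algebra.norm_ne_zero_iff.2 hq0
    apply no_sq h2 hw (r / Algebra.norm F q)
    rw [div_pow, div_eq_iff (pow_ne_zero 2 hq1), ← hr]
    simp
  rw [hδq, ha]
  simp

end A

end Pool.Agent.K7.H73.NM
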