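import Pool.Agent.K7.H73.NM.F
import Pool.Agent.K7.H73.NM.E
import Pool.Agent.Y696.Bld

/-!
# Even valuations in a cyclic cubic field
-/

set_option autoImplicit false
set_option linter.unusedSectionVars false

namespace Pool.Agent.K7.H73.NM

open IsDedekindDomain NumberField WithZero Pool.Agent.Y696

section dens
variable {F A : Type} [Field F] [NumberField F] [Field A] [NumberField A] [Algebra F A]

lemma ne_comp {v w : HeightOneSpectrum (𝓞 A)} (h : v ≠ w) (n : ℕ) :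
    IsCoprime (v.asIdeal ^ n) (w.asIdeal ^ n) := by
  have h1 : v.asIdeal.IsMaximal := v.isPrime.isMaximal v.ne_bot
  have h2 : w.asIdeal.IsMaximal := w.isPrime.isMaximal w.ne_bot
  have h3 : v.asIdeal ≠ w.asIdeal := fun h' => h (HeightOneSpectrum.ext h')
  exact (Ideal.isCoprime_of_isMaximal h3).pow

lemma val_le_pow (v : HeightOneSpectrum (𝓞 A)) (n : ℕ) (x : 𝓞 A) :
    x ∈ v.asIdeal ^ n ↔ v.valuation A (x : A) ≤ exp (-(n : ℤ)) := by
  rw [← HeightOneSpectrum.intValuation_le_pow_iff_mem]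
  change _ ↔ v.valuation A (algebraMap (𝓞 A) A x) ≤ _
  rw [HeightOneSpectrum.valuation_of_algebraMap]

lemma dens1 (τ : A ≃+* A) (hτ3 : ∀ x, τ (τ (τ x)) = x)
    (hfix : ∀ x, τ x = x → ∃ f : F, algebraMap F A f = x) (z : 𝓞 A) (s : 𝓞 A ≃+* 𝓞 A)
    (hsx : ∀ x : 𝓞 A, ((s x : 𝓞 A) : A) = τ (x : A)) :
    ∃ f : 𝓞 F, algebraMap F A (f : F) = ((z + s z + s (s z) : 𝓞 A) : A) := by
  have htf : τ ((z + s z + s (s z) : 𝓞 A) : A) = ((z + s z + s (s z) : 𝓞 A) : A) := by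
    have : s (s (s z)) = z := by
      apply RingOfIntegers.ext
      rw [hsx, hsx, hsx, hτ3]
    rw [← hsx, map_add, map_add, this]
    congr 1
    ring
  obtain ⟨f, hf⟩ := hfix _ htf
  have hfi : IsIntegral ℤ f := by
    have : IsIntegral ℤ (algebraMap F A f) := by
      rw [hf]
      exact RingOfIntegers.isIntegral_coe _
    exact (isIntegral_algebraMap_iff (algebraMap F A).injective).1 this
  exact ⟨⟨f, hfi⟩, hf⟩

lemma dens2 (τ : A ≃+* A) (s : 𝓞 A ≃+* 𝓞 A) (hsx : ∀ x : 𝓞 A, ((s x : 𝓞 A) : A) = τ (x : A))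
    {P P' P'' : HeightOneSpectrum (𝓞 A)}
    (hP' : ∀ x, P.valuation A (τ x) = P'.valuation A x)
    (hP'' : ∀ x, P.valuation A (τ (τ x)) = P''.valuation A x) (y i j : 𝓞 A) (hij : i + j = 1)
    (n : ℕ) (hi : i ∈ P.asIdeal ^ n) (hj1 : j ∈ P'.asIdeal ^ n) (hj2 : j ∈ P''.asIdeal ^ n) :
    P.valuation A ((y : A) - ((y * j + s (y * j) + s (s (y * j)) : 𝓞 A) : A)) ≤
      exp (-(n : ℤ)) := by
  have e : (y : A) - ((y * j + s (y * j) + s (s (y * j)) : 𝓞 A) : A) =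
      ((y * i : 𝓞 A) : A) - (τ ((y * j : 𝓞 A) : A) + τ (τ ((y * j : 𝓞 A) : A))) := by
    rw [← hsx, ← hsx]
    have hij' : (i : A) + (j : A) = 1 := by
      have h6 := congrArg (fun z : 𝓞 A => (z : A)) hij
      simpa using h6
    simp only [map_add, map_mul]
    linear_combination (-(y : A)) * hij'
  rw [e]
  refine Valuation.map_sub_le _ ?_ (Valuation.map_add_le _ ?_ ?_)
  · rw [← val_le_pow]
    exact Ideal.mul_mem_left _ _ hi
  · rw [hP', ← val_le_pow]
    exact Ideal.mul_mem_left _ _ hj1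
  · rw [hP'', ← val_le_pow]
    exact Ideal.mul_mem_left _ _ hj2


lemma cop1 {P P' : HeightOneSpectrum (𝓞 A)} (h1 : P ≠ P') (n : ℕ) :
    ∃ i j : 𝓞 A, i + j = 1 ∧ i ∈ P.asIdeal ^ n ∧ j ∈ P'.asIdeal ^ n := by
  have h := ne_comp h1 n
  rw [Ideal.isCoprime_iff_exists] at h
  obtain ⟨i, hi, j, hj, hij⟩ := h
  exact ⟨i, j, hij, hi, hj⟩

lemma cop {P P' P'' : HeightOneSpectrum (𝓞 A)} (h1 : P ≠ P') (h2 : P ≠ P'') (n : ℕ) :
    ∃ i j : 𝓞 A, i + j = 1 ∧ i ∈ P.asIdeal ^ n ∧ j ∈ P'.asIdeal ^ n ∧ j ∈ P''.asIdeal ^ n := by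
  obtain ⟨i, j, hij, hi, hj⟩ := cop1 h1 n
  obtain ⟨k, l, hkl, hk, hl⟩ := cop1 h2 n
  refine ⟨i + j * k, j * l, ?_, ?_, ?_, ?_⟩
  · linear_combination hij + j * hkl
  · exact add_mem hi (Ideal.mul_mem_left _ _ hk)
  · exact Ideal.mul_mem_right _ _ hj
  · exact Ideal.mul_mem_left _ _ hl

/-- density of the fixed field at a prime not fixed by the automorphism -/
theorem dens (τ : A ≃+* A) (hτ3 : ∀ x, τ (τ (τ x)) = x)
    (hfix : ∀ x, τ x = x → ∃ f : F, algebraMap F A f = x)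
    {P P' P'' : HeightOneSpectrum (𝓞 A)} (h1 : P ≠ P') (h2 : P ≠ P'')
    (hP' : ∀ x, P.valuation A (τ x) = P'.valuation A x)
    (hP'' : ∀ x, P.valuation A (τ (τ x)) = P''.valuation A x) (y : 𝓞 A) (n : ℕ) :
    ∃ f : 𝓞 F, P.valuation A ((y : A) - algebraMap F A (f : F)) ≤ exp (-(n : ℤ)) := by
  obtain ⟨i, j, hij, hi, hj1, hj2⟩ := cop h1 h2 n
  have hsx : ∀ x : 𝓞 A, ((RingOfIntegers.mapRingEquiv τ x : 𝓞 A) : A) = τ (x : A) := fun x => rfl
  obtain ⟨f, hf⟩ := dens1 τ hτ3 hfix (y * j) (RingOfIntegers.mapRingEquiv τ) hsx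
  refine ⟨f, ?_⟩
  rw [hf]
  exact dens2 τ _ hsx hP' hP'' y i j hij n hi hj1 hj2

end dens

section loc
variable {F : Type} [Field F] [NumberField F] [IsCyclotomicExtension {3} ℚ F] {w : F}

lemma le_of_lt_one {v : Valuation F ℤᵐ⁰} {z : F} (hz : v z < 1) : v z ≤ exp (-1 : ℤ) := by
  by_cases h0 : z = 0
  · rw [h0, map_zero]; exact zero_le
  · obtain ⟨m, hm⟩ : ∃ m : ℤ, v z = exp m := ⟨log (v z), (exp_log ((v.ne_zero_iff).2 h0)).symm⟩
    rw [hm, ← exp_zero, exp_lt_exp] at hz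
    rw [hm, exp_le_exp]
    omega

lemma cube_le {v : Valuation F ℤᵐ⁰} {z : F} (hz : v (z ^ 3) < 1) : v (z ^ 3) ≤ exp (-3 : ℤ) := by
  have h1 := le_of_lt_one (lt_of_cube hz)
  rw [map_pow]
  refine (pow_le_pow_left₀ zero_le h1 3).trans ?_
  rw [← exp_nsmul, exp_le_exp]
  simp

lemma no_two (hw : w ^ 2 + w + 1 = 0) (v : HeightOneSpectrum (𝓞 F))
    (h2 : ((2 : ℕ) : 𝓞 F) ∈ v.asIdeal) (f : F) :
    ¬ v.valuation F (f ^ 3 - 2 * w) ≤ exp (-2 : ℤ) := by
  intro h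
  have hw1 : v.valuation F w = 1 := v_cube_one (w3 hw)
  have h3 : v.valuation F (2 * w) = exp (-1 : ℤ) := by
    rw [map_mul, hw1, mul_one]
    exact_mod_cast val_prime_F Nat.prime_two (by norm_num) v h2
  have h4 : v.valuation F (f ^ 3) < 1 := by
    rw [show f ^ 3 = (f ^ 3 - 2 * w) + 2 * w by ring]
    refine Valuation.map_add_lt _ (lt_of_le_of_lt h ?_) ?_
    · rw [← exp_zero, exp_lt_exp]; omega
    · rw [h3, ← exp_zero, exp_lt_exp]; omega
  have h5 := cube_le h4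
  have h6 : v.valuation F (2 * w) ≤ exp (-2 : ℤ) := by
    rw [show 2 * w = f ^ 3 - (f ^ 3 - 2 * w) by ring]
    exact Valuation.map_sub_le _ (h5.trans (by rw [exp_le_exp]; omega)) h
  rw [h3, exp_le_exp] at h6
  omega

lemma no_three (hw : w ^ 2 + w + 1 = 0) (v : HeightOneSpectrum (𝓞 F))
    (h3 : (3 : 𝓞 F) ∈ v.asIdeal) (f : F) :
    ¬ v.valuation F (f ^ 3 - 2 * w) ≤ exp (-2 : ℤ) := by
  intro h
  have hw1 : v.valuation F w = 1 := v_cube_one (w3 hw)
  have h4 : v.valuation F 3 = exp (-2 : ℤ) := val_three_F v h3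
  have h5 : v.valuation F (1 + 2 * w) = exp (-1 : ℤ) := by
    apply pow_inj_of (e := 2) (by norm_num)
    rw [← map_pow, show (1 + 2 * w) ^ 2 = -3 by linear_combination 4 * hw, Valuation.map_neg, h4,
      ← exp_nsmul]
    rfl
  have h2 := v_two_le (v.valuation F)
  have hf3 : v.valuation F (f ^ 3) ≤ 1 := by
    rw [show f ^ 3 = (f ^ 3 - 2 * w) + 2 * w by ring]
    refine Valuation.map_add_le _ (h.trans ?_) ?_
    · rw [← exp_zero, exp_le_exp]; omega
    · exact vm h2 hw1.le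
  have hf : v.valuation F f ≤ 1 := by
    rw [map_pow] at hf3
    exact (pow_le_one_iff (by norm_num)).1 hf3
  have hg : v.valuation F (f + 1) ≤ 1 := Valuation.map_add_le _ hf (by rw [map_one])
  have hg2 : v.valuation F ((f + 1) ^ 2 - (f + 1)) ≤ 1 := by
    refine Valuation.map_sub_le _ ?_ hg
    rw [map_pow]
    exact pow_le_one' hg 2
  have h6 : v.valuation F (3 * ((f + 1) ^ 2 - (f + 1))) ≤ exp (-2 : ℤ) := by
    rw [map_mul, h4]
    exact mul_le_of_le_one_right' hg2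
  have h7 : v.valuation F ((f + 1) ^ 3) < 1 := by
    rw [show (f + 1) ^ 3 = (f ^ 3 - 2 * w) + 3 * ((f + 1) ^ 2 - (f + 1)) + (1 + 2 * w) by ring]
    refine Valuation.map_add_lt _ (Valuation.map_add_lt _ (lt_of_le_of_lt h ?_)
      (lt_of_le_of_lt h6 ?_)) ?_
    · rw [← exp_zero, exp_lt_exp]; omega
    · rw [← exp_zero, exp_lt_exp]; omega
    · rw [h5, ← exp_zero, exp_lt_exp]; omega
  have h8 := cube_le h7
  have h9 : v.valuation F (1 + 2 * w) ≤ exp (-2 : ℤ) := by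
    rw [show 1 + 2 * w = (f + 1) ^ 3 - 3 * ((f + 1) ^ 2 - (f + 1)) - (f ^ 3 - 2 * w) by ring]
    exact Valuation.map_sub_le _ (Valuation.map_sub_le _ (h8.trans (by rw [exp_le_exp]; omega)) h6) h
  rw [h5, exp_le_exp] at h9
  omega

variable {M A : Type} [Field M] [NumberField M] [Field A] [NumberField A] [Algebra F A]
  [Algebra F M]

/-- the restriction of a prime -/
noncomputable def und (P : HeightOneSpectrum (𝓞 A)) : HeightOneSpectrum (𝓞 F) :=
  ⟨P.asIdeal.under (𝓞 F), inferInstance, by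
    intro h
    exact P.ne_bot (Ideal.eq_bot_of_comap_eq_bot h)⟩

lemma und_lies (P : HeightOneSpectrum (𝓞 A)) : P.asIdeal.LiesOver (und (F := F) P).asIdeal := ⟨rfl⟩

lemma pow_le_inj {a b : ℤᵐ⁰} {e : ℕ} (he : e ≠ 0) (h : a ^ e ≤ b ^ e) : a ≤ b :=
  (pow_le_pow_iff_left₀ zero_le zero_le he).1 h

/-- the approximation of `θ` -/
lemma approx {θ : A} (hw : w ^ 2 + w + 1 = 0) (hθ : θ ^ 3 = algebraMap F A (2 * w))
    (P : HeightOneSpectrum (𝓞 A))
    (hd : ∀ (y : 𝓞 A) (n : ℕ), ∃ f : 𝓞 F,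
      P.valuation A ((y : A) - algebraMap F A (f : F)) ≤ exp (-(n : ℤ))) (n : ℕ) :
    ∃ f : 𝓞 F, P.valuation A (θ - algebraMap F A (f : F)) ≤ exp (-(n : ℤ)) ∧
      (und (F := F) P).valuation F ((f : F) ^ 3 - 2 * w) ≤ exp (-(n : ℤ)) := by
  have hPF : ∀ x, P.valuation A (algebraMap F A x) = (und (F := F) P).valuation F x ^
      ((und (F := F) P).asIdeal.ramificationIdx' P.asIdeal) := fun x =>
    have := und_lies (F := F) P
    (HeightOneSpectrum.valuation_liesOver A (und (F := F) P) P x).symm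
  have he0 : (und (F := F) P).asIdeal.ramificationIdx' P.asIdeal ≠ 0 := ne_zero_ram (und_lies P)
  set e := (und (F := F) P).asIdeal.ramificationIdx' P.asIdeal
  have hwi : IsIntegral ℤ w := by
    refine IsIntegral.of_pow (n := 3) (by norm_num) ?_
    rw [w3 hw]
    exact isIntegral_one
  have hθi : IsIntegral ℤ θ := by
    refine IsIntegral.of_pow (n := 3) (by norm_num) ?_
    rw [hθ]
    refine IsIntegral.map (Algebra.ofId F A |>.restrictScalars ℤ) ?_
    exact (isIntegral_natCast (a := 2)).mul hwi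
  obtain ⟨f, hf⟩ := hd ⟨θ, hθi⟩ (e * n)
  have hf' : P.valuation A (θ - algebraMap F A (f : F)) ≤ exp (-((e * n : ℕ) : ℤ)) := hf
  have hen : (n : ℤ) ≤ ((e * n : ℕ) : ℤ) := by
    have : 1 ≤ e := Nat.one_le_iff_ne_zero.2 he0
    exact_mod_cast Nat.le_mul_of_pos_left n this
  refine ⟨f, hf'.trans (by rw [exp_le_exp]; omega), ?_⟩
  have hvf : P.valuation A (algebraMap F A (f : F)) ≤ 1 := by
    rw [hPF]
    exact pow_le_one' (HeightOneSpectrum.valuation_le_one _ f) e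
  have hvθ : P.valuation A θ ≤ 1 := HeightOneSpectrum.valuation_le_one P (⟨θ, hθi⟩ : 𝓞 A)
  apply pow_le_inj he0
  rw [← hPF]
  have e1 : algebraMap F A ((f : F) ^ 3 - 2 * w) = -((θ - algebraMap F A (f : F)) *
      (θ ^ 2 + θ * algebraMap F A (f : F) + algebraMap F A (f : F) ^ 2)) := by
    rw [map_sub, map_pow, ← hθ]
    ring
  rw [e1, Valuation.map_neg, map_mul]
  have e2 : exp (-(n : ℤ)) ^ e = exp (-((e * n : ℕ) : ℤ)) := by
    rw [← exp_nsmul]
    congr 1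
    simp
  rw [e2]
  refine (mul_le_of_le_one_right' ?_).trans hf'
  refine Valuation.map_add_le _ (Valuation.map_add_le _ ?_ ?_) ?_
  · rw [map_pow]; exact pow_le_one' hvθ 2
  · exact vm hvθ hvf
  · rw [map_pow]; exact pow_le_one' hvf 2

omit [NumberField F] [IsCyclotomicExtension {3} ℚ F] in
lemma mem_und {P : HeightOneSpectrum (𝓞 A)} (n : ℕ) :
    (n : 𝓞 F) ∈ (und (F := F) P).asIdeal ↔ (n : 𝓞 A) ∈ P.asIdeal := by
  change _ ∈ P.asIdeal.comap _ ↔ _
  rw [Ideal.mem_comap, map_natCast]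

lemma mem_above {v₀ : HeightOneSpectrum (𝓞 F)} {Q : HeightOneSpectrum (𝓞 M)}
    (hQ : Q.asIdeal.LiesOver v₀.asIdeal) (n : ℕ) :
    (n : 𝓞 F) ∈ v₀.asIdeal ↔ (n : 𝓞 M) ∈ Q.asIdeal := by
  rw [hQ.over, Ideal.under_def, Ideal.mem_comap, map_natCast]

lemma not_six {v : HeightOneSpectrum (𝓞 F)} (h2 : ((2 : ℕ) : 𝓞 F) ∉ v.asIdeal)
    (h3 : ((3 : ℕ) : 𝓞 F) ∉ v.asIdeal) : ((6 : ℕ) : 𝓞 F) ∉ v.asIdeal := by
  intro h6
  have : ((6 : ℕ) : 𝓞 F) = ((2 : ℕ) : 𝓞 F) * ((3 : ℕ) : 𝓞 F) := by norm_num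
  rw [this] at h6
  rcases v.isPrime.mem_or_mem h6 with h | h
  · exact h2 h
  · exact h3 h

/-- the local statement at a prime not fixed by the automorphism -/
theorem even_loc {θ : A} {z : M} (hw : w ^ 2 + w + 1 = 0) (hθ : θ ^ 3 = algebraMap F A (2 * w))
    (hz : z ^ 3 = algebraMap F M w)
    (hM : ∀ p : ℕ, p.Prime → p ≠ 3 → ∀ Q : HeightOneSpectrum (𝓞 M), (p : 𝓞 M) ∈ Q.asIdeal →
      Q.valuation M (p : M) = exp (-1 : ℤ))
    (P : HeightOneSpectrum (𝓞 A))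
    (hd : ∀ (y : 𝓞 A) (n : ℕ), ∃ f : 𝓞 F,
      P.valuation A ((y : A) - algebraMap F A (f : F)) ≤ exp (-(n : ℤ))) (f0 f1 f2 : F)
    (h0 : algebraMap F A f0 + algebraMap F A f1 * θ + algebraMap F A f2 * θ ^ 2 ≠ 0)
    (hev : EvA (⟨algebraMap F M f0, algebraMap F M f1 * z, algebraMap F M f2 * z ^ 2⟩ : Cb M)) :
    ∃ m : ℤ, P.valuation A (algebraMap F A f0 + algebraMap F A f1 * θ +
      algebraMap F A f2 * θ ^ 2) = exp (2 * m) := by
  have hap := approx hw hθ P hd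
  have h2 : ((2 : ℕ) : 𝓞 F) ∉ (und (F := F) P).asIdeal := by
    intro h
    obtain ⟨f, -, hf⟩ := hap 2
    exact no_two hw _ h _ hf
  have h3 : ((3 : ℕ) : 𝓞 F) ∉ (und (F := F) P).asIdeal := by
    intro h
    obtain ⟨f, -, hf⟩ := hap 2
    exact no_three hw _ (by exact_mod_cast h) _ hf
  have hPF : ∀ x, P.valuation A (algebraMap F A x) = (und (F := F) P).valuation F x ^
      ((und (F := F) P).asIdeal.ramificationIdx' P.asIdeal) := fun x =>
    have := und_lies (F := F) P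
    (HeightOneSpectrum.valuation_liesOver A (und (F := F) P) P x).symm
  set e := (und (F := F) P).asIdeal.ramificationIdx' P.asIdeal
  obtain ⟨Q, hQ⟩ := exists_above (K := M) (und (F := F) P)
  have hQ6 : ((6 : ℕ) : 𝓞 M) ∉ Q.asIdeal := by
    rw [← mem_above hQ]
    exact not_six h2 h3
  -- `Q` is unramified
  obtain ⟨p, hp, hpQ⟩ := exists_prime_mem Q
  have hpv : (p : 𝓞 F) ∈ (und (F := F) P).asIdeal := (mem_above hQ p).2 hpQ
  have hp3 : p ≠ 3 := by
    rintro rfl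
    exact h3 hpv
  have hQF' : ∀ x, Q.valuation M (algebraMap F M x) = (und (F := F) P).valuation F x ^
      ((und (F := F) P).asIdeal.ramificationIdx' Q.asIdeal) := fun x =>
    (HeightOneSpectrum.valuation_liesOver M (und (F := F) P) Q x).symm
  have he1 : (und (F := F) P).asIdeal.ramificationIdx' Q.asIdeal = 1 := by
    have e1 := hQF' (p : F)
    rw [map_natCast, hM p hp hp3 Q hpQ, val_prime_F hp hp3 _ hpv, ← exp_nsmul] at e1
    have e2 := exp_injective e1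
    simp only [nsmul_eq_mul] at e2
    omega
  have hQF : ∀ x, Q.valuation M (algebraMap F M x) = (und (F := F) P).valuation F x := fun x => by
    rw [hQF' x, he1, pow_one]
  obtain ⟨nQ, hnQ⟩ := hev Q hQ6
  obtain ⟨kd, hkd⟩ := exp_lb (P.valuation A) h0
  obtain ⟨kb, hkb⟩ := exp_bd (P.valuation A) (algebraMap F A f1)
  obtain ⟨kc, hkc⟩ := exp_bd (P.valuation A) (algebraMap F A f2)
  obtain ⟨f, hf1, hf2⟩ := hap (nQ + kd + kb + kc + 1)
  have hz9 : z ^ 9 = 1 := by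
    rw [show z ^ 9 = (z ^ 3) ^ 3 by ring, hz, ← map_pow, w3 hw, map_one]
  have hz0 : z ≠ 0 := by
    rintro rfl
    norm_num at hz9
  have hvw : (und (F := F) P).valuation F w = 1 := v_cube_one (w3 hw)
  obtain ⟨m, hm⟩ := hnQ (algebraMap F M (f : F) / z) (by
    have e1 : (algebraMap F M (f : F) / z) ^ 3 - 2 = algebraMap F M (((f : F) ^ 3 - 2 * w) / w) := by
      have hw0 : w ≠ 0 := by
        rintro rfl
        norm_num at hw
      rw [div_pow, hz, ← map_pow, ← map_div₀, sub_div, map_sub, mul_div_assoc, div_self hw0, mul_one,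
        map_ofNat]
    rw [e1, hQF, map_div₀, hvw, div_one]
    exact hf2.trans (by rw [exp_le_exp]; push_cast; omega))
  have e2 : (⟨algebraMap F M f0, algebraMap F M f1 * z, algebraMap F M f2 * z ^ 2⟩ : Cb M).ev
      (algebraMap F M (f : F) / z) = algebraMap F M (f0 + f1 * (f : F) + f2 * (f : F) ^ 2) := by
    simp only [Cb.ev, map_add, map_mul, map_pow]
    field_simp
  rw [e2, hQF] at hm
  -- comparison at `P`
  have hvf : P.valuation A (algebraMap F A (f : F)) ≤ 1 := by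
    rw [hPF]
    exact pow_le_one' (HeightOneSpectrum.valuation_le_one _ f) e
  have hvθ : P.valuation A θ ≤ 1 := by
    have h5 : P.valuation A (θ ^ 3) ≤ 1 := by
      rw [hθ, hPF, map_mul, hvw, mul_one]
      exact pow_le_one' (v_two_le _) e
    rw [map_pow] at h5
    exact (pow_le_one_iff (by norm_num)).1 h5
  have e3 : (algebraMap F A f0 + algebraMap F A f1 * θ + algebraMap F A f2 * θ ^ 2) -
      algebraMap F A (f0 + f1 * (f : F) + f2 * (f : F) ^ 2) = (θ - algebraMap F A (f : F)) *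
      (algebraMap F A f1 + algebraMap F A f2 * (θ + algebraMap F A (f : F))) := by
    simp only [map_add, map_mul, map_pow]
    ring
  have hlt : P.valuation A ((algebraMap F A f0 + algebraMap F A f1 * θ +
      algebraMap F A f2 * θ ^ 2) - algebraMap F A (f0 + f1 * (f : F) + f2 * (f : F) ^ 2)) <
      P.valuation A (algebraMap F A f0 + algebraMap F A f1 * θ + algebraMap F A f2 * θ ^ 2) := by
    rw [e3, map_mul]
    refine lt_of_lt_of_le ?_ hkd
    have h5 : P.valuation A (algebraMap F A f1 + algebraMap F A f2 *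
        (θ + algebraMap F A (f : F))) ≤ exp ((kb + kc : ℕ) : ℤ) := by
      refine Valuation.map_add_le _ (hkb.trans (by rw [exp_le_exp]; omega)) ?_
      rw [map_mul]
      exact (mul_le_of_le_one_right' (Valuation.map_add_le _ hvθ hvf)).trans
        (hkc.trans (by rw [exp_le_exp]; omega))
    refine lt_of_le_of_lt (mul_le_mul' hf1 h5) ?_
    rw [← exp_add, exp_lt_exp]
    push_cast
    omega
  have hfin := Valuation.map_eq_of_sub_lt (P.valuation A) (by
    rw [Valuation.map_sub_swap]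
    exact hlt)
  refine ⟨e * m, ?_⟩
  rw [← hfin, hPF, hm, ← exp_nsmul]
  congr 1
  simp only [nsmul_eq_mul]
  ring

/-- all the valuations are even -/
theorem even_glob {θ : A} {z : M} (hw : w ^ 2 + w + 1 = 0)
    (hθ : θ ^ 3 = algebraMap F A (2 * w)) (hz : z ^ 3 = algebraMap F M w)
    (hM : ∀ p : ℕ, p.Prime → p ≠ 3 → ∀ Q : HeightOneSpectrum (𝓞 M), (p : 𝓞 M) ∈ Q.asIdeal →
      Q.valuation M (p : M) = exp (-1 : ℤ))
    (τ : A ≃+* A) (hτ3 : ∀ x, τ (τ (τ x)) = x)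
    (hfix : ∀ x, τ x = x → ∃ f : F, algebraMap F A f = x) (f0 f1 f2 : F)
    (h0 : algebraMap F A f0 + algebraMap F A f1 * θ + algebraMap F A f2 * θ ^ 2 ≠ 0)
    (hN : ∃ r : A, (algebraMap F A f0 + algebraMap F A f1 * θ + algebraMap F A f2 * θ ^ 2) *
      τ (algebraMap F A f0 + algebraMap F A f1 * θ + algebraMap F A f2 * θ ^ 2) *
      τ (τ (algebraMap F A f0 + algebraMap F A f1 * θ + algebraMap F A f2 * θ ^ 2)) = r ^ 2)
    (hev : EvA (⟨algebraMap F M f0, algebraMap F M f1 * z, algebraMap F M f2 * z ^ 2⟩ : Cb M))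
    (P : HeightOneSpectrum (𝓞 A)) :
    ∃ m : ℤ, P.valuation A (algebraMap F A f0 + algebraMap F A f1 * θ +
      algebraMap F A f2 * θ ^ 2) = exp (2 * m) := by
  obtain ⟨P', hP'⟩ := val_aut τ P
  obtain ⟨P'', hP''⟩ := val_aut τ P'
  by_cases h1 : P = P'
  · subst h1
    set δ := algebraMap F A f0 + algebraMap F A f1 * θ + algebraMap F A f2 * θ ^ 2 with hδ
    obtain ⟨r, hr⟩ := hN
    have hr0 : r ≠ 0 := by
      rintro rfl
      have h5 : δ * τ δ * τ (τ δ) ≠ 0 := mul_ne_zero (mul_ne_zero h0 ((map_ne_zero _).2 h0))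
        ((map_ne_zero _).2 ((map_ne_zero _).2 h0))
      exact h5 (by rw [hr]; ring)
    obtain ⟨m, hm⟩ : ∃ m : ℤ, P.valuation A δ = exp m := ⟨_, (exp_log ((Valuation.ne_zero_iff _).2 h0)).symm⟩
    obtain ⟨k, hk⟩ : ∃ m : ℤ, P.valuation A r = exp m := ⟨_, (exp_log ((Valuation.ne_zero_iff _).2 hr0)).symm⟩
    have h5 := congrArg (P.valuation A) hr
    rw [map_mul, map_mul, hP', hP', hP', hm, map_pow, hk, ← exp_add, ← exp_add, ← exp_nsmul] at h5
    have h6 := exp_injective h5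
    simp only [nsmul_eq_mul] at h6
    push_cast at h6
    exact ⟨k - m, by rw [hm]; congr 1; linarith⟩
  · have h2 : P ≠ P'' := by
      intro h2
      apply h1
      have h5 : ∀ x, P.valuation A x = P'.valuation A x := by
        intro x
        conv_lhs => rw [← hτ3 x]
        rw [hP', hP'', ← h2, hP']
      apply HeightOneSpectrum.ext
      ext y
      rw [← HeightOneSpectrum.valuation_lt_one_iff_mem (K := A) P y,
        ← HeightOneSpectrum.valuation_lt_one_iff_mem (K := A) P' y, h5]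
    refine even_loc hw hθ hz hM P (fun y n => dens τ hτ3 hfix h1 h2 hP' (fun x => ?_) y n)
      f0 f1 f2 h0 hev
    rw [hP', hP'']

end loc

end Pool.Agent.K7.H73.NM
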