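import Pool.Agent.Y180.CbrtTwo

/-!
# The field `ℚ(w, ∛(2 w))`, `w` a third root of unity: basis, discriminant, norms
-/

set_option autoImplicit false
set_option linter.unusedSectionVars false

namespace Pool.Agent.K7.H73.NM

open IsDedekindDomain NumberField Module

lemma prim3 {F : Type} [Field F] [CharZero F] {w : F} (hw : w ^ 2 + w + 1 = 0) :
    IsPrimitiveRoot w 3 := by
  have h3 : w ^ 3 = 1 := by linear_combination (w - 1) * hw
  have h1 : w ≠ 1 := by
    rintro rfl
    norm_num at hw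
  have : Fact (Nat.Prime 3) := ⟨Nat.prime_three⟩
  have := orderOf_eq_prime h3 h1
  rw [← this]
  exact IsPrimitiveRoot.orderOf w

section F
variable {F : Type} [Field F] [NumberField F] {w : F}

lemma minpoly_w (hw : w ^ 2 + w + 1 = 0) : (minpoly ℚ w).natDegree = 2 := by
  rw [← Polynomial.cyclotomic_eq_minpoly_rat (prim3 hw) (by norm_num), Polynomial.natDegree_cyclotomic]
  rfl

lemma exists_bF (h2 : finrank ℚ F = 2) (hw : w ^ 2 + w + 1 = 0) :
    ∃ b : Basis (Fin 2) ℚ F, ∀ i, b i = w ^ (i : ℕ) := by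
  have h2' := linearIndependent_pow (K := ℚ) w
  rw [minpoly_w hw] at h2'
  let b := basisOfLinearIndependentOfCardEqFinrank h2' (by simp [h2])
  exact ⟨b, fun i => by simp [b]⟩

lemma coordF (h2 : finrank ℚ F = 2) (hw : w ^ 2 + w + 1 = 0) (z : F) :
    ∃ x y : ℚ, z = x + y * w := by
  obtain ⟨b, hb⟩ := exists_bF h2 hw
  refine ⟨b.repr z 0, b.repr z 1, ?_⟩
  conv_lhs => rw [← b.sum_repr z]
  rw [Fin.sum_univ_two, hb, hb]
  simp [Algebra.smul_def]

/-- the norm from `F` to `ℚ` -/
lemma normF (h2 : finrank ℚ F = 2) (hw : w ^ 2 + w + 1 = 0) (x y : ℚ) :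
    Algebra.norm ℚ ((x : F) + y * w) = x ^ 2 - x * y + y ^ 2 := by
  obtain ⟨b, hb⟩ := exists_bF h2 hw
  rw [Algebra.norm_eq_matrix_det b]
  have h : Algebra.leftMulMatrix b ((x : F) + y * w) = !![x, -y; y, x - y] := by
    ext i j
    rw [Algebra.leftMulMatrix_eq_repr_mul]
    have e : ((x : F) + y * w) * b j = ∑ l, (!![x, -y; y, x - y] : Matrix (Fin 2) (Fin 2) ℚ) l j • b l := by
      rw [Fin.sum_univ_two]
      simp only [hb]
      fin_cases j
      · simp [Algebra.smul_def]
      · simp [Algebra.smul_def]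
        linear_combination (y : F) * hw
    rw [e]
    simp [Finsupp.single_apply, Fin.sum_univ_two]
    fin_cases i <;> fin_cases j <;> simp
  rw [h, Matrix.det_fin_two_of]
  ring

lemma no_sq (h2 : finrank ℚ F = 2) (hw : w ^ 2 + w + 1 = 0) (r : F) : r ^ 2 ≠ -1 := by
  intro h
  obtain ⟨x, y, rfl⟩ := coordF h2 hw r
  have h1 : ((x ^ 2 - y ^ 2 + 1 : ℚ) : F) + ((2 * x * y - y ^ 2 : ℚ) : F) * w = 0 := by
    push_cast
    linear_combination h - (y : F) ^ 2 * hw
  have h3 : Algebra.norm ℚ (((x ^ 2 - y ^ 2 + 1 : ℚ) : F) + ((2 * x * y - y ^ 2 : ℚ) : F) * w) = 0 := by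
    rw [h1]
    have : Nontrivial F := inferInstance
    exact Algebra.norm_zero
  rw [normF h2 hw] at h3
  set p := x ^ 2 - y ^ 2 + 1 with hp
  set q := 2 * x * y - y ^ 2 with hq
  have h4 : p = 0 ∧ q = 0 := by
    constructor <;> nlinarith [sq_nonneg (p - 2 * q), sq_nonneg (2 * p - q), sq_nonneg p, sq_nonneg q]
  obtain ⟨h5, h6⟩ := h4
  rw [hq] at h6
  rw [hp] at h5
  rcases mul_eq_zero.1 (show y * (2 * x - y) = 0 by linear_combination h6) with h7 | h7
  · rw [h7] at h5
    nlinarith [sq_nonneg x]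
  · have hy : y = 2 * x := by linear_combination -h7
    rw [hy] at h5
    have h8 : (3 * x) ^ 2 = 3 := by linear_combination -3 * h5
    have h9 : IsSquare (3 : ℚ) := ⟨3 * x, by linear_combination (-1 : ℚ) * h8⟩
    rw [show (3 : ℚ) = ((3 : ℕ) : ℚ) by norm_num, Rat.isSquare_natCast_iff] at h9
    obtain ⟨m, hm⟩ := h9
    have : m ≤ 1 := by nlinarith
    interval_cases m <;> omega

lemma norm_w (hw : w ^ 2 + w + 1 = 0) : Algebra.norm ℚ w = 1 := by
  have h3 : w ^ 3 = 1 := by linear_combination (w - 1) * hw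
  have h : (Algebra.norm ℚ w) ^ 3 = 1 ^ 3 := by rw [← map_pow, h3, map_one, one_pow]
  exact (Odd.strictMono_pow (by decide : Odd 3)).injective h

lemma no_cube4 (b : ℚ) : b ^ 3 ≠ 4 := by
  intro h
  apply Pool.Agent.Y180.Cbrt.no_cube (2 / b)
  have hb : b ≠ 0 := by
    rintro rfl
    norm_num at h
  rw [div_pow, h]
  norm_num

lemma no_cube2w (h2 : finrank ℚ F = 2) (hw : w ^ 2 + w + 1 = 0) (x : F) : x ^ 3 ≠ 2 * w := by
  intro h
  apply no_cube4 (Algebra.norm ℚ x)
  rw [← map_pow, h, map_mul, norm_w hw, mul_one]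
  have := Algebra.norm_algebraMap (S := F) (2 : ℚ)
  rw [h2] at this
  rw [map_ofNat] at this
  rw [this]
  norm_num

end F

section A
variable {F A : Type} [Field F] [NumberField F] [Field A] [NumberField A] [Algebra F A]
  {w : F} {θ : A}

lemma minpoly_θ (h2 : finrank ℚ F = 2) (hw : w ^ 2 + w + 1 = 0) (hθ : θ ^ 3 = algebraMap F A (2 * w)) :
    minpoly F θ = Polynomial.X ^ 3 - Polynomial.C (2 * w) := by
  have hirr : Irreducible (Polynomial.X ^ 3 - Polynomial.C (2 * w)) :=
    X_pow_sub_C_irreducible_of_prime Nat.prime_three (no_cube2w h2 hw)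
  refine (minpoly.eq_of_irreducible_of_monic hirr ?_
    (Polynomial.monic_X_pow_sub_C _ (by norm_num))).symm
  simp [hθ]

lemma exists_bA (h2 : finrank ℚ F = 2) (h3 : finrank F A = 3) (hw : w ^ 2 + w + 1 = 0)
    (hθ : θ ^ 3 = algebraMap F A (2 * w)) :
    ∃ b : Basis (Fin 3) F A, ∀ i, b i = θ ^ (i : ℕ) := by
  have h1 : (minpoly F θ).natDegree = 3 := by
    rw [minpoly_θ h2 hw hθ]
    exact Polynomial.natDegree_X_pow_sub_C
  have h2' := linearIndependent_pow (K := F) θ
  rw [h1] at h2'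
  let b := basisOfLinearIndependentOfCardEqFinrank h2' (by simp [h3])
  exact ⟨b, fun i => by simp [b]⟩

/-- the relative norm -/
lemma normA (h2 : finrank ℚ F = 2) (h3 : finrank F A = 3) (hw : w ^ 2 + w + 1 = 0)
    (hθ : θ ^ 3 = algebraMap F A (2 * w)) (x y z : F) :
    Algebra.norm F (algebraMap F A x + algebraMap F A y * θ + algebraMap F A z * θ ^ 2) =
      x ^ 3 + 2 * w * y ^ 3 + 4 * w ^ 2 * z ^ 3 - 6 * w * x * y * z := by
  obtain ⟨b, hb⟩ := exists_bA h2 h3 hw hθ
  rw [Algebra.norm_eq_matrix_det b]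
  have h : Algebra.leftMulMatrix b (algebraMap F A x + algebraMap F A y * θ + algebraMap F A z * θ ^ 2) =
      !![x, 2 * w * z, 2 * w * y; y, x, 2 * w * z; z, y, x] := by
    ext i j
    rw [Algebra.leftMulMatrix_eq_repr_mul]
    have e : (algebraMap F A x + algebraMap F A y * θ + algebraMap F A z * θ ^ 2) * b j =
        ∑ l, (!![x, 2 * w * z, 2 * w * y; y, x, 2 * w * z; z, y, x] :
          Matrix (Fin 3) (Fin 3) F) l j • b l := by
      rw [Fin.sum_univ_three]
      simp only [hb]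
      rw [map_mul, map_ofNat] at hθ
      fin_cases j
      · simp [Algebra.smul_def]
      · simp [Algebra.smul_def, map_ofNat]
        linear_combination algebraMap F A z * hθ
      · simp [Algebra.smul_def, map_ofNat]
        linear_combination (algebraMap F A y + algebraMap F A z * θ) * hθ
    rw [e]
    simp [Finsupp.single_apply, Fin.sum_univ_three]
    fin_cases i <;> fin_cases j <;> simp
  rw [h, Matrix.det_fin_three]
  simp
  ring

end A

end Pool.Agent.K7.H73.NM
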