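import Pool.Agent.K7.H73.NM.A

/-!
# The field `ℚ(w, ∛(2 w))`: discriminant, places
-/

set_option autoImplicit false
set_option linter.unusedSectionVars false

namespace Pool.Agent.K7.H73.NM

open IsDedekindDomain NumberField Module

/-- the coefficients of `w ^ e`, `e ≤ 3` -/
def cw (e : ℕ) (m : Fin 2) : ℤ :=
  if e = 0 then (if m = 0 then 1 else 0) else
  if e = 1 then (if m = 0 then 0 else 1) else
  if e = 2 then -1 else (if m = 0 then 1 else 0)

/-- the structure constants for the basis `w ^ i θ ^ j` -/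
def cc (p q r : Fin 2 × Fin 3) : ℤ :=
  if (p.2 : ℕ) + q.2 = r.2 then cw (p.1 + q.1) r.1 else
  if (p.2 : ℕ) + q.2 = r.2 + 3 then 2 * cw (p.1 + q.1 + 1) r.1 else 0

lemma det_cc : (Matrix.of fun i j : Fin 2 × Fin 3 => ∑ k, cc i j k * ∑ l, cc k l l :
    Matrix _ _ ℤ).det = -314928 := by
  rw [← Matrix.det_reindex_self (finProdFinEquiv (m := 2) (n := 3))]
  have : (Matrix.reindex (finProdFinEquiv (m := 2) (n := 3)) (finProdFinEquiv (m := 2) (n := 3))
      (Matrix.of fun i j : Fin 2 × Fin 3 => ∑ k, cc i j k * ∑ l, cc k l l : Matrix _ _ ℤ)) =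
      !![6,0,0,-3,0,0; 0,0,-6,0,0,-6; 0,-6,0,0,-6,0; -3,0,0,-3,0,0; 0,0,-6,0,0,12;
        0,-6,0,0,12,0] := by
    decide +kernel
  rw [this]
  simp [Matrix.det_succ_row_zero, Fin.sum_univ_succ, Fin.succAbove]

section A
variable {F A : Type} [Field F] [NumberField F] [Field A] [NumberField A] [Algebra F A]
  {w : F} {θ : A}

lemma exists_bQ (h2 : finrank ℚ F = 2) (h3 : finrank F A = 3) (hw : w ^ 2 + w + 1 = 0)
    (hθ : θ ^ 3 = algebraMap F A (2 * w)) :
    ∃ b : Basis (Fin 2 × Fin 3) ℚ A, ∀ p, b p = algebraMap F A w ^ (p.1 : ℕ) * θ ^ (p.2 : ℕ) := by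
  obtain ⟨b1, hb1⟩ := exists_bF h2 hw
  obtain ⟨b2, hb2⟩ := exists_bA h2 h3 hw hθ
  refine ⟨b1.smulTower b2, fun p => ?_⟩
  rw [Basis.smulTower_apply, hb1, hb2, Algebra.smul_def, map_pow]

lemma discr_bQ (hw : w ^ 2 + w + 1 = 0)
    (hθ : θ ^ 3 = algebraMap F A (2 * w)) (b : Basis (Fin 2 × Fin 3) ℚ A)
    (hb : ∀ p, b p = algebraMap F A w ^ (p.1 : ℕ) * θ ^ (p.2 : ℕ)) :
    Algebra.discr ℚ b = ((-314928 : ℤ) : ℚ) := by
  rw [MZ413.discr_of_struct b cc]
  · exact congrArg (fun z : ℤ => (z : ℚ)) det_cc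
  · intro i j
    rw [Fintype.sum_prod_type, Fin.sum_univ_two, Fin.sum_univ_three, Fin.sum_univ_three]
    simp only [hb]
    rw [map_mul, map_ofNat] at hθ
    have hw' := congrArg (algebraMap F A) hw
    rw [map_add, map_add, map_pow, map_one, map_zero] at hw'
    set W := algebraMap F A w
    obtain ⟨i1, i2⟩ := i
    obtain ⟨j1, j2⟩ := j
    fin_cases i1 <;> fin_cases i2 <;> fin_cases j1 <;> fin_cases j2 <;> simp [cc, cw] <;>
      first
      | ring1
      | linear_combination hw'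
      | linear_combination θ * hw'
      | linear_combination θ ^ 2 * hw'
      | linear_combination hθ
      | linear_combination W * hθ + 2 * hw'
      | linear_combination W ^ 2 * hθ + 2 * (W - 1) * hw'
      | linear_combination θ * hθ
      | linear_combination θ * (W * hθ + 2 * hw')
      | linear_combination θ * (W ^ 2 * hθ + 2 * (W - 1) * hw')

lemma int_w (hw : w ^ 2 + w + 1 = 0) : _root_.IsIntegral ℤ (algebraMap F A w) := by
  refine ⟨Polynomial.X ^ 2 + Polynomial.X + 1, ?_, ?_⟩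
  · monicity!
  · have hw' := congrArg (algebraMap F A) hw
    rw [map_add, map_add, map_pow, map_one, map_zero] at hw'
    simpa using hw'

lemma int_θ (hw : w ^ 2 + w + 1 = 0) (hθ : θ ^ 3 = algebraMap F A (2 * w)) :
    _root_.IsIntegral ℤ θ := by
  refine _root_.IsIntegral.of_pow (n := 3) (by norm_num) ?_
  rw [hθ, map_mul, map_ofNat]
  refine _root_.IsIntegral.mul ?_ (int_w hw)
  have := isIntegral_algebraMap (R := ℤ) (A := A) (x := 2)
  simpa using this

lemma fin6 (h2 : finrank ℚ F = 2) (h3 : finrank F A = 3) : finrank ℚ A = 6 := by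
  have := Module.finrank_mul_finrank ℚ F A
  rw [h2, h3] at this
  exact this.symm

lemma disc_le (h2 : finrank ℚ F = 2) (h3 : finrank F A = 3) (hw : w ^ 2 + w + 1 = 0)
    (hθ : θ ^ 3 = algebraMap F A (2 * w)) : |discr A| ≤ 314928 := by
  obtain ⟨b, hb⟩ := exists_bQ h2 h3 hw hθ
  let W : 𝓞 A := ⟨algebraMap F A w, int_w hw⟩
  let T : 𝓞 A := ⟨θ, int_θ hw hθ⟩
  obtain ⟨m, hm, hm0, -⟩ := MZ413.exists_index b (fun p => W ^ (p.1 : ℕ) * T ^ (p.2 : ℕ)) (fun p => by
    rw [hb, map_mul, map_pow, map_pow]; rfl) (-314928) (discr_bQ hw hθ b hb)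
  have hm2 : 1 ≤ m ^ 2 := by
    have : 0 < m ^ 2 := by positivity
    omega
  have h : |m ^ 2 * discr A| = 314928 := by rw [hm]; rfl
  rw [abs_mul, abs_of_nonneg (sq_nonneg m)] at h
  nlinarith [abs_nonneg (discr A)]

lemma absN (h2 : finrank ℚ F = 2) (h3 : finrank F A = 3) (hw : w ^ 2 + w + 1 = 0)
    (hθ : θ ^ 3 = algebraMap F A (2 * w)) {g : 𝓞 A} (x y z : F)
    (hg : algebraMap (𝓞 A) A g = algebraMap F A x + algebraMap F A y * θ + algebraMap F A z * θ ^ 2) (p q : ℚ)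
    (hpq : x ^ 3 + 2 * w * y ^ 3 + 4 * w ^ 2 * z ^ 3 - 6 * w * x * y * z = p + q * w) (n : ℕ)
    (hn : p ^ 2 - p * q + q ^ 2 = n) : Ideal.absNorm (Ideal.span {g}) = n := by
  rw [Ideal.absNorm_span_singleton]
  have h : (Algebra.norm ℤ g : ℚ) = n := by
    rw [Algebra.coe_norm_int]
    change Algebra.norm ℚ (algebraMap (𝓞 A) A g) = n
    rw [hg, ← Algebra.norm_norm (S := F), normA h2 h3 hw hθ, hpq, normF h2 hw, hn]
  have h2 : Algebra.norm ℤ g = n := by exact_mod_cast h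
  rw [h2]
  rfl

end A

/-- the data in the ring of integers -/
structure DD {A : Type} [Field A] [NumberField A] (w t : 𝓞 A) : Prop where
  deg : finrank ℚ A = 6
  hw : w ^ 2 + w + 1 = 0
  ht : t ^ 3 = 2 * w
  disc : |discr A| ≤ 314928
  n4 : Ideal.absNorm (Ideal.span {t}) = 4
  n3 : Ideal.absNorm (Ideal.span {1 + t}) = 3
  n7 : ∀ k < 3, Ideal.absNorm (Ideal.span {1 - w ^ k * t}) = 7
  n13a : Ideal.absNorm (Ideal.span {1 + w ^ 2 * t + w ^ 2 * t ^ 2}) = 13
  n13b : Ideal.absNorm (Ideal.span {1 + t + w * t ^ 2}) = 13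
  n13c : Ideal.absNorm (Ideal.span {1 + w * t + t ^ 2}) = 13

section A
variable {F A : Type} [Field F] [NumberField F] [Field A] [NumberField A] [Algebra F A]
  {w : F} {θ : A}

theorem exists_DD (h2 : finrank ℚ F = 2) (h3 : finrank F A = 3) (hw : w ^ 2 + w + 1 = 0)
    (hθ : θ ^ 3 = algebraMap F A (2 * w)) :
    ∃ W T : 𝓞 A, DD W T ∧ algebraMap (𝓞 A) A W = algebraMap F A w ∧ algebraMap (𝓞 A) A T = θ := by
  obtain ⟨W, eW⟩ : ∃ W : 𝓞 A, algebraMap (𝓞 A) A W = algebraMap F A w := ⟨⟨_, int_w hw⟩, rfl⟩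
  obtain ⟨T, eT⟩ : ∃ T : 𝓞 A, algebraMap (𝓞 A) A T = θ := ⟨⟨_, int_θ hw hθ⟩, rfl⟩
  have hw3 : w ^ 3 = 1 := by linear_combination (w - 1) * hw
  refine ⟨W, T, ⟨fin6 h2 h3, ?_, ?_, disc_le h2 h3 hw hθ, ?_, ?_, ?_, ?_, ?_, ?_⟩, eW, eT⟩
  · apply RingOfIntegers.coe_injective
    rw [map_add, map_add, map_pow, map_one, map_zero, eW, ← map_pow, ← map_add,
      ← map_one (algebraMap F A), ← map_add, hw, map_zero]
  · apply RingOfIntegers.coe_injective
    rw [map_pow, map_mul, map_ofNat, eT, eW, hθ, map_mul, map_ofNat]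
  · refine absN h2 h3 hw hθ 0 1 0 (by simp [eT]) 0 2 ?_ 4 (by norm_num)
    push_cast
    ring
  · refine absN h2 h3 hw hθ 1 1 0 (by simp [eT]) 1 2 ?_ 3 (by norm_num)
    push_cast
    ring
  · intro k hk
    refine absN h2 h3 hw hθ 1 (-w ^ k) 0 (by simp [eT, eW]; ring) 1 (-2) ?_ 7
      (by norm_num)
    push_cast
    have : (w ^ k) ^ 3 = 1 := by rw [← pow_mul, mul_comm, pow_mul, hw3, one_pow]
    linear_combination (-2 * w) * this
  · refine absN h2 h3 hw hθ 1 (w ^ 2) (w ^ 2) (by simp [eT, eW]) 3 4 ?_ 13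
      (by norm_num)
    push_cast
    linear_combination (2 * w * (w ^ 3 + 1) + 4 * w ^ 2 * (w ^ 3 + 1) - 6 * w ^ 2) * hw3 - 2 * hw
  · refine absN h2 h3 hw hθ 1 1 w (by simp [eT, eW]) 3 4 ?_ 13
      (by norm_num)
    push_cast
    linear_combination (4 * w ^ 2) * hw3 - 2 * hw
  · refine absN h2 h3 hw hθ 1 w 1 (by simp [eT, eW]) 3 4 ?_ 13
      (by norm_num)
    push_cast
    linear_combination (2 * w) * hw3 - 2 * hw

end A

end Pool.Agent.K7.H73.NM
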