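import Pool.Agent.K7.H73.NM.B
import Pool.Agent.Y696.EvAll

/-!
# The field `ℚ(w, ∛(2 w))` has class number one
-/

set_option autoImplicit false
set_option linter.unusedSectionVars false

namespace Pool.Agent.K7.H73.NM

open IsDedekindDomain NumberField Module

section
variable {A : Type} [Field A] [NumberField A] {w t : 𝓞 A}

lemma DD.cplx (h : DD w t) : InfinitePlace.nrComplexPlaces A = 3 := by
  classical
  have h0 : InfinitePlace.nrRealPlaces A = 0 := by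
    by_contra h0
    have h1 : 0 < InfinitePlace.nrRealPlaces A := Nat.pos_of_ne_zero h0
    unfold InfinitePlace.nrRealPlaces at h1
    obtain ⟨⟨v, hv⟩⟩ := Fintype.card_pos_iff.1 h1
    have h2 := congrArg (fun z : 𝓞 A => InfinitePlace.embedding_of_isReal hv (algebraMap (𝓞 A) A z)) h.hw
    simp only [map_add, map_pow, map_one, map_zero] at h2
    nlinarith [sq_nonneg (2 * InfinitePlace.embedding_of_isReal hv (algebraMap (𝓞 A) A w) + 1)]
  have h1 := InfinitePlace.card_add_two_mul_card_eq_rank A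
  rw [h.deg, h0] at h1
  omega

lemma DD.mink (h : DD w t) : (4 / Real.pi) ^ InfinitePlace.nrComplexPlaces A *
    ((finrank ℚ A).factorial / (finrank ℚ A : ℝ) ^ (finrank ℚ A) * √|(discr A : ℝ)|) < 18 := by
  have hd : |((discr A : ℤ) : ℝ)| ≤ 314928 := by exact_mod_cast h.disc
  rw [h.cplx, h.deg]
  have h2 : Real.sqrt |((discr A : ℤ) : ℝ)| ≤ 561.19 := by
    rw [Real.sqrt_le_left (by norm_num)]
    refine hd.trans (by norm_num)
  have h3 : 4 / Real.pi ≤ 1.2733 := by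
    rw [div_le_iff₀ Real.pi_pos]
    have := Real.pi_gt_d4
    nlinarith
  have h4 : (0 : ℝ) ≤ 4 / Real.pi := by have := Real.pi_pos; positivity
  have h5 : (4 / Real.pi) ^ 3 ≤ 1.2733 ^ 3 := by gcongr
  have h6 := Real.sqrt_nonneg |((discr A : ℤ) : ℝ)|
  have e : ((Nat.factorial 6 : ℕ) : ℝ) = 720 := by norm_num [Nat.factorial]
  rw [e]
  calc (4 / Real.pi) ^ 3 * (720 / ((6 : ℕ) : ℝ) ^ 6 * √|((discr A : ℤ) : ℝ)|)
      ≤ 1.2733 ^ 3 * (720 / ((6 : ℕ) : ℝ) ^ 6 * 561.19) := by gcongr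
    _ < 18 := by norm_num

/-- a prime ideal that contains an element of prime norm is principal -/
lemma prin_of {P : Ideal (𝓞 A)} (hP : P.IsPrime) {g : 𝓞 A} (hg : g ∈ P) {p : ℕ} (hp : p.Prime)
    (hN : Ideal.absNorm (Ideal.span {g}) = p) : P = Ideal.span {g} := by
  have h1 : (Ideal.span {g}).IsPrime := Ideal.isPrime_of_irreducible_absNorm (by rw [hN]; exact hp)
  have hg0 : g ≠ 0 := by
    rintro rfl
    rw [Ideal.span_singleton_eq_bot.2 rfl, Ideal.absNorm_bot] at hN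
    exact hp.ne_zero hN.symm
  have hmax : (Ideal.span {g}).IsMaximal := h1.isMaximal (by simpa using hg0)
  exact (hmax.eq_of_le hP.ne_top ((Ideal.span_singleton_le_iff_mem _).2 hg)).symm

/-- two different primes are not in the same prime ideal -/
lemma nat_mem {P : Ideal (𝓞 A)} (hP : P.IsPrime) {p : ℕ} (hp : p.Prime) (hpP : (p : 𝓞 A) ∈ P)
    {n : ℤ} (hn : (n : 𝓞 A) ∈ P) : (p : ℤ) ∣ n := by
  by_contra h
  have hc : IsCoprime (p : ℤ) n :=
    (Prime.coprime_iff_not_dvd (Nat.prime_iff_prime_int.1 hp)).2 h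
  obtain ⟨a, b, hab⟩ := hc
  apply hP.ne_top
  rw [Ideal.eq_top_iff_one]
  have h4 := congrArg (fun z : ℤ => (z : 𝓞 A)) hab
  push_cast at h4
  rw [← h4]
  exact add_mem (Ideal.mul_mem_left _ _ hpP) (Ideal.mul_mem_left _ _ hn)

/-- residues -/
lemma resid {P : Ideal (𝓞 A)} (hP : P.IsPrime) {p : ℕ} (hp : p.Prime)
    (hN : Ideal.absNorm P = p) (x : 𝓞 A) : ∃ a : Fin p, x - (a : ℕ) ∈ P := by
  have hpP : (p : 𝓞 A) ∈ P := by
    rw [← hN]
    exact Ideal.absNorm_mem P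
  have hc : Nat.card (𝓞 A ⧸ P) = p := by
    rwa [Ideal.absNorm_apply, Submodule.cardQuot_apply] at hN
  have hfin : Finite (𝓞 A ⧸ P) := Nat.finite_of_card_ne_zero (by rw [hc]; exact hp.ne_zero)
  let f : Fin p → 𝓞 A ⧸ P := fun a => Ideal.Quotient.mk P ((a : ℕ) : 𝓞 A)
  have hf : Function.Injective f := by
    intro a b hab
    have h1 : (((a : ℕ) : 𝓞 A) - ((b : ℕ) : 𝓞 A)) ∈ P := Ideal.Quotient.eq.1 hab
    have h2 : (((a : ℕ) : ℤ) - ((b : ℕ) : ℤ) : ℤ) = 0 := by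
      have h3 := nat_mem hP hp hpP (n := ((a : ℕ) : ℤ) - ((b : ℕ) : ℤ)) (by push_cast; exact h1)
      obtain ⟨c, hc⟩ := h3
      have ha := a.2
      have hb := b.2
      have hc0 : c = 0 := by
        by_contra hne
        rcases lt_or_gt_of_ne hne with h | h
        · nlinarith
        · nlinarith
      rw [hc, hc0, mul_zero]
    exact Fin.ext (by omega)
  have hs : Function.Surjective f := by
    have : Fintype (𝓞 A ⧸ P) := Fintype.ofFinite _
    have h5 : Function.Bijective f := (Fintype.bijective_iff_injective_and_card f).2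
      ⟨hf, by rw [Fintype.card_fin, ← Nat.card_eq_fintype_card, hc]⟩
    exact h5.2
  obtain ⟨a, ha⟩ := hs (Ideal.Quotient.mk P x)
  refine ⟨a, ?_⟩
  rw [← neg_mem_iff, neg_sub]
  exact Ideal.Quotient.eq.1 ha

/-- the norm of a prime ideal -/
lemma norm_pow {P : Ideal (𝓞 A)} (hP : P.IsPrime) (hP0 : P ≠ ⊥) {p : ℕ} (hp : p.Prime)
    (hpP : (p : 𝓞 A) ∈ P) : ∃ f : ℕ, 0 < f ∧ Ideal.absNorm P = p ^ f := by
  have hmax : P.IsMaximal := hP.isMaximal hP0
  let _ : Field (𝓞 A ⧸ P) := Ideal.Quotient.field P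
  have hfin : Finite (𝓞 A ⧸ P) := Ideal.finiteQuotientOfFreeOfNeBot _ hP0
  let _ : Fintype (𝓞 A ⧸ P) := Fintype.ofFinite _
  have hch : CharP (𝓞 A ⧸ P) p := by
    have h0 : ((p : ℕ) : 𝓞 A ⧸ P) = 0 := by
      rw [← map_natCast (Ideal.Quotient.mk P), Ideal.Quotient.eq_zero_iff_mem]
      exact hpP
    exact (ringChar.eq_iff).1 (CharP.ringChar_of_prime_eq_zero hp h0)
  obtain ⟨n, -, hn⟩ := FiniteField.card (𝓞 A ⧸ P) p
  refine ⟨n, n.2, ?_⟩
  rw [Ideal.absNorm_apply, Submodule.cardQuot_apply, Nat.card_eq_fintype_card]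
  exact hn

lemma DD.w3 (h : DD w t) : w ^ 3 = 1 := by linear_combination (w - 1) * h.hw

/-- the residue of `w` -/
lemma DD.no_res (h : DD w t) {P : Ideal (𝓞 A)} (hP : P.IsPrime) {p : ℕ} (hp : p.Prime)
    (hpP : (p : 𝓞 A) ∈ P) (hN : Ideal.absNorm P = p) :
    ∃ a b : Fin p, w - (a : ℕ) ∈ P ∧ t - (b : ℕ) ∈ P ∧
      (p : ℤ) ∣ (a : ℤ) ^ 2 + a + 1 ∧ (p : ℤ) ∣ (b : ℤ) ^ 3 - 2 * a := by
  obtain ⟨a, ha⟩ := resid hP hp hN w
  obtain ⟨b, hb⟩ := resid hP hp hN t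
  refine ⟨a, b, ha, hb, ?_, ?_⟩
  · apply nat_mem hP hp hpP
    have e : (((a : ℤ) ^ 2 + a + 1 : ℤ) : 𝓞 A) = (w ^ 2 + w + 1) - (w - ((a : ℕ) : 𝓞 A)) *
        (w + ((a : ℕ) : 𝓞 A) + 1) := by
      push_cast
      ring
    rw [e, h.hw, zero_sub, neg_mem_iff]
    exact Ideal.mul_mem_right _ _ ha
  · apply nat_mem hP hp hpP
    have e : (((b : ℤ) ^ 3 - 2 * a : ℤ) : 𝓞 A) = (t ^ 3 - 2 * w) - (t - ((b : ℕ) : 𝓞 A)) *
        (t ^ 2 + t * ((b : ℕ) : 𝓞 A) + ((b : ℕ) : 𝓞 A) ^ 2) + 2 * (w - ((a : ℕ) : 𝓞 A)) := by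
      push_cast
      ring
    rw [e, h.ht, sub_self, zero_sub]
    exact add_mem (neg_mem (Ideal.mul_mem_right _ _ hb)) (Ideal.mul_mem_left _ _ ha)

/-- membership through the residues -/
lemma mem_of_res {P : Ideal (𝓞 A)} {p : ℕ} (hpP : (p : 𝓞 A) ∈ P) {a b : ℕ}
    (ha : w - (a : 𝓞 A) ∈ P) (hb : t - (b : 𝓞 A) ∈ P) (_c d e : ℕ) (c0 c1 c2 : ℤ)
    (hdvd : (p : ℤ) ∣ c0 + c1 * a ^ d * b + c2 * a ^ e * b ^ 2) :
    (c0 : 𝓞 A) + c1 * w ^ d * t + c2 * w ^ e * t ^ 2 ∈ P := by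
  have h1 : Ideal.Quotient.mk P w = ((a : ℕ) : 𝓞 A ⧸ P) := by
    rw [← map_natCast (Ideal.Quotient.mk P), Ideal.Quotient.eq]
    exact ha
  have h2 : Ideal.Quotient.mk P t = ((b : ℕ) : 𝓞 A ⧸ P) := by
    rw [← map_natCast (Ideal.Quotient.mk P), Ideal.Quotient.eq]
    exact hb
  rw [← Ideal.Quotient.eq_zero_iff_mem]
  simp only [map_add, map_mul, map_pow, map_intCast, h1, h2]
  obtain ⟨k, hk⟩ := hdvd
  have h3 : ((p : ℕ) : 𝓞 A ⧸ P) = 0 := by
    rw [← map_natCast (Ideal.Quotient.mk P), Ideal.Quotient.eq_zero_iff_mem]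
    exact hpP
  have h4 := congrArg (fun z : ℤ => (z : 𝓞 A ⧸ P)) hk
  push_cast at h4
  rw [h3, zero_mul] at h4
  exact h4

theorem DD.prin (h : DD w t) {P : Ideal (𝓞 A)} (hP : P.IsPrime) (hP0 : P ≠ ⊥)
    (hN : Ideal.absNorm P < 18) : ∃ g, P = Ideal.span {g} := by
  obtain ⟨p, hp, hpP⟩ := Pool.Agent.Y696.exists_prime_mem (k := A) ⟨P, hP, hP0⟩
  change (p : 𝓞 A) ∈ P at hpP
  obtain ⟨f, hf, hfN⟩ := norm_pow hP hP0 hp hpP
  have hpl : p < 18 := lt_of_le_of_lt (Nat.le_self_pow hf.ne' p) (hfN ▸ hN)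
  by_cases h2 : p = 2
  · subst h2
    have ht : t ∈ P := by
      apply hP.mem_of_pow_mem 3
      rw [h.ht]
      exact Ideal.mul_mem_right _ _ (by exact_mod_cast hpP)
    refine ⟨t, ?_⟩
    have hle : Ideal.span {t} ≤ P := (Ideal.span_singleton_le_iff_mem _).2 ht
    have hdvd := Ideal.absNorm_dvd_absNorm_of_le hle
    rw [h.n4, hfN] at hdvd
    have hf2 : f ≠ 1 := by
      rintro rfl
      obtain ⟨a, b, -, -, h1, -⟩ := h.no_res hP hp hpP (by rw [hfN, pow_one])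
      fin_cases a <;> simp at h1 <;> omega
    have hf3 : f ≤ 2 := by
      have : 2 ^ f ∣ 2 ^ 2 := hdvd
      exact (Nat.pow_dvd_pow_iff_le_right (by norm_num)).1 this
    have hf4 : f = 2 := by omega
    obtain ⟨J, hJ⟩ := Ideal.dvd_iff_le.2 hle
    have h5 := congrArg Ideal.absNorm hJ
    rw [map_mul, h.n4, hfN, hf4] at h5
    have h6 : Ideal.absNorm J = 1 := by omega
    rw [Ideal.absNorm_eq_one_iff] at h6
    rw [hJ, h6, Ideal.mul_top]
  by_cases h3 : p = 3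
  · subst h3
    refine ⟨1 + t, prin_of hP ?_ Nat.prime_three h.n3⟩
    have h1 : (1 + 2 * w) ∈ P := by
      apply hP.mem_of_pow_mem 2
      have e : (1 + 2 * w) ^ 2 = -(((3 : ℕ) : 𝓞 A)) := by
        push_cast
        linear_combination 4 * h.hw
      rw [e]
      exact neg_mem hpP
    apply hP.mem_of_pow_mem 3
    have e : (1 + t) ^ 3 = (1 + 2 * w) + ((3 : ℕ) : 𝓞 A) * (t + t ^ 2) := by
      push_cast
      linear_combination h.ht
    rw [e]
    exact add_mem h1 (Ideal.mul_mem_right _ _ hpP)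
  have hp5 : 5 ≤ p := by
    have := hp.two_le
    by_contra hlt
    have : p = 4 := by omega
    subst this
    exact absurd hp (by decide)
  have hf1 : f = 1 := by
    by_contra hne
    have : 5 ^ 2 ≤ p ^ f := (Nat.pow_le_pow_left hp5 2).trans (Nat.pow_le_pow_right (by omega) (by omega))
    omega
  rw [hf1, pow_one] at hfN
  obtain ⟨a, b, ha, hb, h4, h5⟩ := h.no_res hP hp hpP hfN
  have hcases : p = 5 ∨ p = 7 ∨ p = 11 ∨ p = 13 ∨ p = 17 := by
    interval_cases p <;> first | omega | (exact absurd hp (by decide))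
  rcases hcases with rfl | rfl | rfl | rfl | rfl
  · exfalso
    revert h4
    clear h5 ha hb hpP hfN hp
    revert a
    decide
  · have h7 : (a = 4 ∧ b = 1) ∨ (a = 4 ∧ b = 2) ∨ (a = 4 ∧ b = 4) := by
      clear ha hb hpP hfN hp
      revert a b
      decide
    rcases h7 with ⟨rfl, rfl⟩ | ⟨rfl, rfl⟩ | ⟨rfl, rfl⟩
    · refine ⟨1 - w ^ 0 * t, prin_of hP ?_ hp (h.n7 0 (by norm_num))⟩
      have := mem_of_res hpP ha hb 0 0 0 1 (-1) 0 (by norm_num)
      convert this using 1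
      push_cast
      ring
    · refine ⟨1 - w ^ 1 * t, prin_of hP ?_ hp (h.n7 1 (by norm_num))⟩
      have := mem_of_res hpP ha hb 0 1 0 1 (-1) 0 (by norm_num)
      convert this using 1
      push_cast
      ring
    · refine ⟨1 - w ^ 2 * t, prin_of hP ?_ hp (h.n7 2 (by norm_num))⟩
      have := mem_of_res hpP ha hb 0 2 0 1 (-1) 0 (by norm_num)
      convert this using 1
      push_cast
      ring
  · exfalso
    revert h4
    clear h5 ha hb hpP hfN hp
    revert a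
    decide
  · have h7 : (a = 9 ∧ b = 7) ∨ (a = 9 ∧ b = 8) ∨ (a = 9 ∧ b = 11) := by
      clear ha hb hpP hfN hp
      revert a b
      decide
    rcases h7 with ⟨rfl, rfl⟩ | ⟨rfl, rfl⟩ | ⟨rfl, rfl⟩
    · refine ⟨_, prin_of hP ?_ hp h.n13a⟩
      have := mem_of_res hpP ha hb 0 2 2 1 1 1 (by norm_num)
      convert this using 1
      push_cast
      ring
    · refine ⟨_, prin_of hP ?_ hp h.n13b⟩
      have := mem_of_res hpP ha hb 0 0 1 1 1 1 (by norm_num)
      convert this using 1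
      push_cast
      ring
    · refine ⟨_, prin_of hP ?_ hp h.n13c⟩
      have := mem_of_res hpP ha hb 0 1 0 1 1 1 (by norm_num)
      convert this using 1
      push_cast
      ring
  · exfalso
    revert h4
    clear h5 ha hb hpP hfN hp
    revert a
    decide

theorem DD.pid (h : DD w t) : IsPrincipalIdealRing (𝓞 A) := by
  apply RingOfIntegers.isPrincipalIdealRing_of_isPrincipal_of_norm_le_of_isPrime
  intro I hI hN
  have hlt : (Ideal.absNorm (I : Ideal (𝓞 A)) : ℝ) < 18 := hN.trans_lt h.mink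
  have hlt2 : Ideal.absNorm (I : Ideal (𝓞 A)) < 18 := by exact_mod_cast hlt
  obtain ⟨g, hg⟩ := h.prin hI (nonZeroDivisors.coe_ne_zero I) hlt2
  rw [hg]
  exact ⟨⟨g, rfl⟩⟩

end

end Pool.Agent.K7.H73.NM
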