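import Pool.Agent.K7.H73.NM.C
import Pool.Agent.TeamU.B1

/-!
# The units of `ℚ(w, ∛(2 w))` modulo squares
-/

set_option autoImplicit false
set_option linter.unusedSectionVars false

namespace Pool.Agent.K7.H73.NM

open IsDedekindDomain NumberField Module

section
variable {A : Type} [Field A] [NumberField A] {w t : 𝓞 A}

lemma card_ker2 : Nat.card (powMonoidHom 2 : (𝓞 A)ˣ →* (𝓞 A)ˣ).ker = 2 := by
  have key : ∀ x : (powMonoidHom 2 : (𝓞 A)ˣ →* (𝓞 A)ˣ).ker, (x.1 = 1) ∨ (x.1 = -1) := by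
    intro x
    have h1 : x.1 ^ 2 = 1 := x.2
    have h2 : ((x.1 : 𝓞 A)) ^ 2 = 1 ^ 2 := by
      have := congrArg (fun z : (𝓞 A)ˣ => (z : 𝓞 A)) h1
      rw [one_pow]
      exact this
    rcases sq_eq_sq_iff_eq_or_eq_neg.1 h2 with h3 | h3
    · exact Or.inl (Units.ext h3)
    · exact Or.inr (Units.ext (by rw [h3]; rfl))
  rw [Nat.card_eq_two_iff]
  refine ⟨1, ⟨-1, by show (-1 : (𝓞 A)ˣ) ^ 2 = 1; rw [neg_one_sq]⟩, ?_, ?_⟩
  · intro h
    have h2 := congrArg (fun z : (powMonoidHom 2 : (𝓞 A)ˣ →* (𝓞 A)ˣ).ker => ((z.1 : (𝓞 A)ˣ) : 𝓞 A)) h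
    have h3 : (1 : 𝓞 A) = -1 := h2
    have h4 : (2 : 𝓞 A) = 0 := by linear_combination h3
    exact two_ne_zero h4
  · ext x
    simp only [Set.mem_insert_iff, Set.mem_singleton_iff, Set.mem_univ, iff_true]
    rcases key x with h | h
    · exact Or.inl (Subtype.ext h)
    · exact Or.inr (Subtype.ext h)

lemma DD.idx (h : DD w t) : (powMonoidHom 2 : (𝓞 A)ˣ →* (𝓞 A)ˣ).range.index = 8 := by
  rw [Pool.Agent.TeamU.index_sq, card_ker2, Units.finrank_eq]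
  have h1 := h.cplx
  have h2 := InfinitePlace.card_add_two_mul_card_eq_rank A
  have h3 := InfinitePlace.card_eq_nrRealPlaces_add_nrComplexPlaces A
  rw [h.deg] at h2
  have : Units.rank A = 2 := by
    unfold Units.rank
    omega
  rw [this]
  norm_num

local instance : Fact (Nat.Prime 7) := ⟨by norm_num⟩

/-- the residues of the root -/
def rt : Fin 3 → ZMod 7 := ![1, 2, 4]

lemma dec7 : ∀ (k : Fin 3) (a b : ZMod 7), a ^ 2 + a + 1 = 0 → b ^ 3 = 2 * a →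
    1 - a ^ (k : ℕ) * b = 0 → a = 4 ∧ b = rt k := by
  decide

lemma DD.hom (h : DD w t) (k : Fin 3) : ∃ φ : 𝓞 A →+* ZMod 7, φ w = 4 ∧ φ t = rt k := by
  have hp : Nat.Prime 7 := by norm_num
  set P : Ideal (𝓞 A) := Ideal.span {1 - w ^ (k : ℕ) * t} with hP
  have hN : Ideal.absNorm P = 7 := h.n7 k k.2
  have hc : Nat.card (𝓞 A ⧸ P) = 7 := by
    rwa [Ideal.absNorm_apply, Submodule.cardQuot_apply] at hN
  have hfin : Finite (𝓞 A ⧸ P) := Nat.finite_of_card_ne_zero (by rw [hc]; norm_num)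
  let _ : Fintype (𝓞 A ⧸ P) := Fintype.ofFinite _
  let e := ZMod.ringEquivOfPrime (𝓞 A ⧸ P) hp (by rw [← Nat.card_eq_fintype_card, hc])
  let φ : 𝓞 A →+* ZMod 7 := (e.symm : (𝓞 A ⧸ P) →+* ZMod 7).comp (Ideal.Quotient.mk P)
  have h1 : φ w ^ 2 + φ w + 1 = 0 := by rw [← map_pow, ← map_add, ← map_one φ, ← map_add, h.hw, map_zero]
  have h2 : φ t ^ 3 = 2 * φ w := by rw [← map_pow, h.ht, map_mul, map_ofNat]
  have h3 : 1 - φ w ^ (k : ℕ) * φ t = 0 := by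
    rw [← map_pow, ← map_mul, ← map_one φ, ← map_sub]
    have : Ideal.Quotient.mk P (1 - w ^ (k : ℕ) * t) = 0 := by
      rw [Ideal.Quotient.eq_zero_iff_mem]
      exact Ideal.mem_span_singleton_self _
    show e.symm (Ideal.Quotient.mk P (1 - w ^ (k : ℕ) * t)) = 0
    rw [this, map_zero]
  refine ⟨φ, ?_⟩
  generalize φ w = a at *
  generalize φ t = b at *
  exact dec7 k a b h1 h2 h3

/-- the unit `(1 + t) / (1 + w t)` -/
def eta1 (h : DD w t) : (𝓞 A)ˣ where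
  val := -1 - 2 * w + w ^ 2 * t - t ^ 2
  inv := -1 - w ^ 2 * t + w ^ 2 * t ^ 2
  val_inv := by
    have h1 := h.hw
    have h2 := h.ht
    linear_combination (-w ^ 2 * t + w ^ 4 + w ^ 2) * h2 +
      (t ^ 2 * (-w ^ 2 - w + 1) + 2 * w * (w ^ 2 - w + 1)) * h1
  inv_val := by
    have h1 := h.hw
    have h2 := h.ht
    linear_combination (-w ^ 2 * t + w ^ 4 + w ^ 2) * h2 +
      (t ^ 2 * (-w ^ 2 - w + 1) + 2 * w * (w ^ 2 - w + 1)) * h1

/-- the unit `(1 + w t) / (1 + w ^ 2 t)` -/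
def eta2 (h : DD w t) : (𝓞 A)ˣ where
  val := -1 - 2 * w + t - w ^ 2 * t ^ 2
  inv := -1 - t + w * t ^ 2
  val_inv := by
    have h1 := h.hw
    have h2 := h.ht
    linear_combination (-t * w ^ 3 + w + w ^ 2) * h2 +
      (-2 * w * (w - 1) * t - t ^ 2 + 2 * w) * h1
  inv_val := by
    have h1 := h.hw
    have h2 := h.ht
    linear_combination (-t * w ^ 3 + w + w ^ 2) * h2 +
      (-2 * w * (w - 1) * t - t ^ 2 + 2 * w) * h1

/-- the signs -/
noncomputable def sg (φ : 𝓞 A →+* ZMod 7) : (𝓞 A)ˣ →* (ZMod 7)ˣ :=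
  (powMonoidHom 3).comp (Units.map (φ : 𝓞 A →* ZMod 7))

lemma sg_val (φ : 𝓞 A →+* ZMod 7) (u : (𝓞 A)ˣ) : ((sg φ u : (ZMod 7)ˣ) : ZMod 7) = φ (u : 𝓞 A) ^ 3 := rfl

lemma sg_sq (φ : 𝓞 A →+* ZMod 7) (u : (𝓞 A)ˣ) : sg φ (u ^ 2) = 1 := by
  apply Units.ext
  rw [sg_val, Units.val_pow_eq_pow_val, map_pow]
  have h0 : φ (u : 𝓞 A) ≠ 0 := (u.isUnit.map φ).ne_zero
  generalize φ (u : 𝓞 A) = a at *
  revert a
  decide

/-- the signs of the products -/
def TT (i j k : Fin 2) (m : Fin 3) : ZMod 7 :=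
  ((-1) ^ (i : ℕ) * (![6, 5, 4] m) ^ (j : ℕ) * (![4, 6, 5] m) ^ (k : ℕ)) ^ 3

/-- the products -/
def pr (h : DD w t) (i j k : Fin 2) : (𝓞 A)ˣ := (-1) ^ (i : ℕ) * eta1 h ^ (j : ℕ) * eta2 h ^ (k : ℕ)

lemma pr_val (h : DD w t) {φ : 𝓞 A →+* ZMod 7} {m : Fin 3} (h1 : φ w = 4) (h2 : φ t = rt m)
    (i j k : Fin 2) : ((sg φ (pr h i j k) : (ZMod 7)ˣ) : ZMod 7) = TT i j k m := by
  rw [sg_val]
  unfold pr TT
  have e1 : φ ((eta1 h : (𝓞 A)ˣ) : 𝓞 A) = ![6, 5, 4] m := by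
    show φ (-1 - 2 * w + w ^ 2 * t - t ^ 2) = _
    simp only [map_sub, map_add, map_neg, map_one, map_mul, map_pow, h1, h2, map_ofNat]
    clear h2
    revert m
    decide
  have e2 : φ ((eta2 h : (𝓞 A)ˣ) : 𝓞 A) = ![4, 6, 5] m := by
    show φ (-1 - 2 * w + t - w ^ 2 * t ^ 2) = _
    simp only [map_sub, map_add, map_neg, map_one, map_mul, map_pow, h1, h2, map_ofNat]
    clear h2 e1
    revert m
    decide
  simp only [Units.val_mul, Units.val_pow_eq_pow_val, map_mul, map_pow, e1, e2, Units.val_neg,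
    Units.val_one, map_neg, map_one]

lemma TT_inj : ∀ i j k i' j' k' : Fin 2, (∀ m, TT i j k m = TT i' j' k' m) →
    i = i' ∧ j = j' ∧ k = k' := by
  decide

lemma TT_surj : ∀ x y z : ZMod 7, x ≠ 0 → y ≠ 0 → z ≠ 0 → ∃ i j k : Fin 2,
    TT i j k 0 = x ^ 3 ∧ TT i j k 1 = y ^ 3 ∧ TT i j k 2 = z ^ 3 := by
  decide +kernel

theorem DD.units (h : DD w t) (u : (𝓞 A)ˣ) : ∃ (i j k : Fin 2) (s : (𝓞 A)ˣ), u = pr h i j k * s ^ 2 := by
  choose φ hφ1 hφ2 using fun k => h.hom k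
  let f : (𝓞 A)ˣ →* (Fin 3 → (ZMod 7)ˣ) := MonoidHom.pi fun k => sg (φ k)
  have hf : ∀ u k, f u k = sg (φ k) u := fun _ _ => rfl
  set S := (powMonoidHom 2 : (𝓞 A)ˣ →* (𝓞 A)ˣ).range with hS
  have hle : S ≤ f.ker := by
    rintro _ ⟨y, rfl⟩
    rw [MonoidHom.mem_ker]
    funext k
    rw [hf]
    exact sg_sq _ _
  have h1 : S.relIndex f.ker * f.ker.index = 8 := by
    rw [Subgroup.relIndex_mul_index hle]
    exact h.idx
  have h2 : 8 ≤ f.ker.index := by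
    rw [Subgroup.index_ker]
    have hfin : Finite f.range := inferInstance
    let q : Fin 2 × Fin 2 × Fin 2 → f.range := fun p => ⟨f (pr h p.1 p.2.1 p.2.2), ⟨_, rfl⟩⟩
    have hq : Function.Injective q := by
      intro p p' hpp
      have h3 : f (pr h p.1 p.2.1 p.2.2) = f (pr h p'.1 p'.2.1 p'.2.2) := congrArg Subtype.val hpp
      have h4 : ∀ m, TT p.1 p.2.1 p.2.2 m = TT p'.1 p'.2.1 p'.2.2 m := by
        intro m
        have h4 := congrFun h3 m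
        rw [hf, hf] at h4
        have h5 := pr_val h (hφ1 m) (hφ2 m) p.1 p.2.1 p.2.2
        have h6 := pr_val h (hφ1 m) (hφ2 m) p'.1 p'.2.1 p'.2.2
        rw [h4, h6] at h5
        exact h5.symm
      obtain ⟨e1, e2, e3⟩ := TT_inj _ _ _ _ _ _ h4
      exact Prod.ext e1 (Prod.ext e2 e3)
    have := Nat.card_le_card_of_injective q hq
    simpa using this
  have h3 : S.relIndex f.ker = 1 := by
    have h4 : S.relIndex f.ker ≠ 0 := by
      intro h0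
      rw [h0, zero_mul] at h1
      exact absurd h1 (by decide)
    nlinarith [Nat.pos_of_ne_zero h4]
  have h4 : f.ker ≤ S := Subgroup.relIndex_eq_one.1 h3
  obtain ⟨i, j, k, e0, e1, e2⟩ := TT_surj (φ 0 u) (φ 1 u) (φ 2 u) ((u.isUnit.map (φ 0)).ne_zero)
    ((u.isUnit.map (φ 1)).ne_zero) ((u.isUnit.map (φ 2)).ne_zero)
  have h5 : f u = f (pr h i j k) := by
    funext m
    rw [hf, hf]
    apply Units.ext
    rw [pr_val h (hφ1 m) (hφ2 m), sg_val]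
    fin_cases m
    · exact e0.symm
    · exact e1.symm
    · exact e2.symm
  have h6 : (pr h i j k)⁻¹ * u ∈ f.ker := by
    rw [MonoidHom.mem_ker, map_mul, map_inv, h5, inv_mul_cancel]
  obtain ⟨s, hs⟩ := h4 h6
  refine ⟨i, j, k, s, ?_⟩
  have hs' : s ^ 2 = (pr h i j k)⁻¹ * u := hs
  rw [hs', mul_inv_cancel_left]

end

end Pool.Agent.K7.H73.NM
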