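import Pool.Agent.Y696.AlgF

/-!
# The twists `π ↦ u π` of `M[π]`
-/

set_option autoImplicit false
set_option linter.unusedSectionVars false

namespace Pool.Agent.K7.H73.NM

open IsDedekindDomain NumberField WithZero Pool.Agent.Y696

section tw
variable {M : Type} [CommRing M]

/-- the twist `π ↦ u π` -/
def tw (u : M) (hu : u ^ 3 = 1) : Cb M →+* Cb M where
  toFun x := ⟨x.a, u * x.b, u ^ 2 * x.c⟩
  map_one' := by ext <;> simp
  map_zero' := by ext <;> simp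
  map_add' x y := by ext <;> simp <;> ring
  map_mul' x y := by
    ext
    · simp only [Cb.mul_a]
      linear_combination -(2 * (x.b * y.c + x.c * y.b)) * hu
    · simp only [Cb.mul_b]
      linear_combination -(2 * (x.c * y.c) * u) * hu
    · simp only [Cb.mul_c]
      ring

variable {u : M} (hu : u ^ 3 = 1)

@[simp] lemma tw_a (x : Cb M) : (tw u hu x).a = x.a := rfl
@[simp] lemma tw_b (x : Cb M) : (tw u hu x).b = u * x.b := rfl
@[simp] lemma tw_c (x : Cb M) : (tw u hu x).c = u ^ 2 * x.c := rfl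

lemma N_tw (x : Cb M) : (tw u hu x).N = x.N := by
  simp only [Cb.N, tw_a, tw_b, tw_c]
  linear_combination (2 * x.b ^ 3 + 4 * x.c ^ 3 * (u ^ 3 + 1) - 6 * x.a * x.b * x.c) * hu

lemma ev_tw (x : Cb M) (a : M) : (tw u hu x).ev a = x.ev (u * a) := by
  simp only [Cb.ev, tw_a, tw_b, tw_c]
  ring

end tw

section val
variable {M : Type} [Field M] {u : M} (hu : u ^ 3 = 1) {v : Valuation M ℤᵐ⁰}

include hu in
lemma v_cube_one : v u = 1 := by
  apply pow_inj_of (e := 3) (by norm_num)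
  rw [← map_pow, hu, map_one, one_pow]

lemma EvV.tw {x : Cb M} (h : EvV v x) : EvV v (tw u hu x) := by
  obtain ⟨n, h⟩ := h
  refine ⟨n, fun a ha => ?_⟩
  rw [ev_tw]
  apply h
  rw [mul_pow, hu, one_mul]
  exact ha

lemma LvV.tw {x : Cb M} (h : LvV v x) : LvV v (tw u hu x) := by
  obtain ⟨s, hs, h1, h2, h3⟩ := h
  refine ⟨NM.tw u hu s, by rw [N_tw]; exact hs, ?_⟩
  rw [← map_pow, ← map_mul]
  refine ⟨?_, ?_, ?_⟩
  · rw [tw_a]; exact h1
  · rw [tw_b, map_mul, v_cube_one hu, one_mul]; exact h2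
  · rw [tw_c, map_mul, map_pow, v_cube_one hu, one_pow, one_mul]; exact h3

end val

section PA
variable {M : Type} [Field M] [NumberField M] {u : M} (hu : u ^ 3 = 1)

lemma PA_tw {x : Cb M} (h : PA x) : PA (tw u hu x) := by
  obtain ⟨h0, hr, h1, h2⟩ := h
  exact ⟨by rw [N_tw]; exact h0, by rw [N_tw]; exact hr, fun v hv => EvV.tw hu (h1 v hv),
    fun v hv => LvV.tw hu (h2 v hv)⟩

end PA

section dec
variable {M : Type} [Field M] [NumberField M] {w z : M} (hw : w ^ 2 + w + 1 = 0)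
  (σ : M ≃+* M) (hσ : ∀ x, σ (σ (σ x)) = x)

lemma w3 (hw : w ^ 2 + w + 1 = 0) : w ^ 3 = 1 := by linear_combination (w - 1) * hw

/-- twist by a cube root of unity composed with `σ` -/
noncomputable def rh (σ : M ≃+* M) (u : M) (hu : u ^ 3 = 1) : Cb M →+* Cb M :=
  (tw u hu).comp (Cb.map (σ : M →+* M))

@[simp] lemma rh_a (u : M) (hu : u ^ 3 = 1) (x : Cb M) : (rh σ u hu x).a = σ x.a := rfl
@[simp] lemma rh_b (u : M) (hu : u ^ 3 = 1) (x : Cb M) : (rh σ u hu x).b = u * σ x.b := rfl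
@[simp] lemma rh_c (u : M) (hu : u ^ 3 = 1) (x : Cb M) : (rh σ u hu x).c = u ^ 2 * σ x.c := rfl

lemma PA_rh {u : M} (hu : u ^ 3 = 1) {x : Cb M} (h : PA x) : PA (rh σ u hu x) :=
  PA_tw hu (h.aut σ)

lemma N_rh {u : M} (hu : u ^ 3 = 1) (x : Cb M) : (rh σ u hu x).N = σ x.N := by
  change (tw u hu (Cb.map (σ : M →+* M) x)).N = _
  rw [N_tw, Cb.N_map]
  rfl

include hσ in
lemma rh_cube {u : M} (hu : u ^ 3 = 1) (hσu : σ u = u) (x : Cb M) :
    rh σ u hu (rh σ u hu (rh σ u hu x)) = x := by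
  ext
  · simp [hσ]
  · simp only [rh_b, map_mul, hσu, hσ]
    linear_combination x.b * hu
  · simp only [rh_c, map_mul, map_pow, hσu, hσ]
    linear_combination x.c * (u ^ 3 + 1) * hu

/-- the component -/
noncomputable def cmp (σ : M ≃+* M) (u : M) (hu : u ^ 3 = 1) (x : Cb M) : Cb M :=
  x * rh σ u hu x * rh σ u hu (rh σ u hu x)

lemma PA_cmp {u : M} (hu : u ^ 3 = 1) {x : Cb M} (h : PA x) : PA (cmp σ u hu x) :=
  (h.mul (PA_rh σ hu h)).mul (PA_rh σ hu (PA_rh σ hu h))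

include hσ in
lemma rh_cmp {u : M} (hu : u ^ 3 = 1) (hσu : σ u = u) (x : Cb M) :
    rh σ u hu (cmp σ u hu x) = cmp σ u hu x := by
  rw [cmp, map_mul, map_mul, rh_cube σ hσ hu hσu]
  ring

lemma N_cmp {u : M} (hu : u ^ 3 = 1) {x : Cb M} {r : M} (hr : x.N = r ^ 2) :
    (cmp σ u hu x).N = (r * σ r * σ (σ r)) ^ 2 := by
  rw [cmp, Cb.N_mul, Cb.N_mul, N_rh, N_rh, N_rh, hr]
  simp only [map_pow]
  ring

lemma prod3 {M : Type} [CommRing M] {w : M} (hw : w ^ 2 + w + 1 = 0) (h1 : w ^ 3 = 1)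
    (h2 : (w ^ 2) ^ 3 = 1) (y : Cb M) :
    y * tw w h1 y * tw (w ^ 2) h2 y = Cb.C y.N := by
  obtain ⟨a, b, c⟩ := y
  have e2 : w ^ 2 = -w - 1 := by linear_combination hw
  ext
  · simp only [Cb.mul_a, Cb.mul_b, Cb.mul_c, tw_a, tw_b, tw_c, Cb.C_a, Cb.N]
    grind
  · simp only [Cb.mul_a, Cb.mul_b, Cb.mul_c, tw_a, tw_b, tw_c, Cb.C_b, Cb.N]
    grind
  · simp only [Cb.mul_a, Cb.mul_b, Cb.mul_c, tw_a, tw_b, tw_c, Cb.C_c, Cb.N]
    grind

lemma w23 {M : Type} [CommRing M] {w : M} (hw : w ^ 2 + w + 1 = 0) : (w ^ 2) ^ 3 = 1 := by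
  have h1 : w ^ 3 = 1 := by linear_combination (w - 1) * hw
  rw [← pow_mul, mul_comm, pow_mul, h1, one_pow]

lemma rh_one (x : Cb M) : rh σ 1 (one_pow 3) x = Cb.map (σ : M →+* M) x := by
  ext
  · rfl
  · rw [rh_b, one_mul]; rfl
  · rw [rh_c, one_pow, one_mul]; rfl

lemma prodr (hw : w ^ 2 + w + 1 = 0) (y : Cb M) :
    rh σ 1 (one_pow 3) y * rh σ w (w3 hw) y * rh σ (w ^ 2) (w23 hw) y = Cb.C (σ y.N) := by
  rw [rh_one]
  change Cb.map (σ : M →+* M) y * tw w (w3 hw) (Cb.map (σ : M →+* M) y) *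
    tw (w ^ 2) (w23 hw) (Cb.map (σ : M →+* M) y) = _
  rw [prod3 hw, Cb.N_map]
  rfl

lemma rh2 (hw : w ^ 2 + w + 1 = 0) (hσw : σ w = w) (y : Cb M) :
    rh σ 1 (one_pow 3) (rh σ 1 (one_pow 3) y) *
      rh σ w (w3 hw) (rh σ w (w3 hw) y) *
      rh σ (w ^ 2) (w23 hw) (rh σ (w ^ 2) (w23 hw) y) = Cb.C (σ (σ y.N)) := by
  have hw3 := w3 hw
  have h := prod3 hw hw3 (w23 hw) (Cb.map (σ : M →+* M) (Cb.map (σ : M →+* M) y))
  rw [Cb.N_map, Cb.N_map] at h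
  rw [rh_one, rh_one]
  have e1 : rh σ w (w3 hw) (rh σ w (w3 hw) y) =
      tw (w ^ 2) (w23 hw) (Cb.map (σ : M →+* M) (Cb.map (σ : M →+* M) y)) := by
    ext
    · rfl
    · simp only [rh_b, tw_b, Cb.map_b', map_mul, hσw, RingHom.coe_coe]
      ring
    · simp only [rh_c, tw_c, Cb.map_c', map_mul, map_pow, hσw, RingHom.coe_coe]
      ring
  have e2 : rh σ (w ^ 2) (w23 hw) (rh σ (w ^ 2) (w23 hw) y) =
      tw w hw3 (Cb.map (σ : M →+* M) (Cb.map (σ : M →+* M) y)) := by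
    ext
    · rfl
    · simp only [rh_b, tw_b, Cb.map_b', map_mul, map_pow, hσw, RingHom.coe_coe]
      linear_combination (w * σ (σ y.b)) * hw3
    · simp only [rh_c, tw_c, Cb.map_c', map_mul, map_pow, hσw, RingHom.coe_coe]
      linear_combination (w ^ 2 * σ (σ y.c) * (w ^ 3 + 1)) * hw3
  rw [e1, e2, mul_assoc, mul_comm (tw (w ^ 2) _ _), ← mul_assoc, h]
  rfl

/-- the product of the three components is `x` up to a square -/
lemma prod_cmp (hw : w ^ 2 + w + 1 = 0) (hσw : σ w = w) {x : Cb M} {r : M} (hr : x.N = r ^ 2) :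
    cmp σ 1 (one_pow 3) x * cmp σ w (w3 hw) x * cmp σ (w ^ 2) (w23 hw) x =
      x * (x * Cb.C (σ r * σ (σ r))) ^ 2 := by
  have h1 := prodr σ hw x
  have h2 := rh2 σ hw hσw x
  have e : cmp σ 1 (one_pow 3) x * cmp σ w (w3 hw) x * cmp σ (w ^ 2) (w23 hw) x =
      x ^ 3 * (rh σ 1 (one_pow 3) x * rh σ w (w3 hw) x * rh σ (w ^ 2) (w23 hw) x) *
      (rh σ 1 (one_pow 3) (rh σ 1 (one_pow 3) x) *
      rh σ w (w3 hw) (rh σ w (w3 hw) x) *
      rh σ (w ^ 2) (w23 hw) (rh σ (w ^ 2) (w23 hw) x)) := by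
    simp only [cmp]
    ring
  rw [e, h1, h2, hr]
  simp only [map_pow, map_mul]
  ring

/-- a product of squares is a square -/
lemma sq_of_cmp (hw : w ^ 2 + w + 1 = 0) (hσw : σ w = w) {x : Cb M} (hx : PA x)
    (h0 : IsSquare (cmp σ 1 (one_pow 3) x)) (h1 : IsSquare (cmp σ w (w3 hw) x))
    (h2 : IsSquare (cmp σ (w ^ 2) (w23 hw) x)) : IsSquare x := by
  obtain ⟨hN, ⟨r, hr⟩, -, -⟩ := hx
  have h := prod_cmp σ hw hσw hr
  obtain ⟨s, hs⟩ := (h0.mul h1).mul h2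
  have hr0 : r ≠ 0 := by
    rintro rfl
    exact hN (by rw [hr]; ring)
  have hyN : (x * Cb.C (σ r * σ (σ r))).N ≠ 0 := by
    rw [Cb.N_mul, Cb.N_C]
    refine mul_ne_zero hN (pow_ne_zero _ (mul_ne_zero ?_ ?_))
    · exact (map_ne_zero _).2 hr0
    · exact (map_ne_zero _).2 ((map_ne_zero _).2 hr0)
  obtain ⟨t, -, ht⟩ := Cb_inv hyN
  refine ⟨s * t, ?_⟩
  have e : x = x * (x * Cb.C (σ r * σ (σ r))) ^ 2 * t ^ 2 := by
    rw [mul_assoc, ← mul_pow, ht, one_pow, mul_one]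
  rw [e, ← h, hs]
  ring

end dec

end Pool.Agent.K7.H73.NM
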