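import Pool.Agent.K7.H73.NM.G

/-!
# The twisted component is a square
-/

set_option autoImplicit false
set_option linter.unusedSectionVars false

namespace Pool.Agent.K7.H73.NM

open IsDedekindDomain NumberField WithZero Pool.Agent.Y696 Module Polynomial

section adj
variable {F : Type} [Field F] [NumberField F] {w : F}

/-- a cyclic cubic extension with the universal property -/
lemma exists_adj (h2 : finrank ℚ F = 2) (hw : w ^ 2 + w + 1 = 0) :
    ∃ (A : Type) (_ : Field A) (_ : NumberField A) (_ : Algebra F A) (θ : A),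
      finrank F A = 3 ∧ θ ^ 3 = algebraMap F A (2 * w) ∧
      ∀ (B : Type) [CommRing B] (φ : F →+* B) (t : B), t ^ 3 = φ (2 * w) →
        ∃ Φ : A →+* B, (∀ x, Φ (algebraMap F A x) = φ x) ∧ Φ θ = t := by
  have hirr : Irreducible (X ^ 3 - C (2 * w)) :=
    X_pow_sub_C_irreducible_of_prime Nat.prime_three (no_cube2w h2 hw)
  have hm : (X ^ 3 - C (2 * w)).Monic := monic_X_pow_sub_C _ (by norm_num)
  have : Fact (Irreducible (X ^ 3 - C (2 * w))) := ⟨hirr⟩
  let A := AdjoinRoot (X ^ 3 - C (2 * w))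
  have hfr : finrank F A = 3 := by
    have := (AdjoinRoot.powerBasis' hm).finrank
    rw [this, AdjoinRoot.powerBasis'_dim]
    exact natDegree_X_pow_sub_C
  have hc : CharZero A := charZero_of_injective_ringHom (algebraMap F A).injective
  have hfin : Module.Finite F A := Module.finite_of_finrank_pos (by rw [hfr]; norm_num)
  have : IsScalarTower ℚ F A := by
    refine IsScalarTower.of_algebraMap_eq' ?_
    exact Subsingleton.elim _ _
  have hfinQ : Module.Finite ℚ A := Module.Finite.trans F A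
  have hnf : NumberField A := { to_charZero := hc, to_finiteDimensional := hfinQ }
  refine ⟨A, inferInstance, hnf, inferInstance, AdjoinRoot.root _, hfr, ?_, ?_⟩
  · have h := AdjoinRoot.eval₂_root (X ^ 3 - C (2 * w))
    rw [eval₂_sub, eval₂_pow, eval₂_X, eval₂_C] at h
    exact sub_eq_zero.1 h
  · intro B _ φ t ht
    have h : (X ^ 3 - C (2 * w)).eval₂ φ t = 0 := by
      rw [eval₂_sub, eval₂_pow, eval₂_X, eval₂_C, ht, sub_self]
    exact ⟨AdjoinRoot.lift φ t h, fun x => AdjoinRoot.lift_of h, AdjoinRoot.lift_root h⟩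

end adj

section T
variable {F : Type} [Field F] [NumberField F] [IsCyclotomicExtension {3} ℚ F]
  {A : Type} [Field A] [NumberField A] [Algebra F A] {w : F} {θ : A}

lemma fr_F : finrank ℚ F = 2 := by
  rw [IsCyclotomicExtension.finrank (n := 3) F (Polynomial.cyclotomic.irreducible_rat (by norm_num))]
  rfl

/-- coordinates -/
lemma coordA (h3 : finrank F A = 3) (hw : w ^ 2 + w + 1 = 0)
    (hθ : θ ^ 3 = algebraMap F A (2 * w)) (x : A) :
    ∃ a b c : F, x = algebraMap F A a + algebraMap F A b * θ + algebraMap F A c * θ ^ 2 := by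
  obtain ⟨b, hb⟩ := exists_bA fr_F h3 hw hθ
  refine ⟨b.repr x 0, b.repr x 1, b.repr x 2, ?_⟩
  conv_lhs => rw [← b.sum_repr x]
  rw [Fin.sum_univ_three, hb, hb, hb]
  simp [Algebra.smul_def]

lemma coord_zero (h3 : finrank F A = 3) (hw : w ^ 2 + w + 1 = 0)
    (hθ : θ ^ 3 = algebraMap F A (2 * w)) {a b c : F}
    (h : algebraMap F A a + algebraMap F A b * θ + algebraMap F A c * θ ^ 2 = 0) :
    a = 0 ∧ b = 0 ∧ c = 0 := by
  obtain ⟨B, hB⟩ := exists_bA fr_F h3 hw hθ
  have h1 := B.linearIndependent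
  rw [Fintype.linearIndependent_iff] at h1
  have h2 := h1 ![a, b, c] (by
    rw [Fin.sum_univ_three, hB, hB, hB]
    simp [Algebra.smul_def]
    simpa using h)
  exact ⟨h2 0, h2 1, h2 2⟩

/-- the automorphism `θ ↦ w θ` -/
lemma exists_tau (h3 : finrank F A = 3) (hw : w ^ 2 + w + 1 = 0)
    (hθ : θ ^ 3 = algebraMap F A (2 * w))
    (huniv : ∀ (B : Type) [CommRing B] (φ : F →+* B) (t : B), t ^ 3 = φ (2 * w) →
        ∃ Φ : A →+* B, (∀ x, Φ (algebraMap F A x) = φ x) ∧ Φ θ = t) :
    ∃ τ : A ≃+* A, (∀ x, τ (algebraMap F A x) = algebraMap F A x) ∧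
      τ θ = algebraMap F A w * θ ∧ (∀ x, τ (τ (τ x)) = x) ∧
      (∀ x, τ x = x → ∃ f : F, algebraMap F A f = x) := by
  have hw3 : (algebraMap F A w) ^ 3 = 1 := by rw [← map_pow, w3 hw, map_one]
  obtain ⟨t, ht1, ht2⟩ := huniv A (algebraMap F A) (algebraMap F A w * θ) (by
    rw [mul_pow, hw3, one_mul, hθ])
  have htw : t (algebraMap F A w * θ) = algebraMap F A w * (algebraMap F A w * θ) := by
    rw [map_mul, ht1, ht2]
  have htww : t (algebraMap F A w * (algebraMap F A w * θ)) = θ := by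
    rw [map_mul, htw, ht1]
    linear_combination θ * hw3
  have h33 : ∀ x, t (t (t x)) = x := by
    intro x
    obtain ⟨a, b, c, rfl⟩ := coordA h3 hw hθ x
    simp only [map_add, map_mul, map_pow, ht1, ht2]
    linear_combination (algebraMap F A b * θ + algebraMap F A c * θ ^ 2 *
      (algebraMap F A w ^ 3 + 1)) * hw3
  let τ : A ≃+* A := RingEquiv.ofRingHom t (t.comp t) (RingHom.ext fun x => h33 x)
    (RingHom.ext fun x => h33 x)
  refine ⟨τ, ht1, ht2, h33, ?_⟩
  intro x hx
  obtain ⟨a, b, c, rfl⟩ := coordA h3 hw hθ x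
  have hx' : t (algebraMap F A a + algebraMap F A b * θ + algebraMap F A c * θ ^ 2) =
      algebraMap F A a + algebraMap F A b * θ + algebraMap F A c * θ ^ 2 := hx
  simp only [map_add, map_mul, map_pow, ht1, ht2] at hx'
  have h5 : algebraMap F A 0 + algebraMap F A ((w - 1) * b) * θ +
      algebraMap F A ((w ^ 2 - 1) * c) * θ ^ 2 = 0 := by
    simp only [map_mul, map_sub, map_pow, map_one, map_zero]
    linear_combination hx'
  obtain ⟨-, hb, hc⟩ := coord_zero h3 hw hθ h5
  have hw1 : w - 1 ≠ 0 := by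
    intro h
    have : w = 1 := sub_eq_zero.1 h
    rw [this] at hw
    norm_num at hw
  have hw2 : w ^ 2 - 1 ≠ 0 := by
    intro h
    have h6 : w = -2 := by linear_combination hw - h
    rw [h6] at hw
    norm_num at hw
  rw [mul_eq_zero] at hb hc
  refine ⟨a, ?_⟩
  rw [hb.resolve_left hw1, hc.resolve_left hw2]
  simp

end T

end Pool.Agent.K7.H73.NM
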