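import Pool.Agent.K7.H73.NM.H

/-!
# The twisted component is a square (conclusion)
-/

set_option autoImplicit false
set_option linter.unusedSectionVars false
set_option linter.unusedSimpArgs false

namespace Pool.Agent.K7.H73.NM

open IsDedekindDomain NumberField WithZero Pool.Agent.Y696 Module

section loc2
variable {M : Type} [Field M] [NumberField M]

/-- the condition at two excludes elements with a unit coefficient at `π` -/
lemma not_two {v : Valuation M ℤᵐ⁰} (hv : v 2 = exp (-1 : ℤ)) {e s : Cb M}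
    (h : LvV v (e * s ^ 2)) (hs : s.N ≠ 0) (ha : v e.a = 1) (hb : v e.b = 1) (hc : v e.c ≤ 1) :
    False := by
  have h2 : v 2 < 1 := by rw [hv, ← exp_zero, exp_lt_exp]; omega
  obtain ⟨t, ht, hst⟩ := Cb_inv hs
  have h3 : LvV v (e * s ^ 2 * t ^ 2) := h.mul h2 (LvV.sq _ ht)
  rw [mul_assoc, ← mul_pow, hst, one_pow, mul_one] at h3
  have h4 := LvV.b_lt hv ⟨ha, hb.le, hc⟩ h3
  rw [hb] at h4
  exact lt_irrefl _ h4

end loc2

section T
variable {F M : Type} [Field F] [NumberField F] [IsCyclotomicExtension {3} ℚ F]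
  [Field M] [NumberField M] [Algebra F M] {w : F} {z : M}

theorem twist_sq (hw : w ^ 2 + w + 1 = 0) (hz : z ^ 3 = algebraMap F M w)
    (hM : ∀ p : ℕ, p.Prime → p ≠ 3 → ∀ Q : HeightOneSpectrum (𝓞 M), (p : 𝓞 M) ∈ Q.asIdeal →
      Q.valuation M (p : M) = exp (-1 : ℤ))
    (f0 f1 f2 r : F)
    (hP : PA (⟨algebraMap F M f0, algebraMap F M f1 * z, algebraMap F M f2 * z ^ 2⟩ : Cb M))
    (hr : (⟨algebraMap F M f0, algebraMap F M f1 * z, algebraMap F M f2 * z ^ 2⟩ : Cb M).N =
      algebraMap F M r ^ 2) :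
    IsSquare (⟨algebraMap F M f0, algebraMap F M f1 * z, algebraMap F M f2 * z ^ 2⟩ : Cb M) := by
  obtain ⟨A, iA1, iA2, iA3, θ, h3, hθ, huniv⟩ := exists_adj (fr_F (F := F)) hw
  obtain ⟨τ, hτF, hτθ, hτ3, hfix⟩ := exists_tau h3 hw hθ huniv
  have hNF : f0 ^ 3 + 2 * w * f1 ^ 3 + 4 * w ^ 2 * f2 ^ 3 - 6 * w * f0 * f1 * f2 = r ^ 2 := by
    apply (algebraMap F M).injective
    rw [map_pow, ← hr]
    simp only [Cb.N, map_add, map_sub, map_mul, map_pow, map_ofNat]
    rw [← hz]
    ring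
  set δ := algebraMap F A f0 + algebraMap F A f1 * θ + algebraMap F A f2 * θ ^ 2 with hδ
  have hδ0 : δ ≠ 0 := by
    intro h
    obtain ⟨h4, h5, h6⟩ := coord_zero h3 hw hθ h
    apply hP.1
    rw [h4, h5, h6]
    simp [Cb.N]
  have hNA : Algebra.norm F δ = r ^ 2 := by
    rw [hδ, normA fr_F h3 hw hθ, ← hNF]
  have hprod : δ * τ δ * τ (τ δ) = (algebraMap F A r) ^ 2 := by
    rw [← map_pow, ← hNF, hδ]
    simp only [map_add, map_sub, map_mul, map_pow, map_ofNat, hτF, hτθ]
    have hw' : (algebraMap F A w) ^ 2 + algebraMap F A w + 1 = 0 := by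
      have := congrArg (algebraMap F A) hw
      simpa using this
    have hθ' : θ ^ 3 = 2 * algebraMap F A w := by
      rw [hθ, map_mul, map_ofNat]
    generalize algebraMap F A w = W at *
    generalize algebraMap F A f0 = x at *
    generalize algebraMap F A f1 = y at *
    generalize algebraMap F A f2 = u at *
    clear * - hw' hθ'
    grind
  have hv := even_glob hw hθ hz hM τ hτ3 hfix f0 f1 f2 hδ0 ⟨_, hprod⟩ hP.2.2.1
  obtain ⟨j, k, s, hs⟩ := even_cls fr_F h3 hw hθ hδ0 ⟨r, hNA⟩ hv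
  have hzw : (Cb.C z * Cb.pi : Cb M) ^ 3 = (Cb.C : M →+* Cb M).comp (algebraMap F M) (2 * w) := by
    rw [mul_pow, Cb.pi_cube, ← map_pow, hz, RingHom.comp_apply, map_mul, map_ofNat, map_mul,
      map_ofNat]
    ring
  obtain ⟨Φ, hΦ1, hΦ2⟩ := huniv (Cb M) ((Cb.C : M →+* Cb M).comp (algebraMap F M))
    (Cb.C z * Cb.pi) hzw
  have hΦδ : Φ δ = ⟨algebraMap F M f0, algebraMap F M f1 * z, algebraMap F M f2 * z ^ 2⟩ := by
    rw [hδ]
    simp only [map_add, map_mul, map_pow, hΦ1, hΦ2, RingHom.comp_apply]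
    ext <;> simp [pow_two]
  have hΦs : (Φ s).N ≠ 0 := by
    intro h
    apply hP.1
    rw [← hΦδ, hs, map_mul, map_pow, Cb.N_mul, pow_two (Φ s), Cb.N_mul, h, mul_zero, mul_zero]
  -- a place above two
  obtain ⟨v, hv2⟩ : ∃ v : HeightOneSpectrum (𝓞 M), ((2 : ℕ) : 𝓞 M) ∈ v.asIdeal := by
    have hmax : (spZ Nat.prime_two).asIdeal.IsMaximal :=
      (spZ Nat.prime_two).isPrime.isMaximal (spZ Nat.prime_two).ne_bot
    obtain ⟨P, hPm, hlo⟩ := Ideal.exists_maximal_ideal_liesOver_of_isIntegral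
      (spZ Nat.prime_two).asIdeal (S := 𝓞 M)
    refine ⟨⟨P, hPm.isPrime, Ideal.ne_bot_of_liesOver_of_ne_bot (spZ Nat.prime_two).ne_bot P⟩, ?_⟩
    have h1 : (2 : ℤ) ∈ P.under ℤ := by
      rw [← hlo.over]
      exact Ideal.mem_span_singleton_self _
    rw [Ideal.under_def, Ideal.mem_comap] at h1
    simpa using h1
  have hvv : v.valuation M 2 = exp (-1 : ℤ) := by
    have := hM 2 Nat.prime_two (by norm_num) v hv2
    exact_mod_cast this
  have hL := hP.2.2.2 v hv2
  rw [← hΦδ, hs, map_mul, map_pow] at hL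
  set W := algebraMap F M w with hW
  have hW' : W ^ 2 + W + 1 = 0 := by
    have := congrArg (algebraMap F M) hw
    simpa using this
  have hW3 : W ^ 3 = 1 := w3 hW'
  have hvW : v.valuation M W = 1 := v_cube_one hW3
  have hvz : v.valuation M z = 1 := by
    apply pow_inj_of (e := 3) (by norm_num)
    rw [← map_pow, hz, hvW, one_pow]
  have hv3 : v.valuation M (1 + 2 * W) = 1 := by
    rw [Valuation.map_add_eq_of_lt_left]
    · rw [map_one]
    · rw [map_one, map_mul, hvW, mul_one, hvv, ← exp_zero, exp_lt_exp]; omega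
  have e1 : Φ (et1 (algebraMap F A w) θ) = ⟨-(1 + 2 * W), W ^ 2 * z, -z ^ 2⟩ := by
    simp only [et1, map_add, map_sub, map_neg, map_mul, map_pow, map_one, map_ofNat, hΦ1, hΦ2,
      RingHom.comp_apply]
    ext
    · simp [pow_two, hW]; ring
    · simp [pow_two, hW]
    · simp [pow_two, hW]
  have e2 : Φ (et2 (algebraMap F A w) θ) = ⟨-(1 + 2 * W), z, -(W ^ 2 * z ^ 2)⟩ := by
    simp only [et2, map_add, map_sub, map_neg, map_mul, map_pow, map_one, map_ofNat, hΦ1, hΦ2,
      RingHom.comp_apply]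
    ext
    · simp [pow_two, hW]; ring
    · simp [pow_two, hW]
    · simp [pow_two, hW]
  have e3 : Φ (et1 (algebraMap F A w) θ) * Φ (et2 (algebraMap F A w) θ) =
      ⟨-1, -(W * z), z ^ 2⟩ := by
    rw [e1, e2]
    have hz' : z ^ 3 = W := hz
    ext
    · simp only [Cb.mul_a]
      clear * - hW' hz' hW3
      grind
    · simp only [Cb.mul_b]
      clear * - hW' hz' hW3
      grind
    · simp only [Cb.mul_c]
      clear * - hW' hz' hW3
      grind
  have hvn : v.valuation M (-(1 + 2 * W)) = 1 := by rw [Valuation.map_neg, hv3]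
  fin_cases j <;> fin_cases k
  · refine ⟨Φ s, ?_⟩
    rw [← hΦδ, hs]
    simp [pow_two]
  · exfalso
    simp only [Fin.zero_eta, Fin.mk_one, Fin.val_zero, Fin.val_one, pow_zero, pow_one, one_mul] at hL
    rw [e2] at hL
    refine not_two hvv hL hΦs hvn hvz ?_
    rw [Valuation.map_neg, map_mul, map_pow, map_pow, hvW, hvz]
    simp
  · exfalso
    simp only [Fin.zero_eta, Fin.mk_one, Fin.val_zero, Fin.val_one, pow_zero, pow_one, mul_one] at hL
    rw [e1] at hL
    refine not_two hvv hL hΦs hvn ?_ ?_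
    · rw [map_mul, map_pow, hvW, hvz]; simp
    · rw [Valuation.map_neg, map_pow, hvz]; simp
  · exfalso
    simp only [Fin.mk_one, Fin.val_one, pow_one] at hL
    rw [map_mul, e3] at hL
    refine not_two hvv hL hΦs ?_ ?_ ?_
    · rw [Valuation.map_neg, map_one]
    · rw [Valuation.map_neg, map_mul, hvW, hvz, one_mul]
    · rw [map_pow, hvz]; simp

end T

end Pool.Agent.K7.H73.NM
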