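import Pool.Agent.Y696.Val1
import Pool.Agent.Y696.Sum

/-!
# Values at the point `Ω / (3 √-3)`
-/

set_option autoImplicit false
set_option linter.unusedSectionVars false

open Complex Filter Topology
open scoped PeriodPair

namespace Pool.Agent.K7.H73.NM

open H667R3 Pool.Agent.Y696 Pool.Agent.W192.HK Pool.Agent.TH936.CM Pool.Agent.TH936.PU
open Pool.Agent.W192.CM (nu)

/-- the square root of minus three -/
noncomputable def lm : eis := 1 + 2 * omr

lemma lm_coe : (lm : ℂ) = 1 + 2 * om := by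
  have h2 : ((2 : eis) : ℂ) = 2 := rfl
  unfold lm
  push_cast
  rw [h2, omr_coe]

lemma lm_sq : lm ^ 2 = -3 := by
  unfold lm
  linear_combination 4 * omr_sq

lemma lm_sqC : (lm : ℂ) ^ 2 = -3 := by
  rw [lm_coe]
  linear_combination 4 * om_sq

lemma lm_ne : lm ≠ 0 := by
  intro h
  have := lm_sq
  rw [h] at this
  have h3 : (3 : eis) = 0 := by linear_combination this
  exact three_ne h3

variable {L : PeriodPair} {Ω : ℂ} (hC : Cur L Ω)

include hC

/-- the coordinate of `λ z` -/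
lemma dwp_lm {z : ℂ} (hz : 2 * z ∉ L.lattice) (hl : (lm : ℂ) * z ∉ L.lattice) :
    ℘[L] z ≠ 0 ∧ 3 * lm * ℘[L] z ^ 3 * ℘'[L] (lm * z) = ℘'[L] z * (2 - ℘[L] z ^ 3) := by
  have hom : om ^ 2 + om + 1 = 0 := om_sq
  have hom3 := om_cube
  have hom0 := om_ne
  have hz1 : z ∉ L.lattice := two_mul_notMem_of L hz
  have hu2 : IsUnit (-(omr ^ 2)) := (unit_list _).2 (by simp)
  have e1 : ℘[L] (om * z) = om * ℘[L] z := by
    have := wp_unit hC.lat omr_unit z
    rw [omr_coe] at this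
    rw [this]
    congr 1
    refine inv_eq_of_mul_eq_one_right ?_
    linear_combination hom3
  have e2 : ℘'[L] (om * z) = ℘'[L] z := by
    have := dwp_unit hC.lat omr_unit z
    rw [omr_coe, hom3, inv_one, one_mul] at this
    exact this
  have c2 : ((-(omr ^ 2) : eis) : ℂ) = -om ^ 2 := by push_cast; rw [omr_coe]
  have e3 : ℘[L] (-om ^ 2 * z) = om ^ 2 * ℘[L] z := by
    have := wp_unit hC.lat hu2 z
    rw [c2] at this
    rw [this]
    congr 1
    refine inv_eq_of_mul_eq_one_right ?_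
    linear_combination (om ^ 3 + 1) * hom3
  have e4 : ℘'[L] (-om ^ 2 * z) = -℘'[L] z := by
    have := dwp_unit hC.lat hu2 z
    rw [c2] at this
    rw [this]
    have : ((-om ^ 2) ^ 3)⁻¹ = (-1 : ℂ) := by
      have : (-om ^ 2) ^ 3 = (-1 : ℂ) := by linear_combination -(om ^ 3 + 1) * hom3
      rw [this]
      norm_num
    rw [this]
    ring
  have k1 : 2 * (om * z) ∉ L.lattice := by
    have := (lat_unit hC.lat omr_unit (2 * z)).not.2 hz
    rw [omr_coe] at this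
    rwa [show om * (2 * z) = 2 * (om * z) by ring] at this
  have k2 : -om ^ 2 * z ∉ L.lattice := by
    have := (lat_unit hC.lat hu2 z).not.2 hz1
    rwa [c2] at this
  have k3 : om * z + -om ^ 2 * z = lm * z := by
    rw [lm_coe]
    linear_combination (-z) * hom
  have k4 : om * z - -om ^ 2 * z = -z := by linear_combination z * hom
  have k5 : om * z - -om ^ 2 * z ∉ L.lattice := by
    rw [k4]
    exact fun h => hz1 (by simpa using neg_mem h)
  have hne : ℘[L] (om * z) - ℘[L] (-om ^ 2 * z) ≠ 0 :=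
    wp_sub_ne (two_mul_notMem_of L k1) k2 (by rw [k3]; exact hl) k5
  rw [e1, e3] at hne
  have hp : ℘[L] z ≠ 0 := by
    intro h
    apply hne
    rw [h]
    ring
  refine ⟨hp, ?_⟩
  have hadd := wp'_add L k1 k2 (by rw [k3]; exact hl) k5
  rw [k3, e1, e2, e3, e4, hC.g2] at hadd
  have hode := hC.ode hz1
  have hom1 : om - om ^ 2 ≠ 0 := by
    intro h
    apply hne
    linear_combination ℘[L] z * h
  have h6 : om * ℘[L] z - om ^ 2 * ℘[L] z = lm * ℘[L] z := by
    rw [lm_coe]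
    linear_combination (-℘[L] z) * hom
  rw [h6] at hadd
  have hl0 : (lm : ℂ) ≠ 0 := coe_ne lm_ne
  have hl2 := lm_sqC
  have hlo := lm_coe
  rw [hadd]
  set p := ℘[L] z
  set q := ℘'[L] z
  set l := (lm : ℂ)
  have hlo' : om = (l - 1) / 2 := by rw [hlo]; ring
  rw [hlo']
  field_simp
  clear * - hode hl2
  grind

/-- the point -/
noncomputable def zz (Ω : ℂ) : ℂ := Ω / (3 * (lm : ℂ))

/-- the point of the kernel -/
noncomputable def tt (Ω : ℂ) : ℂ := Ω / (lm : ℂ)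

omit hC in
lemma lm_neC : (lm : ℂ) ≠ 0 := coe_ne lm_ne

omit hC in
lemma lm_zz : (lm : ℂ) * zz Ω = Ω / 3 := by
  have := lm_neC
  unfold zz
  field_simp

omit hC in
lemma lm_tt : (lm : ℂ) * tt Ω = Ω := by
  have := lm_neC
  unfold tt
  field_simp

lemma om_lat : Ω ∈ L.lattice := (hC.lat.mem Ω).2 ⟨1, by push_cast; ring⟩

lemma lm_mul {z : ℂ} (h : z ∈ L.lattice) : (lm : ℂ) * z ∈ L.lattice := hC.lat.mul lm _ h

lemma zz_nm : zz Ω ∉ L.lattice := by
  intro h
  apply hC.third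
  rw [← lm_zz]
  exact lm_mul hC h

lemma zz_two : 2 * zz Ω ∉ L.lattice := by
  intro h
  apply hC.third_two
  have := lm_mul hC h
  rwa [show (lm : ℂ) * (2 * zz Ω) = 2 * ((lm : ℂ) * zz Ω) by ring, lm_zz] at this

lemma zz_add : zz Ω + tt Ω ∉ L.lattice := by
  intro h
  apply hC.third
  have := sub_mem (lm_mul hC h) (om_lat hC)
  rwa [mul_add, lm_zz, lm_tt, add_sub_cancel_right] at this

lemma zz_sub : zz Ω - tt Ω ∉ L.lattice := by
  intro h
  apply hC.third
  have := add_mem (lm_mul hC h) (om_lat hC)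
  rwa [mul_sub, lm_zz, lm_tt, sub_add_cancel] at this

lemma tt_nm : tt Ω ∉ L.lattice := by
  intro h
  have h1 := (hC.div_iff lm_ne 1).1 (by
    have : Ω * ((1 : eis) : ℂ) / lm = tt Ω := by
      unfold tt
      push_cast
      rw [mul_one]
    rw [this]
    exact h)
  rw [Ideal.mem_span_singleton] at h1
  obtain ⟨c, hc⟩ := h1
  have h2 : (1 : eis) = -3 * c ^ 2 := by
    have := congrArg (fun x => x ^ 2) hc
    simp only [one_pow, mul_pow, lm_sq] at this
    exact this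
  have h3 : IsUnit (3 : eis) := IsUnit.of_mul_eq_one (-c ^ 2) (by linear_combination -h2)
  rw [isUnit_iff'] at h3
  have : Complex.normSq ((3 : eis) : ℂ) = 9 := normSq_three
  rw [this] at h3
  norm_num at h3

lemma om_tt : om * tt Ω - tt Ω ∈ L.lattice := by
  have h : om * tt Ω - tt Ω = Ω * ((1 + omr : eis) : ℂ) := by
    have h1 := lm_neC
    have h2 : ((1 + omr : eis) : ℂ) = 1 + om := by push_cast; rw [omr_coe]
    have h3 : om - 1 = (lm : ℂ) * (1 + om) := by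
      rw [lm_coe]
      linear_combination (-2) * om_sq
    rw [h2]
    unfold tt
    have h4 : om * (Ω / lm) - Ω / lm = Ω * (om - 1) / lm := by ring
    rw [h4, h3]
    field_simp
  rw [h]
  exact hC.lat.mem_mul _

lemma tt_three : 3 * tt Ω ∈ L.lattice := by
  have h : 3 * tt Ω = Ω * ((-lm : eis) : ℂ) := by
    have h1 := lm_neC
    have h2 := lm_sqC
    unfold tt
    push_cast
    field_simp
    linear_combination Ω * h2
  rw [h]
  exact hC.lat.mem_mul _

/-- the first coordinate of the kernel point vanishes -/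
lemma wp_tt : ℘[L] (tt Ω) = 0 := by
  have h1 : ℘[L] (om * tt Ω) = ℘[L] (tt Ω) := wp_per (om_tt hC)
  have h2 := wp_unit hC.lat omr_unit (tt Ω)
  rw [omr_coe, h1] at h2
  have h3 : om ^ 2 ≠ 0 := pow_ne_zero 2 om_ne
  have h4 : (om ^ 2 - 1) * ℘[L] (tt Ω) = 0 := by
    rw [eq_inv_mul_iff_mul_eq₀ h3] at h2
    linear_combination h2
  rcases mul_eq_zero.1 h4 with h5 | h5
  · exfalso
    have h6 : om = -2 := by linear_combination om_sq - h5
    have := om_im
    rw [h6] at this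
    norm_num at this
  · exact h5

lemma dwp_tt : ℘'[L] (tt Ω) ^ 2 = 1 := by
  rw [hC.ode (tt_nm hC), wp_tt hC]
  norm_num

omit hC in
lemma EE_unit {u : eis} (hu : IsUnit u) (δ : ℝ) (z : ℂ) :
    EE eis Ω δ (u * z) = (u : ℂ)⁻¹ * EE eis Ω δ z := by
  obtain ⟨v, rfl⟩ := hu
  unfold EE
  rw [← tsum_mul_left, ← (Units.mulLeft v).tsum_eq (fun β : eis => fd δ (((v : eis) : ℂ) * z + Ω * β))]
  refine tsum_congr fun β => ?_
  have e : ((v : eis) : ℂ) * z + Ω * ((Units.mulLeft v β : eis) : ℂ) =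
      ((v : eis) : ℂ) * (z + Ω * β) := by
    rw [Units.mulLeft_apply]
    push_cast
    ring
  rw [e, fd_mul, (isUnit_iff' _).1 v.isUnit, mul_one]

lemma EE_tt (δ : ℝ) : EE eis Ω δ (tt Ω) = 0 := by
  have h1 : EE eis Ω δ (om * tt Ω) = EE eis Ω δ (tt Ω) := EE_per hC.lat δ (om_tt hC)
  have h2 := EE_unit (Ω := Ω) omr_unit δ (tt Ω)
  rw [omr_coe, h1, eq_inv_mul_iff_mul_eq₀ om_ne] at h2
  have h4 : (om - 1) * EE eis Ω δ (tt Ω) = 0 := by linear_combination h2
  rcases mul_eq_zero.1 h4 with h5 | h5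
  · exfalso
    have h6 : om = 1 := by linear_combination h5
    have := om_im
    rw [h6] at this
    norm_num at this
  · exact h5

/-- the limit of the sum over the translates -/
theorem lim_val {ζ : ℂ} (hζ : ζ ^ 2 + ζ + 1 = 0) :
    Tendsto (fun δ : ℝ => EE eis Ω δ (zz Ω) + ζ * EE eis Ω δ (zz Ω + tt Ω) +
      ζ ^ 2 * EE eis Ω δ (zz Ω - tt Ω)) (𝓝[>] 0)
      (𝓝 (-(℘'[L] (zz Ω) + (ζ - ζ ^ 2) * ℘'[L] (tt Ω)) / (2 * ℘[L] (zz Ω)))) := by
  have h1 := lim_Dd hC.lat (zz_nm hC) (tt_nm hC) (zz_add hC) (zz_sub hC)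
  have h2 := lim_Dd hC.lat (tt_nm hC) (zz_nm hC) (by rw [add_comm]; exact zz_add hC) (by
    intro h
    apply zz_sub hC
    have := neg_mem h
    rwa [neg_sub] at this)
  have h3 := (h1.const_mul (-1 / 2)).add (h2.const_mul ((ζ - ζ ^ 2) / 2))
  have e : -1 / 2 * Dd L (zz Ω) (tt Ω) + (ζ - ζ ^ 2) / 2 * Dd L (tt Ω) (zz Ω) =
      -(℘'[L] (zz Ω) + (ζ - ζ ^ 2) * ℘'[L] (tt Ω)) / (2 * ℘[L] (zz Ω)) := by
    have hp : ℘[L] (zz Ω) ≠ 0 := (dwp_lm hC (zz_two hC) (by rw [lm_zz]; exact hC.third)).1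
    unfold Dd
    rw [wp_tt hC, sub_zero, zero_sub]
    field_simp
    ring
  rw [e] at h3
  refine h3.congr fun δ => ?_
  have e2 : EE eis Ω δ (tt Ω - zz Ω) = -EE eis Ω δ (zz Ω - tt Ω) := by
    rw [← EE_neg]
    congr 1
    ring
  rw [e2, EE_tt hC, add_comm (tt Ω) (zz Ω)]
  linear_combination (-EE eis Ω δ (zz Ω - tt Ω) / 2 - EE eis Ω δ (zz Ω + tt Ω) / 2) * hζ

variable {Γ : Type*} [LinearOrderedCommGroupWithZero Γ] {v : Valuation ℂ Γ}

omit hC in
lemma v_lm (hv : v 2 < 1) : v (lm : ℂ) = 1 :=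
  v_one_of_pow (n := 2) (by norm_num) (by rw [lm_sqC, v.map_neg, v_three hv])

/-- the value is a unit above two -/
theorem v_val (hv : v 2 < 1) {e : ℂ} (he : e ^ 2 = 1) :
    v (-(℘'[L] (zz Ω) + e * lm) / (2 * ℘[L] (zz Ω))) = 1 := by
  obtain ⟨hp, h1⟩ := dwp_lm hC (zz_two hC) (by rw [lm_zz]; exact hC.third)
  rw [lm_zz] at h1
  have hode := hC.ode (zz_nm hC)
  have hy := hC.y0
  have hl2 := lm_sqC
  have hl0 := lm_neC
  have hvl := v_lm (v := v) hv
  set p := ℘[L] (zz Ω)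
  set q := ℘'[L] (zz Ω)
  set Y := ℘'[L] (Ω / 3)
  have h3 : v ((Y - e) / 2) = 1 := by
    apply v_one_of_pow (n := 6) (by norm_num)
    have e1 : ((Y - e) / 2) ^ 2 = -e * ((Y - e) / 2) - 1 := by
      linear_combination (1 / 4 : ℂ) * hy - (1 / 4 : ℂ) * he
    have e2 : ((Y - e) / 2) ^ 3 = e := by
      linear_combination ((Y - e) / 2 - e) * e1 + ((Y - e) / 2) * he
    have e3 : ((Y - e) / 2) ^ 6 = 1 := by
      rw [show ((Y - e) / 2) ^ 6 = (((Y - e) / 2) ^ 3) ^ 2 by ring, e2, he]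
    rw [e3, map_one]
  have h4 : (-(q + e * lm) / (2 * p)) ^ 3 = -((lm : ℂ) ^ 3 * ((Y - e) / 2)) := by
    field_simp
    generalize (lm : ℂ) = l at *
    clear * - hode hl2 he h1
    grind
  apply v_one_of_pow (n := 3) (by norm_num)
  rw [h4, v.map_neg, map_mul, map_pow, hvl, h3, one_pow, one_mul]

end Pool.Agent.K7.H73.NM
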