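import Pool.Agent.K7.H73.NM.K
import Pool.Agent.Y696.Val2
import Pool.Agent.R430.B5

/-!
# The Hecke character of conductor `3 √-3`
-/

set_option autoImplicit false
set_option linter.unusedSectionVars false

open Complex Filter Topology
open scoped PeriodPair

namespace Pool.Agent.K7.H73.NM

open H667R3 Pool.Agent.Y696 Pool.Agent.W192.HK Pool.Agent.TH936.CM Pool.Agent.TH936.PU
open Pool.Agent.R430 (psi_norm)
open Pool.Agent.W192.CM (nu)

section ck
variable {ζ : ℂ} (hζ : ζ ^ 3 = 1)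

/-- the cubic character as a function of the norm -/
noncomputable def ck (ζ : ℂ) (n : ℕ) : ℂ := ζ ^ (n / 3)

include hζ

lemma pow_mod3 {a b : ℕ} (h : a % 3 = b % 3) : ζ ^ a = ζ ^ b := by
  rw [← Nat.div_add_mod a 3, ← Nat.div_add_mod b 3, pow_add, pow_add, pow_mul, pow_mul, hζ, h,
    one_pow, one_pow]

lemma ck_mul {m n : ℕ} (hm : m % 3 = 1) (hn : n % 3 = 1) : ck ζ (m * n) = ck ζ m * ck ζ n := by
  obtain ⟨a, rfl⟩ : ∃ a, m = 3 * a + 1 := ⟨m / 3, by omega⟩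
  obtain ⟨b, rfl⟩ : ∃ b, n = 3 * b + 1 := ⟨n / 3, by omega⟩
  unfold ck
  rw [← pow_add]
  apply pow_mod3 hζ
  have e : (3 * a + 1) * (3 * b + 1) = 3 * (3 * (a * b) + a + b) + 1 := by ring
  rw [e]
  omega

lemma ck_norm (n : ℕ) : ck ζ n * (starRingEnd ℂ) (ck ζ n) = 1 := by
  have h1 : ‖ck ζ n‖ = 1 := by
    unfold ck
    rw [norm_pow, Complex.norm_eq_one_of_pow_eq_one hζ (by norm_num), one_pow]
  rw [Complex.mul_conj, Complex.normSq_eq_norm_sq, h1]
  norm_num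

lemma ck_ne (n : ℕ) : ck ζ n ≠ 0 := by
  intro h
  have := ck_norm hζ n
  rw [h, zero_mul] at this
  exact zero_ne_one this

end ck

/-- the norm of a primary element -/
lemma nrm (x y : ℤ) : ((Ideal.absNorm (sp (1 + 3 * ((x : eis) + y * omr)) : Ideal eis) : ℕ) : ℤ) =
    1 + 3 * (2 * x - y + 3 * (x ^ 2 - x * y + y ^ 2)) := by
  have h1 : ((Ideal.absNorm (sp (1 + 3 * ((x : eis) + y * omr)) : Ideal eis) : ℕ) : ℝ) =
      Complex.normSq ((1 + 3 * ((x : eis) + y * omr) : eis) : ℂ) := by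
    have h4 := (lbasic eis om qr).2.2.2.2.1 (1 + 3 * ((x : eis) + y * omr))
    rw [← h4, Ideal.absNorm_apply, Submodule.cardQuot_apply]
    rfl
  have h2 : ((1 + 3 * ((x : eis) + y * omr) : eis) : ℂ) = ((1 + 3 * x : ℤ) : ℂ) + ((3 * y : ℤ) : ℂ) * om := by
    have h3 : ((3 : eis) : ℂ) = 3 := rfl
    push_cast
    rw [h3, omr_coe]
    ring
  rw [h2, norm_rep] at h1
  have h5 : ((Ideal.absNorm (sp (1 + 3 * ((x : eis) + y * omr)) : Ideal eis) : ℕ) : ℤ) =
    (1 + 3 * x) ^ 2 - (1 + 3 * x) * (3 * y) + (3 * y) ^ 2 := by exact_mod_cast h1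
  rw [h5]
  ring

/-- primary elements -/
lemma prim_rep {α : eis} (h : α - 1 ∈ (sp 3 : Ideal eis)) :
    ∃ x y : ℤ, α = 1 + 3 * ((x : eis) + y * omr) := by
  rw [Ideal.mem_span_singleton] at h
  obtain ⟨β, hβ⟩ := h
  obtain ⟨x, y, hxy⟩ := eis_rep β
  exact ⟨x, y, by rw [← hxy, ← hβ]; ring⟩

lemma nrm_mod (x y : ℤ) :
    Ideal.absNorm (sp (1 + 3 * ((x : eis) + y * omr)) : Ideal eis) % 3 = 1 := by
  have := nrm x y
  omega

lemma cop_mod {J : Ideal eis} (hJ : IsCoprime J (sp 3)) : Ideal.absNorm J % 3 = 1 := by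
  obtain ⟨α, rfl, hα⟩ := exists_prim hJ
  obtain ⟨x, y, rfl⟩ := prim_rep hα
  exact nrm_mod x y

/-- the value of the character at a primary element -/
lemma ck_prim {ζ : ℂ} (hζ : ζ ^ 3 = 1) (x y : ℤ) (k : ℕ) (hk : (2 * x - y - k) % 3 = 0) :
    ck ζ (Ideal.absNorm (sp (1 + 3 * ((x : eis) + y * omr)) : Ideal eis)) = ζ ^ k := by
  unfold ck
  apply pow_mod3 hζ
  have := nrm x y
  omega

section theta
variable {ζ : ℂ} (hζ : ζ ^ 3 = 1)

/-- the Hecke character -/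
noncomputable def th (ζ : ℂ) (J : Ideal eis) : ℂ := psi J * ck ζ (Ideal.absNorm J)

lemma lm_dvd3 : lm ∣ (3 : eis) := ⟨-lm, by linear_combination lm_sq⟩

lemma cop_lm {J : Ideal eis} : IsCoprime J (sp (3 * lm)) ↔ IsCoprime J (sp 3) := by
  constructor
  · intro h
    have e : (sp (3 * lm) : Ideal eis) = sp 3 * sp lm :=
      (Ideal.span_singleton_mul_span_singleton 3 lm).symm
    rw [e] at h
    exact IsCoprime.of_mul_right_left h
  · intro h
    have h1 : IsCoprime J (sp 3 * sp 3) := h.mul_right h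
    have h2 : (sp 3 : Ideal eis) * sp 3 = sp (3 * lm) * sp (-lm) := by
      rw [Ideal.span_singleton_mul_span_singleton, Ideal.span_singleton_mul_span_singleton]
      congr 2
      linear_combination 3 * lm_sq
    rw [h2] at h1
    exact IsCoprime.of_mul_right_left h1

lemma lm_prime : Prime lm := by
  have h1 : Irreducible lm := by
    constructor
    · intro h
      rw [isUnit_iff', Complex.normSq_apply, lm_coe] at h
      have h3 : Real.sqrt 3 * Real.sqrt 3 = 3 := Real.mul_self_sqrt (by norm_num)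
      simp only [om, Complex.add_re, Complex.mul_re, Complex.one_re, Complex.add_im,
        Complex.mul_im, Complex.one_im] at h
      norm_num at h
      nlinarith
    · intro a b hab
      obtain ⟨m, hm⟩ := norm_int a
      obtain ⟨n, hn⟩ := norm_int b
      have h2 : Complex.normSq (lm : ℂ) = 3 := by
        have h3 : (lm : ℂ) * (starRingEnd ℂ) (lm : ℂ) = 3 := by
          rw [lm_coe, map_add, map_mul, map_one, conj_om, Complex.conj_ofNat]
          linear_combination (2 + 4 * (om - 1)) * om_sq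
        rw [Complex.mul_conj] at h3
        exact_mod_cast h3
      have h4 : Complex.normSq (a : ℂ) * Complex.normSq (b : ℂ) = 3 := by
        rw [← Complex.normSq_mul, ← h2, hab]
        rfl
      rw [hm, hn] at h4
      have h5 : m * n = 3 := by exact_mod_cast h4
      rcases (Nat.dvd_prime Nat.prime_three).1 ⟨n, h5.symm⟩ with h6 | h6
      · left
        rw [isUnit_iff', hm, h6]
        norm_num
      · right
        rw [h6] at h5
        rw [isUnit_iff', hn, show n = 1 by omega]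
        norm_num
  exact h1.prime

include hζ

theorem hc_th (hne : ζ ≠ 1) : HC 1 (sp (3 * lm)) (th ζ) := by
  refine ⟨?_, ?_, ?_, ?_, ?_⟩
  · rw [Ne, Ideal.span_singleton_eq_bot]
    exact mul_ne_zero three_ne lm_ne
  · intro I J
    unfold th
    by_cases hI : IsCoprime I (sp (3 : eis))
    · by_cases hJ : IsCoprime J (sp (3 : eis))
      · rw [hc_psi.mul, map_mul, ck_mul hζ (cop_mod hI) (cop_mod hJ)]
        ring
      · rw [hc_psi.mul, (psi_zero_iff J).2 hJ]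
        ring
    · rw [hc_psi.mul, (psi_zero_iff I).2 hI]
      ring
  · intro I
    unfold th
    rw [mul_eq_zero, or_iff_left (ck_ne hζ _), hc_psi.zero, cop_lm]
  · intro α _ hα
    have h3 : α - 1 ∈ (sp 3 : Ideal eis) := by
      rw [Ideal.mem_span_singleton] at hα ⊢
      exact (dvd_mul_right _ _).trans hα
    unfold th
    rw [psi_prim h3]
    rw [Ideal.mem_span_singleton] at hα
    obtain ⟨γ, hγ⟩ := hα
    obtain ⟨c, d, rfl⟩ := eis_rep γ
    have h4 : α = 1 + 3 * (((c - 2 * d : ℤ) : eis) + ((2 * c - d : ℤ) : eis) * omr) := by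
      have : lm = 1 + 2 * omr := rfl
      rw [this] at hγ
      push_cast
      linear_combination hγ + (6 * (d : eis)) * omr_sq
    rw [h4, ck_prim hζ _ _ 0 (by push_cast; omega), pow_zero, mul_one, pow_one]
  · intro q' hq'
    obtain ⟨d, rfl⟩ : ∃ d : eis, q' = sp d :=
      ⟨_, (Submodule.IsPrincipal.span_singleton_generator q').symm⟩
    have h1 : d ∣ 3 * lm := Ideal.span_singleton_le_span_singleton.1 hq'.le
    have h2 : ¬ (3 * lm : eis) ∣ d := fun h => by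
      have := Ideal.span_singleton_le_span_singleton.2 h
      exact absurd (le_antisymm hq'.le this) hq'.ne
    have hlm3 : lm ^ 3 = -(3 * lm) := by linear_combination lm * lm_sq
    have h3 : d ∣ lm ^ 3 := by
      rw [hlm3]
      exact h1.neg_right
    obtain ⟨i, hi, hi'⟩ := (dvd_prime_pow lm_prime 3).1 h3
    have h4 : i ≤ 2 := by
      by_contra hcon
      have : i = 3 := by omega
      rw [this, hlm3] at hi'
      exact h2 ((dvd_neg.2 dvd_rfl).trans hi'.symm.dvd)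
    have h5 : d ∣ 3 := by
      refine hi'.dvd.trans ((pow_dvd_pow lm h4).trans ?_)
      rw [lm_sq]
      exact (dvd_refl _).neg_left
    have h6 : (4 : eis) = 1 + 3 * (((1 : ℤ) : eis) + ((0 : ℤ) : eis) * omr) := by
      push_cast
      ring
    have h7 : (4 : eis) - 1 ∈ (sp 3 : Ideal eis) := by
      rw [Ideal.mem_span_singleton]
      exact ⟨1, by ring⟩
    have h40 : (4 : eis) ≠ 0 := by
      intro h
      have := congrArg (fun t : eis => (t : ℂ)) h
      have h4c : ((4 : eis) : ℂ) = 4 := rfl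
      simp only [h4c] at this
      norm_num at this
    refine ⟨4, h40, ?_, ?_, ?_⟩
    · rw [Ideal.mem_span_singleton]
      exact h5.trans ⟨1, by ring⟩
    · rw [cop_lm, Ideal.isCoprime_span_singleton_iff]
      exact cop_of_unit isUnit_one h7
    · unfold th
      rw [psi_prim h7, h6, ck_prim hζ 1 0 2 (by norm_num), ← h6, pow_one]
      intro h
      apply hne
      have h8 : ζ ^ 2 = 1 := by
        have h4c : ((4 : eis) : ℂ) ≠ 0 := coe_ne h40
        exact mul_left_cancel₀ h4c (by rw [h, mul_one])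
      have : ζ = ζ ^ 3 := by
        rw [pow_succ, h8, one_mul]
      rw [this, hζ]

end theta

section sum
variable {ζ : ℂ} (hζ : ζ ^ 3 = 1)

/-- the coefficients -/
noncomputable def eζ (ζ : ℂ) (α : eis) : ℂ := ee psi α * ck ζ (Ideal.absNorm (sp α : Ideal eis))

lemma ee_one' {β : eis} : ee psi (1 + 3 * β) = 1 := by
  have h := eo.per (1 + 3 * β) 1 (by
    rw [Ideal.mem_span_singleton]
    exact ⟨β, by ring⟩)
  rw [h, ee_u isUnit_one]
  rfl

/-- the parametrization -/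
noncomputable def par (p : eisˣ × (Fin 3 × eis)) : eis := p.1 * (1 + 3 * ((p.2.1 : ℕ) + lm * p.2.2))

lemma par_inj : Function.Injective par := by
  rintro ⟨u, b, γ⟩ ⟨u', b', γ'⟩ h
  have h0 : (u : eis) * (1 + 3 * ((b : ℕ) + lm * γ)) = (u' : eis) * (1 + 3 * ((b' : ℕ) + lm * γ')) := h
  have hu : (u : eis) = u' := by
    refine unit_mod u.isUnit u'.isUnit ?_
    rw [Ideal.mem_span_singleton]
    exact ⟨(u' : eis) * ((b' : ℕ) + lm * γ') - (u : eis) * ((b : ℕ) + lm * γ), by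
      linear_combination h0⟩
  have hu' : u = u' := Units.ext hu
  subst hu'
  have h1 := mul_left_cancel₀ u.ne_zero h0
  have h2 : ((b : ℕ) : eis) + lm * γ = ((b' : ℕ) : eis) + lm * γ' := by
    have h3 : (3 : eis) * (((b : ℕ) : eis) + lm * γ) = 3 * (((b' : ℕ) : eis) + lm * γ') := by
      linear_combination h1
    exact mul_left_cancel₀ three_ne h3
  have h4 : lm ∣ (((b : ℕ) : ℤ) - ((b' : ℕ) : ℤ) : ℤ) := ⟨γ' - γ, by push_cast; linear_combination h2⟩
  have hb : b = b' := by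
    by_contra hne
    have h5 : ((((b : ℕ) : ℤ) - ((b' : ℕ) : ℤ)) ^ 2 = 1 ∨ (((b : ℕ) : ℤ) - ((b' : ℕ) : ℤ)) ^ 2 = 4) := by
      have hb1 := b.2
      have hb2 := b'.2
      have hb3 : (b : ℕ) ≠ b' := fun h => hne (Fin.ext h)
      have h6 : (((b : ℕ) : ℤ) - ((b' : ℕ) : ℤ)) = 1 ∨ (((b : ℕ) : ℤ) - ((b' : ℕ) : ℤ)) = -1 ∨
        (((b : ℕ) : ℤ) - ((b' : ℕ) : ℤ)) = 2 ∨ (((b : ℕ) : ℤ) - ((b' : ℕ) : ℤ)) = -2 := by omega
      rcases h6 with h | h | h | h <;> rw [h] <;> norm_num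
    have h7 : IsUnit lm := by
      have h8 : lm ∣ ((((b : ℕ) : ℤ) - ((b' : ℕ) : ℤ) : ℤ) : eis) ^ 2 := h4.trans (dvd_pow_self _ two_ne_zero)
      rcases h5 with h5 | h5
      · rw [← Int.cast_pow, h5, Int.cast_one] at h8
        exact isUnit_of_dvd_one h8
      · rw [← Int.cast_pow, h5] at h8
        have h9 : lm ∣ (1 : eis) := by
          have h10 : (1 : eis) = ((4 : ℤ) : eis) - 3 := by push_cast; ring
          rw [h10]
          exact dvd_sub h8 lm_dvd3
        exact isUnit_of_dvd_one h9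
    exact lm_prime.not_isUnit h7
  subst hb
  have h5 : γ = γ' := mul_left_cancel₀ lm_ne (add_left_cancel h2)
  rw [h5]

lemma par_range {α : eis} (h : IsCoprime α 3) : α ∈ Set.range par := by
  obtain ⟨u, hu, hu'⟩ := cop_three h
  obtain ⟨u, rfl⟩ := hu
  rw [Ideal.mem_span_singleton] at hu'
  obtain ⟨t, ht⟩ := hu'
  obtain ⟨x, y, hxy⟩ := eis_rep (((u⁻¹ : eisˣ) : eis) * t)
  have hb : ((x + y) % 3).toNat < 3 := by omega
  obtain ⟨m, hm⟩ : ∃ m : ℤ, x - (((x + y) % 3).toNat : ℤ) = -y + 3 * m :=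
    ⟨(x + y) / 3, by omega⟩
  refine ⟨(u, (⟨((x + y) % 3).toNat, hb⟩, (y : eis) * (1 + omr) - (m : eis) * lm)), ?_⟩
  show (u : eis) * (1 + 3 * ((((x + y) % 3).toNat : ℕ) + lm * ((y : eis) * (1 + omr) - (m : eis) * lm))) = α
  have e1 : (((((x + y) % 3).toNat : ℕ)) : eis) = (x : eis) + y - 3 * m := by
    have h5 : ((((x + y) % 3).toNat : ℕ) : ℤ) = x + y - 3 * m := by omega
    have h6 : (((((x + y) % 3).toNat : ℕ) : ℤ) : eis) = ((x + y - 3 * m : ℤ) : eis) := by rw [h5]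
    rw [Int.cast_natCast] at h6
    rw [h6]
    push_cast
    ring
  have e2 : lm * ((y : eis) * (1 + omr) - (m : eis) * lm) = y * (omr - 1) + 3 * m := by
    have : lm = 1 + 2 * omr := rfl
    rw [this]
    linear_combination (2 * (y : eis) - 4 * m) * omr_sq
  have e3 : t = u * ((x : eis) + y * omr) := by
    rw [← hxy, ← mul_assoc, Units.mul_inv, one_mul]
  rw [e1, e2]
  linear_combination -ht - 3 * e3

include hζ

lemma eζ_bd (α : eis) : ‖eζ ζ α‖ ≤ 1 := by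
  unfold eζ
  rw [norm_mul]
  refine mul_le_one₀ (eo.bd α) (norm_nonneg _) ?_
  unfold ck
  rw [norm_pow, Complex.norm_eq_one_of_pow_eq_one hζ (by norm_num), one_pow]

lemma eζ_par (p : eisˣ × (Fin 3 × eis)) (δ : ℝ) : eζ ζ (par p) * fd δ (par p : ℂ) =
    ζ ^ (2 * (p.2.1 : ℕ)) * fd δ ((1 + 3 * (((p.2.1 : ℕ) : eis) + lm * p.2.2) : eis) : ℂ) := by
  obtain ⟨u, b, γ⟩ := p
  obtain ⟨c, d, rfl⟩ := eis_rep γ
  have h1 : ((b : ℕ) : eis) + lm * ((c : eis) + d * omr) =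
      (((b : ℕ) + c - 2 * d : ℤ) : eis) + ((2 * c - d : ℤ) : eis) * omr := by
    have : lm = 1 + 2 * omr := rfl
    rw [this]
    push_cast
    linear_combination (2 * (d : eis)) * omr_sq
  have h2 : (sp (par (u, b, (c : eis) + d * omr)) : Ideal eis) =
      sp (1 + 3 * ((((b : ℕ) + c - 2 * d : ℤ) : eis) + ((2 * c - d : ℤ) : eis) * omr)) := by
    rw [← h1]
    exact Ideal.span_singleton_mul_left_unit u.isUnit _
  unfold eζ
  rw [h2, ck_prim hζ _ _ (2 * (b : ℕ)) (by push_cast; omega)]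
  have h3 : ee psi (par (u, b, (c : eis) + d * omr)) = ((u : eis) : ℂ) := by
    show ee psi ((u : eis) * (1 + 3 * ((b : ℕ) + lm * ((c : eis) + d * omr)))) = _
    rw [eo.mul, ee_one', mul_one, ee_u u.isUnit]
  have h4 : fd δ ((par (u, b, (c : eis) + d * omr) : eis) : ℂ) = (((u : eis) : ℂ))⁻¹ *
      fd δ ((1 + 3 * (((b : ℕ) : eis) + lm * ((c : eis) + d * omr)) : eis) : ℂ) := by
    have : ((par (u, b, (c : eis) + d * omr) : eis) : ℂ) = ((u : eis) : ℂ) *
      ((1 + 3 * (((b : ℕ) : eis) + lm * ((c : eis) + d * omr)) : eis) : ℂ) := by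
      rw [← Subring.coe_mul]
      rfl
    rw [this, fd_mul, (isUnit_iff' _).1 u.isUnit, mul_one]
  rw [h3, h4]
  have h5 : ((u : eis) : ℂ) ≠ 0 := coe_ne u.ne_zero
  field_simp

/-- the sum of the Eisenstein series over the three points -/
theorem SS_eζ {L : PeriodPair} {Ω : ℂ} (hC : Cur L Ω) {δ : ℝ} (hδ : 0 < δ) :
    SS (eζ ζ) δ = 6 * (Ω / (3 * (lm : ℂ))) *
      (EE eis Ω (δ * Complex.normSq ((3 * lm : eis) : ℂ) / Complex.normSq Ω) (zz Ω) +
      ζ ^ 2 * EE eis Ω (δ * Complex.normSq ((3 * lm : eis) : ℂ) / Complex.normSq Ω) (zz Ω + tt Ω) +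
      ζ ^ 4 * EE eis Ω (δ * Complex.normSq ((3 * lm : eis) : ℂ) / Complex.normSq Ω) (zz Ω - tt Ω)) := by
  have hL := hC.lat
  have hΩ := hL.ne
  have hs : Summable (fun α : eis => eζ ζ α * fd δ (α : ℂ)) := summ_e hL (eζ_bd hζ) hδ
  set δ' : ℝ := δ * Complex.normSq ((3 * lm : eis) : ℂ) / Complex.normSq Ω with hδ'
  have h1 : SS (eζ ζ) δ = ∑' p : eisˣ × (Fin 3 × eis), eζ ζ (par p) * fd δ (par p : ℂ) := by
    unfold SS
    refine (par_inj.tsum_eq (f := fun α : eis => eζ ζ α * fd δ (α : ℂ)) ?_).symm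
    intro α hα
    apply par_range
    by_contra hcon
    apply hα
    have h5 : ee psi α = 0 := by
      unfold ee fp
      rw [(psi_zero_iff _).2, zero_div, map_zero]
      rw [Ideal.isCoprime_span_singleton_iff]
      exact hcon
    show ee psi α * ck ζ _ * fd δ (α : ℂ) = 0
    rw [h5, zero_mul, zero_mul]
  have hs1 : Summable (fun p : eisˣ × (Fin 3 × eis) => eζ ζ (par p) * fd δ (par p : ℂ)) :=
    hs.comp_injective par_inj
  have hpt : ∀ p : eisˣ × (Fin 3 × eis), eζ ζ (par p) * fd δ (par p : ℂ) =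
      ζ ^ (2 * (p.2.1 : ℕ)) * fd δ ((1 + 3 * (((p.2.1 : ℕ) : eis) + lm * p.2.2) : eis) : ℂ) :=
    fun p => eζ_par hζ p δ
  rw [h1, hs1.tsum_prod]
  simp only [hpt]
  rw [tsum_const]
  have hs2 : Summable (fun p : Fin 3 × eis => ζ ^ (2 * (p.1 : ℕ)) *
      fd δ ((1 + 3 * (((p.1 : ℕ) : eis) + lm * p.2) : eis) : ℂ)) := by
    have := hs1.prod_factor (1 : eisˣ)
    simp only [hpt] at this
    exact this
  rw [hs2.tsum_prod, tsum_fintype]
  have hEE : ∀ b : Fin 3, ∑' γ : eis, ζ ^ (2 * (b : ℕ)) *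
      fd δ ((1 + 3 * (((b : ℕ) : eis) + lm * γ) : eis) : ℂ) =
      ζ ^ (2 * (b : ℕ)) * ((Ω / (3 * (lm : ℂ))) * EE eis Ω δ' (zz Ω + (b : ℕ) * tt Ω)) := by
    intro b
    rw [tsum_mul_left]
    congr 1
    unfold EE
    rw [← tsum_mul_left]
    refine tsum_congr fun γ => ?_
    have hl := lm_neC
    have h3c : ((3 * lm : eis) : ℂ) = 3 * (lm : ℂ) := by
      have h3 : ((3 : eis) : ℂ) = 3 := rfl
      push_cast
      rw [h3]
    have e1 : ((1 + 3 * (((b : ℕ) : eis) + lm * γ) : eis) : ℂ) = (3 * (lm : ℂ) / Ω) *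
        (zz Ω + (b : ℕ) * tt Ω + Ω * γ) := by
      have h3 : ((3 : eis) : ℂ) = 3 := rfl
      unfold zz tt
      push_cast
      rw [h3]
      field_simp
      ring
    have e2 : δ * Complex.normSq (3 * (lm : ℂ) / Ω) = δ' := by
      rw [hδ', h3c, map_div₀, mul_div_assoc]
    rw [e1, fd_mul, e2, inv_div]
  simp only [hEE]
  rw [Fin.sum_univ_three]
  have hcard : Nat.card eisˣ = 6 := nu_six
  have hper : EE eis Ω δ' (zz Ω + 2 * tt Ω) = EE eis Ω δ' (zz Ω - tt Ω) := by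
    refine EE_per hL δ' ?_
    have : zz Ω + 2 * tt Ω - (zz Ω - tt Ω) = 3 * tt Ω := by ring
    rw [this]
    exact tt_three hC
  rw [hcard]
  simp only [Fin.val_zero, Fin.val_one, Fin.val_two, Nat.cast_zero, Nat.cast_one, Nat.cast_ofNat, zero_mul, add_zero,
    one_mul, mul_zero, pow_zero, mul_one, nsmul_eq_mul]
  rw [hper]
  ring

/-- **the L-function and its value at one** -/
theorem exists_F (hne : ζ ≠ 1) : ∃ F : ℂ → ℂ, Differentiable ℂ F ∧
    (∀ z : ℂ, 3 / 2 < z.re →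
      HasSum (fun I : Ideal eis => th ((starRingEnd ℂ) ζ) I * (nm I : ℂ) ^ (-z)) (F z)) ∧
    ∀ (L : PeriodPair) (Ω : ℂ), Cur L Ω → ∀ (Γ : Type) [LinearOrderedCommGroupWithZero Γ]
      (v : Valuation ℂ Γ), v 2 < 1 → v ((starRingEnd ℂ) (F 1)) = v Ω := by
  have hζc : ((starRingEnd ℂ) ζ) ^ 3 = 1 := by rw [← map_pow, hζ, map_one]
  have hnec : (starRingEnd ℂ) ζ ≠ 1 := by
    intro h
    apply hne
    have := congrArg (starRingEnd ℂ) h
    rwa [Complex.conj_conj, map_one] at this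
  have hθ := hc_th hζc hnec
  have hfin := (lbasic eis om qr).1 _ hθ.ne
  obtain ⟨F, g1, g2, g3⟩ := lim_L lbasic lfp lcnt ldec lafe qr hθ (sys_pid hfin)
  refine ⟨F, g1, g2, fun L Ω hC Γ _ v hv => ?_⟩
  have t1 : th ((starRingEnd ℂ) ζ) ⊤ = 1 := by
    have e1 : (⊤ : Ideal eis) = sp 1 := by
      rw [eq_comm, Ideal.span_singleton_eq_top]
      exact isUnit_one
    rw [e1, hθ.princ 1 one_ne_zero (by rw [sub_self]; exact Submodule.zero_mem _)]
    simp
  have t2 : nm (⊤ : Ideal eis) = 1 := ((lbasic eis om qr).2.2.2.2.2.2.1 ⊤).2 rfl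
  have hcb : ∀ α : eis, cb (th ((starRingEnd ℂ) ζ)) ⊤ α = eζ ζ α := by
    intro α
    unfold cb
    rw [if_pos Submodule.mem_top]
    have hck : (starRingEnd ℂ) (ck ((starRingEnd ℂ) ζ) (Ideal.absNorm (sp α : Ideal eis))) =
        ck ζ (Ideal.absNorm (sp α : Ideal eis)) := by
      unfold ck
      rw [map_pow, Complex.conj_conj]
    unfold eζ ee fp th
    rw [map_div₀, map_mul, map_div₀, hck]
    ring
  have hl : Tendsto (SS (eζ ζ)) (𝓝[>] 0) (𝓝 ((nu eis : ℂ) * (starRingEnd ℂ) (F 1))) := by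
    refine g3.congr fun δ => ?_
    rw [Finset.sum_singleton]
    change th ((starRingEnd ℂ) ζ) ⊤ * SS (cb (th ((starRingEnd ℂ) ζ)) ⊤) (δ / nm (⊤ : Ideal eis)) = SS (eζ ζ) δ
    rw [t1, one_mul, t2, div_one]
    congr 1
    funext α
    exact hcb α
  have hL := hC.lat
  have hζ1 : ζ ^ 2 + ζ + 1 = 0 := by
    have h5 : (ζ - 1) * (ζ ^ 2 + ζ + 1) = 0 := by linear_combination hζ
    exact (mul_eq_zero.1 h5).resolve_left (sub_ne_zero.2 hne)
  have hζ2 : (ζ ^ 2) ^ 2 + ζ ^ 2 + 1 = 0 := by linear_combination (ζ ^ 2 - ζ + 1) * hζ1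
  have h3 : (0 : ℝ) < Complex.normSq ((3 * lm : eis) : ℂ) :=
    Complex.normSq_pos.2 (coe_ne (mul_ne_zero three_ne lm_ne))
  have h4 : 0 < Complex.normSq Ω := Complex.normSq_pos.2 hL.ne
  have h5 := ((lim_val hC hζ2).comp (tend_scale
    (a := Complex.normSq ((3 * lm : eis) : ℂ) / Complex.normSq Ω) (by positivity))).const_mul
      (6 * (Ω / (3 * (lm : ℂ))))
  have h6 : Tendsto (SS (eζ ζ)) (𝓝[>] 0) (𝓝 (6 * (Ω / (3 * (lm : ℂ))) *
      (-(℘'[L] (zz Ω) + (ζ ^ 2 - (ζ ^ 2) ^ 2) * ℘'[L] (tt Ω)) / (2 * ℘[L] (zz Ω))))) := by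
    refine h5.congr' ?_
    filter_upwards [self_mem_nhdsWithin] with δ (hδ : 0 < δ)
    rw [SS_eζ hζ hC hδ]
    simp only [Function.comp_apply]
    rw [mul_div_assoc, ← pow_mul]
  have h7 := tendsto_nhds_unique hl h6
  rw [nu_six] at h7
  have h8 : (starRingEnd ℂ) (F 1) = (Ω / (3 * (lm : ℂ))) *
      (-(℘'[L] (zz Ω) + (ζ ^ 2 - (ζ ^ 2) ^ 2) * ℘'[L] (tt Ω)) / (2 * ℘[L] (zz Ω))) := by
    have h60 : (6 : ℂ) ≠ 0 := by norm_num
    apply mul_left_cancel₀ h60
    rw [← mul_assoc]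
    exact_mod_cast h7
  have hsq : (ζ ^ 2 - (ζ ^ 2) ^ 2) ^ 2 = (lm : ℂ) ^ 2 := by
    rw [lm_sqC]
    have : ζ ^ 2 = -ζ - 1 := by linear_combination hζ1
    rw [this]
    linear_combination (ζ ^ 2 + 5 * ζ + 7) * hζ1
  have hts := dwp_tt hC
  obtain ⟨e, he, hee⟩ : ∃ e : ℂ, e ^ 2 = 1 ∧ (ζ ^ 2 - (ζ ^ 2) ^ 2) * ℘'[L] (tt Ω) = e * lm := by
    rcases sq_eq_sq_iff_eq_or_eq_neg.1 hsq with h | h
    · exact ⟨℘'[L] (tt Ω), hts, by rw [h]; ring⟩
    · exact ⟨-℘'[L] (tt Ω), by rw [neg_sq]; exact hts, by rw [h]; ring⟩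
  rw [h8, hee, map_mul, v_val hC hv he, mul_one, map_div₀, map_mul, v_three hv, v_lm hv]
  simp

end sum

end Pool.Agent.K7.H73.NM
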