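import Pool.Agent.K7.H73.NM.L
import Pool.Agent.K7.H70.AS.C

/-!
# The L-function of the cubic character over the third cyclotomic field
-/

set_option autoImplicit false
set_option linter.unusedSectionVars false
set_option linter.style.haveILetI false

open Complex Filter Topology NumberField IsDedekindDomain
open scoped PeriodPair

namespace Pool.Agent.K7.H73.NM

open H667R3 Pool.Agent.Y696 Pool.Agent.W192.HK Pool.Agent.TH936.CM Pool.Agent.TH936.PU
open Pool.Agent.R430 (psi_norm PN gI iE rN rN_abs rN_mul eis_inj inst_fin inst_tf)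
open Pool.Agent.K7.H56 (VV)
open Pool.Agent.Y688 (NI)
open Pool.Agent.K7.H70.AS (an_conj mero_conj)

section
variable {N : Type} [Field N] [NumberField N]

/-- the cubic character of the ideals -/
noncomputable def xk (ζ : ℂ) (I : Ideal (𝓞 N)) : ℂ :=
  if Ideal.absNorm I % 3 = 1 then ck ζ (Ideal.absNorm I) else 0

variable [IsCyclotomicExtension {3} ℚ N]

lemma j_surj (j : eis →+* 𝓞 N) : Function.Surjective j := by
  have hw : ((j omr : 𝓞 N) : N) ^ 2 + ((j omr : 𝓞 N) : N) + 1 = 0 := by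
    have h1 := congrArg (fun x : eis => ((j x : 𝓞 N) : N)) omr_sq
    simpa using h1
  have h3 : IsPrimitiveRoot ((j omr : 𝓞 N) : N) 3 := by
    have h3 : ((j omr : 𝓞 N) : N) ^ 3 = 1 := by
      linear_combination (((j omr : 𝓞 N) : N) - 1) * hw
    have h1 : ((j omr : 𝓞 N) : N) ≠ 1 := by
      intro h
      rw [h] at hw
      norm_num at hw
    have : Fact (Nat.Prime 3) := ⟨Nat.prime_three⟩
    have := orderOf_eq_prime h3 h1
    rw [← this]
    exact IsPrimitiveRoot.orderOf _
  intro z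
  obtain ⟨x, y, h⟩ := int_rep h3 z
  refine ⟨(x : eis) + y * omr, ?_⟩
  rw [h, map_add, map_mul, map_intCast, map_intCast]
  rfl

lemma rank_one (j : eis →+* 𝓞 N) : letI := j.toAlgebra; Module.finrank eis (𝓞 N) = 1 := by
  letI := j.toAlgebra
  have hb : Function.Bijective (Algebra.linearMap eis (𝓞 N)) := ⟨eis_inj j, j_surj j⟩
  have := (LinearEquiv.ofBijective _ hb).finrank_eq
  rw [← this]
  exact Module.finrank_self eis

lemma rN_map (j : eis →+* 𝓞 N) (J : Ideal eis) : rN j (J.map j) = J := by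
  letI := j.toAlgebra
  haveI := inst_fin j
  haveI := inst_tf j
  have h := Ideal.relNorm_algebraMap (R := eis) (𝓞 N) J
  rw [rank_one j, pow_one] at h
  exact h

/-- the ideals of the two rings -/
noncomputable def eI (j : eis →+* 𝓞 N) : Ideal eis ≃ Ideal (𝓞 N) where
  toFun J := J.map j
  invFun I := I.comap j
  left_inv _ := Ideal.comap_map_of_bijective j ⟨eis_inj j, j_surj j⟩
  right_inv I := Ideal.map_comap_of_surjective j (j_surj j) I

lemma term_eq {ζ : ℂ} (ι : Pool.Agent.Y688.RR →+* 𝓞 N) (z : ℂ) (J : Ideal eis) :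
    gI ι (xk ζ) ((starRingEnd ℂ) z) (eI (iE ι) J) =
      (starRingEnd ℂ) (th ((starRingEnd ℂ) ζ) J * (nm J : ℂ) ^ (-z)) := by
  have h1 : rN (iE ι) (eI (iE ι) J) = J := rN_map (iE ι) J
  have h2 : Ideal.absNorm (eI (iE ι) J) = Ideal.absNorm J := by
    rw [← rN_abs (iE ι), h1]
  have h3 : (nm J : ℂ) = ((Ideal.absNorm J : ℕ) : ℂ) := by
    unfold nm
    rw [Ideal.absNorm_apply, Submodule.cardQuot_apply]
    push_cast
    rfl
  have h4 : (starRingEnd ℂ) ((nm J : ℂ) ^ (-z)) = ((Ideal.absNorm J : ℕ) : ℂ) ^ (-(starRingEnd ℂ) z) := by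
    rw [h3, ← map_neg]
    have := Complex.conj_cpow_eq_ite
    by_cases h0 : Ideal.absNorm J = 0
    · rw [h0, Nat.cast_zero]
      by_cases hz : z = 0
      · rw [hz]
        simp
      · rw [Complex.zero_cpow (neg_ne_zero.2 hz), map_zero, Complex.zero_cpow]
        rw [Ne, map_eq_zero]
        exact neg_ne_zero.2 hz
    · have h5 : ((Ideal.absNorm J : ℕ) : ℂ) = ((Ideal.absNorm J : ℝ) : ℂ) := by push_cast; rfl
      rw [h5, Complex.cpow_conj _ _ (by
        rw [Complex.arg_ofReal_of_nonneg (Nat.cast_nonneg _)]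
        exact Real.pi_pos.ne), Complex.conj_ofReal]
  unfold gI
  rw [h2, map_mul, h4]
  congr 1
  unfold PN
  rw [h1]
  unfold th xk
  rw [h2, map_mul]
  have h5 : (starRingEnd ℂ) (ck ((starRingEnd ℂ) ζ) (Ideal.absNorm J)) =
      ck ζ (Ideal.absNorm J) := by
    unfold ck
    rw [map_pow, Complex.conj_conj]
  rw [h5]
  split_ifs with h6
  · ring
  · have h7 : psi J = 0 := by
      rw [psi_zero_iff]
      exact fun h => h6 (cop_mod h)
    rw [h7, map_zero]
    ring

/-- **the L-function of the cubic character** -/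
theorem exists_g {ζ : ℂ} (hζ : ζ ^ 3 = 1) (hne : ζ ≠ 1) (ι : Pool.Agent.Y688.RR →+* 𝓞 N) :
    ∃ g : ℂ → ℂ, VV ι (xk ζ) g ∧ ∀ (L : PeriodPair) (Ω : ℂ), Cur L Ω → ∀ (Γ : Type)
      [LinearOrderedCommGroupWithZero Γ] (v : Valuation ℂ Γ), v 2 < 1 → v (g 1) = v Ω := by
  obtain ⟨F, hF1, hF2, hF3⟩ := exists_F hζ hne
  refine ⟨fun s => (starRingEnd ℂ) (F ((starRingEnd ℂ) s)), ⟨?_, ?_, ?_⟩, ?_⟩
  · exact mero_conj fun z _ => (hF1.analyticAt z).meromorphicAt
  · exact an_conj (hF1.analyticAt _)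
  · intro s hs
    have hs' : 3 / 2 < ((starRingEnd ℂ) s).re := by rwa [Complex.conj_re]
    have h1 := (hF2 _ hs').map (starRingEnd ℂ) Complex.continuous_conj
    have h2 : HasSum (fun I : Ideal (𝓞 N) => gI ι (xk ζ) s I)
        ((starRingEnd ℂ) (F ((starRingEnd ℂ) s))) := by
      rw [← (eI (iE ι)).hasSum_iff]
      refine h1.congr_fun ?_
      intro J
      have := term_eq (ζ := ζ) ι ((starRingEnd ℂ) s) J
      rw [Complex.conj_conj] at this
      exact this
    have h3 : Function.support (fun I : Ideal (𝓞 N) => gI ι (xk ζ) s I) ⊆ {I | I ≠ ⊥} := by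
      intro I hI
      rw [Function.mem_support] at hI
      rintro rfl
      apply hI
      unfold gI xk
      rw [Ideal.absNorm_bot]
      simp
    exact (hasSum_subtype_iff_of_support_subset h3).2 h2
  · intro L Ω hC Γ _ v hv
    have := hF3 L Ω hC Γ v hv
    rw [← this]
    simp only [map_one]

end

end Pool.Agent.K7.H73.NM
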